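import Pool.Agent.U233.PW.FullN

/-!
# Orthogonal decompositions of the cohomology, dual bases, the diagonal
-/

set_option autoImplicit false
set_option linter.unusedSectionVars false

open CategoryTheory AlgebraicGeometry Finset

universe u

namespace Pool.Agent.U233.AM

open Module Pool.Agent.N179.GR Pool.Agent.U233.FG Pool.Agent.TH125.Gal Pool.Agent.U233.TF
open Pool.Agent.H914 Pool.Agent.H914.VarClass Pool.Agent.H914.VarClass.Obj
  Pool.Agent.H914.WeilCohomology Pool.Agent.H281R3.HT Pool.Agent.W552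

noncomputable section

/-- left nondegenerate forms are right nondegenerate -/
theorem nd_right {K V : Type*} [Field K] [AddCommGroup V] [Module K V] [FiniteDimensional K V]
    {B : V →ₗ[K] V →ₗ[K] K} (h1 : ∀ a, (∀ b, B a b = 0) → a = 0) :
    ∀ a, (∀ b, B b a = 0) → a = 0 := by
  have h2 : Function.Injective B :=
    (injective_iff_map_eq_zero _).2 fun a ha => h1 a fun b => by rw [ha]; rfl
  intro a ha
  by_contra ha0
  have h3 : Function.Surjective B :=
    (LinearMap.injective_iff_surjective_of_finrank_eq_finrank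
      (Subspace.dual_finrank_eq).symm).1 h2
  obtain ⟨φ, hφ⟩ : ∃ φ : Module.Dual K V, φ a ≠ 0 := by
    by_contra hcon
    push Not at hcon
    exact ha0 ((Module.forall_dual_apply_eq_zero_iff K a).1 hcon)
  obtain ⟨b, rfl⟩ := h3 φ
  exact hφ (ha b)

/-- the left dual basis -/
theorem exists_left {K V : Type*} [Field K] [AddCommGroup V] [Module K V] [FiniteDimensional K V]
    {B : V →ₗ[K] V →ₗ[K] K} (h1 : ∀ a, (∀ b, B a b = 0) → a = 0) {N : ℕ}
    (b : Module.Basis (Fin N) K V) :
    ∃ v : Module.Basis (Fin N) K V, ∀ i j, B (v i) (b j) = if j = i then 1 else 0 := by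
  have hB : LinearMap.BilinForm.Nondegenerate B := ⟨h1, nd_right h1⟩
  exact ⟨LinearMap.BilinForm.dualBasis B hB b,
    fun i j => LinearMap.BilinForm.apply_dualBasis_left hB b i j⟩

/-- the right dual basis -/
theorem exists_right {K V : Type*} [Field K] [AddCommGroup V] [Module K V]
    [FiniteDimensional K V]
    {B : V →ₗ[K] V →ₗ[K] K} (h1 : ∀ a, (∀ b, B a b = 0) → a = 0) {N : ℕ}
    (b : Module.Basis (Fin N) K V) :
    ∃ v : Module.Basis (Fin N) K V, ∀ i j, B (b i) (v j) = if i = j then 1 else 0 := by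
  have hB : LinearMap.BilinForm.Nondegenerate (LinearMap.flip B) :=
    ⟨fun a ha => nd_right h1 a ha, fun a ha => h1 a ha⟩
  refine ⟨LinearMap.BilinForm.dualBasis (LinearMap.flip B) hB b, fun i j => ?_⟩
  have h2 := LinearMap.BilinForm.apply_dualBasis_left (B := LinearMap.flip B) hB b j i
  exact h2

variable {k : Type u} [Field k] {𝒱 : VarClass k} {ops : CycleOps 𝒱}
  {W : WeilCohomology.{u, 0} ops} {X : 𝒱.Obj} {R T : Submodule W.K (W.H X)}

/-- an orthogonal decomposition of the cohomology of `X` -/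
structure Dcmp (W : WeilCohomology.{u, 0} ops) (X : 𝒱.Obj) (R T : Submodule W.K (W.H X)) :
    Prop where
  sum : ∀ x, ∃ c ∈ R, ∃ t ∈ T, x = c + t
  orth : ∀ t ∈ T, ∀ c ∈ R, bil W X t c = 0
  mid : T ≤ W.gr X X.dim
  homog : R ≤ Submodule.span W.K {x | x ∈ R ∧ ∃ i, x ∈ W.gr X i}

namespace Dcmp

variable (h : Dcmp W X R T)

include h

theorem orth' {t : W.H X} (ht : t ∈ T) {c : W.H X} (hc : c ∈ R) : bil W X c t = 0 := by
  have h1 : Submodule.span W.K {x | x ∈ R ∧ ∃ i, x ∈ W.gr X i} ≤
      LinearMap.ker ((bil W X).flip t) := by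
    refine Submodule.span_le.2 ?_
    rintro x ⟨hxR, i, hi⟩
    rw [SetLike.mem_coe, LinearMap.mem_ker, LinearMap.flip_apply, bil_apply,
      W.comm hi (h.mid ht), map_smul, smul_eq_mul, ← bil_apply, h.orth t ht x hxR, mul_zero]
  exact LinearMap.mem_ker.1 (h1 (h.homog hc))

/-- the symmetry of the form on `T` -/
theorem symm {a b : W.H X} (ha : a ∈ T) (hb : b ∈ T) :
    bil W X a b = (-1 : W.K) ^ X.dim * bil W X b a := by
  rw [bil_apply, W.comm (h.mid ha) (h.mid hb), map_smul, smul_eq_mul, bil_apply]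
  congr 1
  rcases Nat.even_or_odd X.dim with h | h
  · rw [h.neg_one_pow, (h.mul_left _).neg_one_pow]
  · rw [h.neg_one_pow, (h.mul h).neg_one_pow]

theorem ndT (a : T) (ha : ∀ b, rform W X T a b = 0) : a = 0 := by
  apply Subtype.ext
  apply W.nondeg
  intro b
  obtain ⟨c, hc, t, ht, rfl⟩ := h.sum b
  rw [← bil_apply, map_add, h.orth _ a.2 c hc, zero_add]
  exact ha ⟨t, ht⟩

theorem ndR (a : R) (ha : ∀ b, rform W X R a b = 0) : a = 0 := by
  apply Subtype.ext
  apply W.nondeg
  intro b
  obtain ⟨c, hc, t, ht, rfl⟩ := h.sum b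
  rw [← bil_apply, map_add, h.orth' ht a.2, add_zero]
  exact ha ⟨c, hc⟩

theorem isCompl : IsCompl R T := by
  constructor
  · rw [Submodule.disjoint_def]
    intro x hx hx'
    apply W.nondeg
    intro b
    obtain ⟨c, hc, t, ht, rfl⟩ := h.sum b
    rw [← bil_apply, map_add, h.orth _ hx' c hc, h.orth' ht hx, add_zero]
  · rw [codisjoint_iff, eq_top_iff]
    intro a _
    obtain ⟨c, hc, t, ht, rfl⟩ := h.sum a
    exact Submodule.add_mem_sup hc ht

/-- a homogeneous basis -/
theorem exists_basis : ∃ (N : ℕ) (b : Module.Basis (Fin N) W.K R) (j : Fin N → ℕ),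
      ∀ i, (b i : W.H X) ∈ W.gr X (j i) := by
  classical
  obtain ⟨S, hSA, hSspan, hSli⟩ := exists_linearIndependent W.K {x | x ∈ R ∧ ∃ i, x ∈ W.gr X i}
  have hfin : S.Finite := hSli.setFinite
  have := hfin.fintype
  have h1 : ∀ i : S, ∃ j, (i : W.H X) ∈ W.gr X j := fun i => (hSA i.2).2
  choose j hj using h1
  have h2 : Submodule.span W.K (Set.range (Subtype.val : S → W.H X)) = R := by
    rw [Subtype.range_coe, hSspan]
    refine le_antisymm (Submodule.span_le.2 fun x hx => hx.1) h.homog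
  let b0 : Module.Basis S W.K (Submodule.span W.K (Set.range (Subtype.val : S → W.H X))) :=
    Module.Basis.span hSli
  let b1 := (b0.map (LinearEquiv.ofEq _ _ h2)).reindex (Fintype.equivFin S)
  refine ⟨Fintype.card S, b1, fun i => j ((Fintype.equivFin S).symm i), fun i => ?_⟩
  have h3 : (b1 i : W.H X) = ((Fintype.equivFin S).symm i : S) := by
    change (((b0.map (LinearEquiv.ofEq _ _ h2)).reindex (Fintype.equivFin S) i : R) :
      W.H X) = _
    rw [Module.Basis.reindex_apply, Module.Basis.map_apply, LinearEquiv.coe_ofEq_apply]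
    exact congrArg Subtype.val (Module.Basis.span_apply hSli _)
  rw [h3]
  exact hj _

end Dcmp

/-- A basis of the cohomology adapted to the decomposition, with the dual bases. -/
structure AB (W : WeilCohomology.{u, 0} ops) (X : 𝒱.Obj) (R T : Submodule W.K (W.H X)) where
  /-- the number of elements in `R` -/
  NC : ℕ
  /-- the number of elements in `T` -/
  NT : ℕ
  /-- the basis of `R` -/
  bC : Module.Basis (Fin NC) W.K R
  /-- the degrees -/
  jC : Fin NC → ℕ
  hom : ∀ i, (bC i : W.H X) ∈ W.gr X (jC i)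
  /-- the basis of `T` -/
  bT : Module.Basis (Fin NT) W.K T
  /-- the basis -/
  e : Module.Basis (Fin NC ⊕ Fin NT) W.K (W.H X)
  e_inl : ∀ i, e (Sum.inl i) = bC i
  e_inr : ∀ i, e (Sum.inr i) = bT i
  /-- the left dual basis of `R` -/
  uC : Module.Basis (Fin NC) W.K R
  /-- the right dual basis of `R` -/
  vC : Module.Basis (Fin NC) W.K R
  /-- the left dual basis of `T` -/
  uT : Module.Basis (Fin NT) W.K T
  uC_bC : ∀ i j, bil W X (uC i) (bC j) = if j = i then 1 else 0
  bC_vC : ∀ i j, bil W X (bC i) (vC j) = if i = j then 1 else 0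
  uT_bT : ∀ i j, bil W X (uT i) (bT j) = if j = i then 1 else 0

theorem exists_AB (h : Dcmp W X R T) : Nonempty (AB W X R T) := by
  obtain ⟨NC, bC, jC, hjC⟩ := h.exists_basis
  obtain ⟨uC, huC⟩ := exists_left (B := rform W X R) h.ndR bC
  obtain ⟨vC, hvC⟩ := exists_right (B := rform W X R) h.ndR bC
  let bT := Module.finBasis W.K T
  obtain ⟨uT, huT⟩ := exists_left (B := rform W X T) h.ndT bT
  exact ⟨{
    NC := NC
    NT := Module.finrank W.K T
    bC := bC
    jC := jC
    hom := hjC
    bT := bT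
    e := (bC.prod bT).map (Submodule.prodEquivOfIsCompl _ _ h.isCompl)
    e_inl := fun i => by
      rw [Module.Basis.map_apply, Module.Basis.prod_apply]
      simp
    e_inr := fun i => by
      rw [Module.Basis.map_apply, Module.Basis.prod_apply]
      simp
    uC := uC
    vC := vC
    uT := uT
    uC_bC := fun i j => huC i j
    bC_vC := fun i j => hvC i j
    uT_bT := fun i j => huT i j }⟩

/-- expansions in a basis and its dual -/
theorem expand_dual {S : Submodule W.K (W.H X)} {N : ℕ} {b v : Module.Basis (Fin N) W.K S}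
    (hbv : ∀ i j, bil W X (b i) (v j) = if i = j then 1 else 0) {x : W.H X} (hx : x ∈ S) :
    x = ∑ i, bil W X (b i) x • (v i : W.H X) := by
  have h1 := v.sum_repr ⟨x, hx⟩
  have h2 : x = ∑ i, v.repr ⟨x, hx⟩ i • (v i : W.H X) := by
    conv_lhs => rw [show x = ((⟨x, hx⟩ : S) : W.H X) from rfl, ← h1]
    rw [Submodule.coe_sum]
    rfl
  have h3 : ∀ i, bil W X (b i) x = v.repr ⟨x, hx⟩ i := by
    intro i
    conv_lhs => rw [h2]
    rw [map_sum, Finset.sum_eq_single i]
    · rw [map_smul, hbv, if_pos rfl, smul_eq_mul, mul_one]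
    · intro j _ hj
      rw [map_smul, hbv, if_neg (Ne.symm hj), smul_zero]
    · intro h
      exact absurd (Finset.mem_univ _) h
  rw [Finset.sum_congr rfl fun i _ => by rw [h3]]
  exact h2

/-- expansions in a basis and its dual -/
theorem expand_dual' {S : Submodule W.K (W.H X)} {N : ℕ} {b v : Module.Basis (Fin N) W.K S}
    (hbv : ∀ i j, bil W X (b i) (v j) = if i = j then 1 else 0) {x : W.H X} (hx : x ∈ S) :
    x = ∑ i, bil W X x (v i) • (b i : W.H X) := by
  have h1 := b.sum_repr ⟨x, hx⟩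
  have h2 : x = ∑ i, b.repr ⟨x, hx⟩ i • (b i : W.H X) := by
    conv_lhs => rw [show x = ((⟨x, hx⟩ : S) : W.H X) from rfl, ← h1]
    rw [Submodule.coe_sum]
    rfl
  have h3 : ∀ i, bil W X x (v i) = b.repr ⟨x, hx⟩ i := by
    intro i
    conv_lhs => rw [h2]
    rw [map_sum, LinearMap.sum_apply, Finset.sum_eq_single i]
    · rw [map_smul, LinearMap.smul_apply, hbv, if_pos rfl, smul_eq_mul, mul_one]
    · intro j _ hj
      rw [map_smul, LinearMap.smul_apply, hbv, if_neg hj, smul_zero]
    · intro h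
      exact absurd (Finset.mem_univ _) h
  rw [Finset.sum_congr rfl fun i _ => by rw [h3]]
  exact h2

namespace AB

variable (s : AB W X R T)

theorem duT : ∀ i j, bil W X (s.uT i) (s.bT j) = if i = j then 1 else 0 := fun i j => by
  rw [s.uT_bT]
  simp only [eq_comm]

/-- the dual basis -/
def es (i : Fin s.NC ⊕ Fin s.NT) : W.H X :=
  i.elim (fun i => (s.uC i : W.H X)) fun i => (s.uT i : W.H X)

theorem es_e (h : Dcmp W X R T) (i j : Fin s.NC ⊕ Fin s.NT) :
    bil W X (s.es i) (s.e j) = if j = i then 1 else 0 := by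
  rcases i with i | i <;> rcases j with j | j
  · rw [s.e_inl]
    refine (s.uC_bC i j).trans ?_
    simp
  · rw [s.e_inr]
    refine (h.orth' (s.bT j).2 (s.uC i).2).trans ?_
    simp
  · rw [s.e_inl]
    refine (h.orth _ (s.uT i).2 _ (s.bC j).2).trans ?_
    simp
  · rw [s.e_inr]
    refine (s.uT_bT i j).trans ?_
    simp

/-- the first part of the diagonal -/
def dC : W.H (X.prod X) := ∑ i, W.map (snd X X) (s.vC i) * W.map (fst X X) (s.bC i)

/-- the second part of the diagonal -/
def dT : W.H (X.prod X) := ∑ i, W.map (fst X X) (s.bT i) * W.map (snd X X) (s.uT i)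

/-- the class given by the Gram matrix of the dual classes -/
def dQ : W.H (X.prod X) :=
  ∑ a : Fin 2 → Fin s.NT, bil W X (s.uT (a 0)) (s.uT (a 1)) •
    (W.map (fst X X) (s.bT (a 0)) * W.map (snd X X) (s.bT (a 1)))

theorem dQ_eq (h : Dcmp W X R T) : s.dQ = (-1 : W.K) ^ X.dim • s.dT := by
  have h1 : s.dQ = ∑ i, ∑ j, bil W X (s.uT i) (s.uT j) •
      (W.map (fst X X) (s.bT i : W.H X) * W.map (snd X X) (s.bT j : W.H X)) := by
    have h2 := Fintype.sum_equiv (finTwoArrowEquiv (Fin s.NT))
      (fun a : Fin 2 → Fin s.NT => bil W X (s.uT (a 0)) (s.uT (a 1)) •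
        (W.map (fst X X) (s.bT (a 0) : W.H X) * W.map (snd X X) (s.bT (a 1) : W.H X)))
      (fun a => bil W X (s.uT a.1) (s.uT a.2) •
        (W.map (fst X X) (s.bT a.1 : W.H X) * W.map (snd X X) (s.bT a.2 : W.H X)))
      (fun a => rfl)
    rw [Fintype.sum_prod_type] at h2
    exact h2
  rw [h1, dT, Finset.smul_sum]
  refine Finset.sum_congr rfl fun i _ => ?_
  have h2 : (s.uT i : W.H X) = ∑ j, (-1 : W.K) ^ X.dim • (bil W X (s.uT i) (s.uT j) •
      (s.bT j : W.H X)) := by
    conv_lhs => rw [expand_dual s.duT (s.uT i).2]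
    refine Finset.sum_congr rfl fun j _ => ?_
    rw [h.symm (s.uT j).2 (s.uT i).2, mul_smul]
  conv_rhs => rw [h2]
  rw [map_sum, Finset.mul_sum, Finset.smul_sum]
  refine Finset.sum_congr rfl fun j _ => ?_
  have h3 : (-1 : W.K) ^ X.dim * (-1 : W.K) ^ X.dim = 1 := by
    rw [← mul_pow]
    norm_num
  rw [map_smul, map_smul, mul_smul_comm, mul_smul_comm, smul_smul, h3, one_smul]

theorem dT_gr (h : Dcmp W X R T) : s.dT ∈ W.gr (X.prod X) (2 * X.dim) := by
  rw [dT]
  refine Submodule.sum_mem _ fun a _ => ?_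
  rw [two_mul]
  exact W.mul_mem (W.map_mem _ (h.mid (s.bT _).2)) (W.map_mem _ (h.mid (s.uT _).2))

theorem dQ_gr (h : Dcmp W X R T) : s.dQ ∈ W.gr (X.prod X) (2 * X.dim) := by
  rw [s.dQ_eq h]
  exact Submodule.smul_mem _ _ (s.dT_gr h)

end AB

/-- traces of external products in the wrong order -/
theorem tr_swap (u a y : W.H X) :
    W.tr (X.prod X) (W.map (snd X X) u * (W.map (fst X X) a * W.map (snd X X) y)) =
      W.tr X a * W.tr X (u * y) := by
  refine gr_induction (W.isInternal X) (p := fun a => W.tr (X.prod X) (W.map (snd X X) u *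
    (W.map (fst X X) a * W.map (snd X X) y)) = W.tr X a * W.tr X (u * y)) ?_ ?_ a
  · intro i a ha
    refine gr_induction (W.isInternal X) (p := fun u => W.tr (X.prod X) (W.map (snd X X) u *
      (W.map (fst X X) a * W.map (snd X X) y)) = W.tr X a * W.tr X (u * y)) ?_ ?_ u
    · intro j u hu
      have h1 : W.map (snd X X) u * (W.map (fst X X) a * W.map (snd X X) y) =
          (-1 : W.K) ^ (j * i) • (W.map (fst X X) a * W.map (snd X X) (u * y)) := by
        rw [← mul_assoc, W.comm (W.map_mem _ hu) (W.map_mem _ ha), smul_mul_assoc, mul_assoc,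
          ← map_mul]
      rw [h1, map_smul, W.tr_prod, smul_eq_mul]
      by_cases hi : i = 2 * X.dim
      · have h2 : Even (j * i) := by
          rw [hi]
          exact ⟨j * X.dim, by ring⟩
        rw [h2.neg_one_pow, one_mul]
      · rw [W.tr_eq_zero ha hi]
        ring
    · intro u u' hu hu'
      rw [map_add, add_mul, map_add, hu, hu', add_mul, map_add]
      ring
  · intro a a' ha ha'
    rw [map_add, add_mul, mul_add, map_add, ha, ha', map_add]
    ring

/-- **The decomposition of the diagonal.** -/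
theorem diag_dec (h : Dcmp W X R T) (s : AB W X R T) : W.push (diag X) 1 = s.dC + s.dT := by
  apply W.tr_ext
  intro c
  refine W.kunneth_induction (p := fun c => W.tr (X.prod X) (W.push (diag X) 1 * c) =
    W.tr (X.prod X) ((s.dC + s.dT) * c)) ?_ ?_ c
  · intro a b ha hb
    rw [mul_add, mul_add, map_add, map_add, ha, hb]
  · intro i j x hx y hy
    rw [diag_pair, add_mul, map_add, AB.dC, AB.dT, Finset.sum_mul, Finset.sum_mul, map_sum,
      map_sum]
    have e0 : ∀ b u : W.H X, W.tr (X.prod X) (W.map (snd X X) u * W.map (fst X X) b *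
        (W.map (fst X X) x * W.map (snd X X) y)) = bil W X b x * bil W X u y := by
      intro b u
      rw [mul_assoc, ← mul_assoc (W.map (fst X X) b), ← map_mul, tr_swap]
      rfl
    have e2 : ∀ l, W.tr (X.prod X) (W.map (fst X X) (s.bT l : W.H X) *
        W.map (snd X X) (s.uT l : W.H X) * (W.map (fst X X) x * W.map (snd X X) y)) =
        (-1 : W.K) ^ X.dim * (bil W X (s.bT l) x * bil W X (s.uT l) y) := by
      intro l
      have h1 : W.map (fst X X) (s.bT l : W.H X) * W.map (snd X X) (s.uT l : W.H X) =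
          (-1 : W.K) ^ X.dim • (W.map (snd X X) (s.uT l : W.H X) *
            W.map (fst X X) (s.bT l : W.H X)) := by
        rw [W.comm (W.map_mem _ (h.mid (s.bT l).2)) (W.map_mem _ (h.mid (s.uT l).2))]
        congr 1
        rcases Nat.even_or_odd X.dim with h | h
        · rw [h.neg_one_pow, (h.mul_left _).neg_one_pow]
        · rw [h.neg_one_pow, (h.mul h).neg_one_pow]
      rw [h1, smul_mul_assoc, map_smul, e0, smul_eq_mul]
    rw [Finset.sum_congr rfl fun l _ => e0 _ _, Finset.sum_congr rfl fun l _ => e2 l,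
      ← Finset.mul_sum]
    obtain ⟨c, hc, t, ht, rfl⟩ := h.sum x
    have e3 : ∑ l, bil W X (s.bC l) (c + t) * bil W X (s.vC l) y = bil W X c y := by
      conv_rhs => rw [expand_dual s.bC_vC hc]
      rw [map_sum, LinearMap.sum_apply]
      refine Finset.sum_congr rfl fun l _ => ?_
      rw [map_add, h.orth' ht (s.bC l).2, add_zero, map_smul, LinearMap.smul_apply, smul_eq_mul]
    have e4 : (-1 : W.K) ^ X.dim * ∑ l, bil W X (s.bT l) (c + t) * bil W X (s.uT l) y =
        bil W X t y := by
      conv_rhs => rw [expand_dual' s.duT ht]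
      rw [map_sum, LinearMap.sum_apply, Finset.mul_sum]
      refine Finset.sum_congr rfl fun l _ => ?_
      rw [map_add, h.orth _ (s.bT l).2 c hc, zero_add, map_smul, LinearMap.smul_apply,
        smul_eq_mul, h.symm ht (s.bT l).2]
      ring
    rw [e3, e4, map_add, LinearMap.add_apply]

section act

variable {Y : 𝒱.Obj} {Γ : Type} [Group Γ] {χ : Γ →* W.Kˣ} {ρ : Γ →* (W.H X ≃ₐ[W.K] W.H X)}

/-- the canonical elements are semi-invariant -/
theorem dual_act (hG : IsGalois W χ X ρ) {S : Submodule W.K (W.H X)}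
    (hst : ∀ g, ∀ x ∈ S, ρ g x ∈ S) {N : ℕ} {b v : Module.Basis (Fin N) W.K S}
    (hbv : ∀ i j, bil W X (b i) (v j) = if i = j then 1 else 0) (g : Γ)
    (F F' : W.H X →ₗ[W.K] W.H Y) :
    ∑ i, F (ρ g (v i)) * F' (ρ g (b i)) =
      (χ g : W.K) ^ X.dim • ∑ i, F (v i) * F' (b i) := by
  have h1 : ∀ i, ρ g (v i : W.H X) = ∑ j, bil W X (b j) (ρ g (v i)) • (v j : W.H X) :=
    fun i => expand_dual hbv (hst g _ (v i).2)
  have h2 : ∀ j, ∑ i, bil W X (b j) (ρ g (v i)) • ρ g (b i : W.H X) =
      (χ g : W.K) ^ X.dim • (b j : W.H X) := by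
    intro j
    have h3 : ∀ i, bil W X (b j) (ρ g (v i)) =
        (χ g : W.K) ^ X.dim * bil W X (ρ g⁻¹ (b j)) (v i) := by
      intro i
      have h4 := bil_act hG g (ρ g⁻¹ (b j)) (v i)
      rwa [act_inv] at h4
    have h5 := expand_dual' hbv (hst g⁻¹ _ (b j).2)
    have h6 : (b j : W.H X) = ρ g (ρ g⁻¹ (b j)) := (act_inv ρ g _).symm
    conv_rhs => rw [h6, h5]
    rw [map_sum, Finset.smul_sum]
    refine Finset.sum_congr rfl fun i _ => ?_
    rw [h3, map_smul, smul_smul]
  calc ∑ i, F (ρ g (v i)) * F' (ρ g (b i))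
      = ∑ i, ∑ j, F (v j) * F' (bil W X (b j) (ρ g (v i)) • ρ g (b i : W.H X)) := by
        refine Finset.sum_congr rfl fun i _ => ?_
        conv_lhs => rw [h1 i]
        rw [map_sum, Finset.sum_mul]
        refine Finset.sum_congr rfl fun j _ => ?_
        rw [map_smul, map_smul, mul_smul_comm, smul_mul_assoc]
    _ = ∑ j, F (v j) * F' (∑ i, bil W X (b j) (ρ g (v i)) • ρ g (b i : W.H X)) := by
        rw [Finset.sum_comm]
        refine Finset.sum_congr rfl fun j _ => ?_
        rw [map_sum, Finset.mul_sum]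
    _ = _ := by
        rw [Finset.smul_sum]
        refine Finset.sum_congr rfl fun j _ => ?_
        rw [h2, map_smul, mul_smul_comm]

end act

end

end Pool.Agent.U233.AM
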