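import Pool.Agent.U233.AM.Semi
import Pool.Agent.U233.AH.Dec
import Pool.Agent.U233.PW.Mk

/-!
# Systems of functorial actions and classes of cycles
-/

set_option autoImplicit false
set_option linter.unusedSectionVars false

open CategoryTheory AlgebraicGeometry Finset

universe u

namespace Pool.Agent.U233.AM

open Module Pool.Agent.N179.GR Pool.Agent.U233.FG Pool.Agent.TH125.Gal Pool.Agent.U233.TF
open Pool.Agent.H914 Pool.Agent.H914.VarClass Pool.Agent.H914.VarClass.Obj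
  Pool.Agent.H914.WeilCohomology Pool.Agent.H281R3.HT Pool.Agent.W552
open Pool.Agent.U233.AH (Tt)

noncomputable section

variable {k : Type u} [Field k] {𝒱 : VarClass k} {ops : CycleOps 𝒱}
  {W : WeilCohomology.{u, 0} ops} {Γ : Type} [Group Γ]

theorem map_proj {X Y : 𝒱.Obj} (f : X ⟶ Y) (i : ℕ) (a : W.H Y) :
    proj (W.isInternal X) i (W.map f a) = W.map f (proj (W.isInternal Y) i a) := by
  refine gr_induction (W.isInternal Y) (p := fun a => proj (W.isInternal X) i (W.map f a) =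
    W.map f (proj (W.isInternal Y) i a)) ?_ ?_ a
  · intro j a ha
    by_cases hij : j = i
    · subst hij
      rw [proj_same _ ha, proj_same _ (W.map_mem f ha)]
    · rw [proj_ne _ ha hij, proj_ne _ (W.map_mem f ha) hij, map_zero]
  · intro a b ha hb
    rw [map_add, map_add, map_add, map_add, ha, hb]

theorem act_proj {B : 𝒱.Obj} {σ : W.H B ≃ₐ[W.K] W.H B} (h : ∀ i, ∀ b ∈ W.gr B i, σ b ∈ W.gr B i)
    (i : ℕ) (a : W.H B) :
    proj (W.isInternal B) i (σ a) = σ (proj (W.isInternal B) i a) := by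
  refine gr_induction (W.isInternal B) (p := fun a => proj (W.isInternal B) i (σ a) =
    σ (proj (W.isInternal B) i a)) ?_ ?_ a
  · intro j a ha
    by_cases hij : j = i
    · subst hij
      rw [proj_same _ ha, proj_same _ (h _ _ ha)]
    · rw [proj_ne _ ha hij, proj_ne _ (h _ _ ha) hij, map_zero]
  · intro a b ha hb
    rw [map_add, map_add, map_add, map_add, ha, hb]

theorem proj_mul {X : 𝒱.Obj} {i : ℕ} {a : W.H X} (ha : a ∈ W.gr X i) (l : ℕ) (x : W.H X) :
    proj (W.isInternal X) l (a * x) =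
      if i ≤ l then a * proj (W.isInternal X) (l - i) x else 0 := by
  refine gr_induction (W.isInternal X) (p := fun x => proj (W.isInternal X) l (a * x) =
      if i ≤ l then a * proj (W.isInternal X) (l - i) x else 0) ?_ ?_ x
  · intro j x hx
    have h1 : a * x ∈ W.gr X (i + j) := W.mul_mem ha hx
    by_cases hil : i ≤ l
    · rw [if_pos hil]
      by_cases hj : j = l - i
      · subst hj
        rw [proj_same _ hx]
        have h2 : i + (l - i) = l := by omega
        rw [h2] at h1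
        rw [proj_same _ h1]
      · rw [proj_ne _ hx hj, mul_zero, proj_ne _ h1 (by omega)]
    · rw [if_neg hil, proj_ne _ h1 (by omega)]
  · intro x y hx hy
    rw [mul_add, map_add, hx, hy]
    by_cases hil : i ≤ l
    · rw [if_pos hil, if_pos hil, if_pos hil, map_add, mul_add]
    · rw [if_neg hil, if_neg hil, if_neg hil, add_zero]

theorem gr_comm {X : 𝒱.Obj} {i : ℕ} {a : W.H X} (ha : a ∈ W.gr X (2 * i)) (b : W.H X) :
    a * b = b * a := by
  refine gr_induction (W.isInternal X) (p := fun b => a * b = b * a) ?_ ?_ b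
  · intro j b hb
    rw [W.comm ha hb, mul_assoc, (even_two_mul _).neg_one_pow, one_smul]
  · intro x y hx hy
    rw [mul_add, add_mul, hx, hy]

/-- functorial semisimple actions of `Γ` on the cohomology of all varieties -/
structure Sys (W : WeilCohomology.{u, 0} ops) (Γ : Type) [Group Γ] where
  χ : Γ →* W.Kˣ
  act : ∀ X : 𝒱.Obj, Γ →* (W.H X ≃ₐ[W.K] W.H X)
  gal : ∀ X, IsGalois W χ X (act X)
  nat : ∀ {X Y : 𝒱.Obj} (f : X ⟶ Y), Intertwines (W.map f) (act Y) (act X)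
  semi : ∀ X, SemiS (algR (act X))

/-- a class of semi-invariant cohomology classes which contains the algebraic classes -/
structure Cl (S : Sys W Γ) where
  C : ∀ X : 𝒱.Obj, ℕ → Set (W.H X)
  gr : ∀ {X : 𝒱.Obj} {j}, ∀ c ∈ C X j, c ∈ W.gr X (2 * j)
  tw : ∀ {X : 𝒱.Obj} {j}, ∀ c ∈ C X j, ∀ g, S.act X g c = (S.χ g : W.K) ^ j • c
  alg : ∀ {X : 𝒱.Obj} {j}, ∀ c ∈ algClasses W X j, c ∈ C X j
  mul : ∀ {X : 𝒱.Obj} {i j}, ∀ a ∈ C X i, ∀ b ∈ C X j, a * b ∈ C X (i + j)
  map : ∀ {X Y : 𝒱.Obj} (f : X ⟶ Y) {j}, ∀ c ∈ C Y j, W.map f c ∈ C X j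

variable {S : Sys W Γ} (C : Cl S)

/-- the combinations of the classes -/
def Cl.sp (X : 𝒱.Obj) : Submodule W.K (W.H X) := Submodule.span W.K {c | ∃ j, c ∈ C.C X j}

variable {C}

namespace Cl

theorem sub {X : 𝒱.Obj} {j : ℕ} {c : W.H X} (hc : c ∈ C.C X j) : c ∈ C.sp X :=
  Submodule.subset_span ⟨j, hc⟩

theorem sp_alg {X : 𝒱.Obj} {c : W.H X} (hc : c ∈ algSpan W X) : c ∈ C.sp X := by
  refine (Submodule.span_mono ?_) hc
  intro c hc
  obtain ⟨j, hj⟩ := Set.mem_iUnion.1 hc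
  exact ⟨j, C.alg c hj⟩

theorem sp_one {X : 𝒱.Obj} : (1 : W.H X) ∈ C.sp X := sp_alg algSpan_one

theorem sp_mul {X : 𝒱.Obj} {a b : W.H X} (ha : a ∈ C.sp X) (hb : b ∈ C.sp X) :
    a * b ∈ C.sp X := by
  induction ha using Submodule.span_induction with
  | mem a ha =>
    obtain ⟨i, hi⟩ := ha
    induction hb using Submodule.span_induction with
    | mem b hb =>
      obtain ⟨j, hj⟩ := hb
      exact sub (C.mul a hi b hj)
    | zero => rw [mul_zero]; exact Submodule.zero_mem _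
    | add x y _ _ hx hy => rw [mul_add]; exact Submodule.add_mem _ hx hy
    | smul q x _ hx => rw [mul_smul_comm]; exact Submodule.smul_mem _ _ hx
  | zero => rw [zero_mul]; exact Submodule.zero_mem _
  | add x y _ _ hx hy => rw [add_mul]; exact Submodule.add_mem _ hx hy
  | smul q x _ hx => rw [smul_mul_assoc]; exact Submodule.smul_mem _ _ hx

theorem sp_map {X Y : 𝒱.Obj} (f : X ⟶ Y) {a : W.H Y} (ha : a ∈ C.sp Y) : W.map f a ∈ C.sp X := by
  induction ha using Submodule.span_induction with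
  | mem a ha =>
    obtain ⟨i, hi⟩ := ha
    exact sub (C.map f a hi)
  | zero => rw [map_zero]; exact Submodule.zero_mem _
  | add x y _ _ hx hy => rw [map_add]; exact Submodule.add_mem _ hx hy
  | smul q x _ hx => rw [map_smul]; exact Submodule.smul_mem _ _ hx

variable (C)

/-- the products of classes in `C` and of pull-backs -/
def prs {E B : 𝒱.Obj} (π : E ⟶ B) : Set (W.H E) :=
  {x | ∃ j, ∃ a ∈ C.C E j, ∃ b, x = a * W.map π b}

variable {C}

theorem prs_mul {E B : 𝒱.Obj} {π : E ⟶ B} {x y : W.H E} (hx : x ∈ Submodule.span W.K (C.prs π))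
    (hy : y ∈ Submodule.span W.K (C.prs π)) : x * y ∈ Submodule.span W.K (C.prs π) := by
  induction hx using Submodule.span_induction with
  | mem a ha =>
    obtain ⟨i, a, ha, b, rfl⟩ := ha
    induction hy using Submodule.span_induction with
    | mem b hb =>
      obtain ⟨j, a', ha', b', rfl⟩ := hb
      refine Submodule.subset_span ⟨i + j, a * a', C.mul a ha a' ha', b * b', ?_⟩
      rw [map_mul, mul_assoc, mul_assoc]
      congr 1
      rw [← mul_assoc, ← mul_assoc, gr_comm (C.gr a' ha') (W.map π b)]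
    | zero => rw [mul_zero]; exact Submodule.zero_mem _
    | add x y _ _ hx hy => rw [mul_add]; exact Submodule.add_mem _ hx hy
    | smul q x _ hx => rw [mul_smul_comm]; exact Submodule.smul_mem _ _ hx
  | zero => rw [zero_mul]; exact Submodule.zero_mem _
  | add x y _ _ hx hy => rw [add_mul]; exact Submodule.add_mem _ hx hy
  | smul q x _ hx => rw [smul_mul_assoc]; exact Submodule.smul_mem _ _ hx

theorem prs_base {E B : 𝒱.Obj} {π : E ⟶ B} (b : W.H B) : W.map π b ∈ C.prs π :=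
  ⟨0, 1, C.alg _ alg_one, b, (one_mul _).symm⟩

theorem prs_cl {E B : 𝒱.Obj} {π : E ⟶ B} {j : ℕ} {a : W.H E} (ha : a ∈ C.C E j) : a ∈ C.prs π :=
  ⟨j, a, ha, 1, by rw [map_one, mul_one]⟩

variable (C)

/-- the algebra generated by the classes in `C` and by the pull-backs -/
def im {E B : 𝒱.Obj} (π : E ⟶ B) : Subalgebra W.K (W.H E) :=
  (Submodule.span W.K (C.prs π)).toSubalgebra
    (Submodule.subset_span ((map_one (W.map π)) ▸ prs_base (C := C) (π := π) 1))
    (fun _ _ hx hy => prs_mul hx hy)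

variable {C}

theorem mem_im {E B : 𝒱.Obj} {π : E ⟶ B} {x : W.H E} :
    x ∈ C.im π ↔ x ∈ Submodule.span W.K (C.prs π) := Iff.rfl

/-- the compatibility with pull-backs -/
theorem im_map {E B E' B' : 𝒱.Obj} {π : E ⟶ B} {π' : E' ⟶ B'} (f : E' ⟶ E) (g : B' ⟶ B)
    (h : f ≫ π = π' ≫ g) {x : W.H E} (hx : x ∈ C.im π) : W.map f x ∈ C.im π' := by
  rw [mem_im] at hx ⊢
  induction hx using Submodule.span_induction with
  | mem a ha =>
    obtain ⟨i, a, ha, b, rfl⟩ := ha
    refine Submodule.subset_span ⟨i, W.map f a, C.map f a ha, W.map g b, ?_⟩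
    rw [map_mul, ← W.map_comp, ← W.map_comp, h]
  | zero => rw [map_zero]; exact Submodule.zero_mem _
  | add x y _ _ hx hy => rw [map_add]; exact Submodule.add_mem _ hx hy
  | smul q x _ hx => rw [map_smul]; exact Submodule.smul_mem _ _ hx

end Cl

/-! ### the Tate classes -/

variable (S)

/-- the Tate classes -/
def Sys.T (X : 𝒱.Obj) (j : ℕ) : Set (W.H X) := Tt S.χ X (S.act X) j

theorem Sys.T_map {X Y : 𝒱.Obj} (f : X ⟶ Y) {j : ℕ} {b : W.H Y} (hb : b ∈ S.T Y j) :
    W.map f b ∈ S.T X j := by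
  obtain ⟨h1, Δ, hΔ, h2⟩ := hb
  refine ⟨W.map_mem f h1, Δ, hΔ, fun g hg => ?_⟩
  rw [S.nat f g, h2 g hg, map_smul]

variable {S}

/-- **Lifting of the Tate classes.** -/
theorem tw_lift {E B : 𝒱.Obj} {π : E ⟶ B} {F : Set (W.H E × ℕ)}
    (hF : ∀ x ∈ F, x.1 ∈ W.gr E (2 * x.2) ∧ ∀ g, S.act E g x.1 = (S.χ g : W.K) ^ x.2 • x.1)
    {j : ℕ} {c : W.H E} (hc : c ∈ S.T E j)
    (hc' : c ∈ Submodule.span W.K {y | ∃ x ∈ F, ∃ b, y = x.1 * W.map π b}) :
    c ∈ Submodule.span W.K {y | ∃ x ∈ F, ∃ j', ∃ b ∈ S.T B j', y = x.1 * W.map π b} := by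
  obtain ⟨hcj, Δ, hΔ, hg⟩ := hc
  let S' : Set ((W.H B →ₗ[W.K] W.H E) × (Γ → W.Kˣ)) :=
    {x | ∃ y ∈ F, x = ((LinearMap.mulLeft W.K y.1).comp (W.map π).toLinearMap,
        fun g => S.χ g ^ y.2)}
  have hS : ∀ x ∈ S', Tw (algR (S.act B)) (algR (S.act E)) x := by
    rintro _ ⟨y, hy, rfl⟩ g a
    change S.act E g (y.1 * W.map π a) =
      ((S.χ g ^ y.2 : W.Kˣ) : W.K) • (y.1 * W.map π (S.act B g a))
    rw [map_mul, (hF y hy).2 g, S.nat, smul_mul_assoc, Units.val_pow_eq_pow_val]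
  have h2 : c ∈ Submodule.span W.K {y | ∃ x ∈ S', ∃ a, y = x.1 a} := by
    refine (Submodule.span_mono ?_) hc'
    rintro _ ⟨x, hx, a, rfl⟩
    exact ⟨_, ⟨x, hx, rfl⟩, a, rfl⟩
  have h3 := lift_set (S.semi B) (S.semi E) (Δ := Δ) (lam := fun g => (S.χ g : W.K) ^ j) hS h2 hg
  have h4 : Submodule.span W.K {y | ∃ x ∈ S', ∃ a,
      (∀ g ∈ Δ, (x.2 g : W.K) • (algR (S.act B)) g a = (S.χ g : W.K) ^ j • a) ∧ y = x.1 a} ≤
      (Submodule.span W.K {y | ∃ x ∈ F, ∃ j', ∃ b ∈ S.T B j', y = x.1 * W.map π b}).comap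
        (proj (W.isInternal _) (2 * j)) := by
    refine Submodule.span_le.2 ?_
    rintro _ ⟨_, ⟨⟨m, i⟩, hm, rfl⟩, a, ha, rfl⟩
    rw [SetLike.mem_coe, Submodule.mem_comap]
    change proj (W.isInternal _) (2 * j) (m * W.map π a) ∈ _
    rw [proj_mul (hF _ hm).1]
    by_cases hij : 2 * i ≤ 2 * j
    · rw [if_pos hij, map_proj]
      refine Submodule.subset_span ⟨_, hm, j - i, _, ⟨?_, Δ, hΔ, fun g hgΔ => ?_⟩, rfl⟩
      · rw [show 2 * (j - i) = 2 * j - 2 * i by omega]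
        exact proj_mem _ _ _
      · have h5 := ha g hgΔ
        have h6 : (S.χ g : W.K) ^ i • S.act B g a = (S.χ g : W.K) ^ j • a := by
          rw [← Units.val_pow_eq_pow_val]
          exact h5
        have h7 : (S.χ g : W.K) ^ j = (S.χ g : W.K) ^ i * (S.χ g : W.K) ^ (j - i) := by
          rw [← pow_add]
          congr 1
          omega
        rw [h7, mul_smul] at h6
        have h8 : S.act B g a = (S.χ g : W.K) ^ (j - i) • a :=
          smul_right_injective _ (pow_ne_zero _ (Units.ne_zero (S.χ g))) h6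
        rw [← act_proj ((S.gal B).gr_mem g), h8, map_smul]
    · rw [if_neg hij]
      exact Submodule.zero_mem _
  have h5 := h4 h3
  rw [Submodule.mem_comap, proj_same _ hcj] at h5
  exact h5

/-- the Tate classes on `Y` become classes in `C` on `X` -/
def Cl.Pulls (C : Cl S) {X Y : 𝒱.Obj} (f : X ⟶ Y) : Prop :=
  ∀ j, ∀ b ∈ S.T Y j, W.map f b ∈ C.sp X

theorem Cl.Pulls.comp {X Y X₁ Y₁ : 𝒱.Obj} {f : X ⟶ Y} (h : C.Pulls f) (v : X₁ ⟶ X) (u : Y ⟶ Y₁) :
    C.Pulls (v ≫ f ≫ u) := by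
  intro j b hb
  rw [W.map_comp, W.map_comp]
  exact Cl.sp_map _ (h j _ (S.T_map u hb))

/-- the Tate classes in the algebra -/
theorem Cl.Pulls.im {E B : 𝒱.Obj} {π : E ⟶ B} (h : C.Pulls π) {j : ℕ} {c : W.H E}
    (hc : c ∈ S.T E j) (hc' : c ∈ C.im π) : c ∈ C.sp E := by
  have h1 := tw_lift (π := π) (F := {x : W.H E × ℕ | x.1 ∈ C.C E x.2})
    (fun x hx => ⟨C.gr _ hx, C.tw _ hx⟩) hc ((Submodule.span_mono (by
      rintro _ ⟨i, a, ha, b, rfl⟩
      exact ⟨(a, i), ha, b, rfl⟩)) (Cl.mem_im.1 hc'))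
  refine (Submodule.span_le.2 ?_) h1
  rintro _ ⟨x, hx, j', b, hb, rfl⟩
  exact Cl.sp_mul (Cl.sub hx) (h j' b hb)

end

end Pool.Agent.U233.AM
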