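import Pool.Agent.U233.AM.Cyc

/-!
# The Tate classes on products with powers, relative to another variety
-/

set_option autoImplicit false
set_option linter.unusedSectionVars false

open CategoryTheory AlgebraicGeometry Finset

universe u

namespace Pool.Agent.U233.AM

open Module Pool.Agent.N179.GR Pool.Agent.U233.FG Pool.Agent.TH125.Gal Pool.Agent.U233.TF
open Pool.Agent.H914 Pool.Agent.H914.VarClass Pool.Agent.H914.VarClass.Obj
  Pool.Agent.H914.WeilCohomology Pool.Agent.H281R3.HT Pool.Agent.W552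
open Pool.Agent.U233.AH (Tt)

noncomputable section

variable {k : Type u} [Field k] {𝒱 : VarClass k} {ops : CycleOps 𝒱}
  {W : WeilCohomology.{u, 0} ops} {Γ : Type} [Group Γ] {S : Sys W Γ} {C : Cl S}

/-- the data: a decomposition of the cohomology of `X`, a power of `X`, and a morphism from
`X ^ (n + 1) × Z` to `B` such that the classes in `R` and in `M` belong to the algebra generated by
the image of the pull-back and by the classes in `C` -/
structure Amb (C : Cl S) (P : Polarized 𝒱) (R T : Submodule W.K (W.H P.X)) (n : ℕ) (Z : 𝒱.Obj)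
    (M : Submodule W.K (W.H Z)) (B : 𝒱.Obj) (π : (nest ops n fun _ => P).X.prod Z ⟶ B) :
    Prop where
  dcmp : Dcmp W P.X R T
  stR : ∀ g, ∀ c ∈ R, S.act P.X g c ∈ R
  stT : ∀ g, ∀ t ∈ T, S.act P.X g t ∈ T
  all : AllSk R T (S.act P.X) (S.act Z)
  num : Even P.X.dim → n + 1 < finrank W.K T
  imR : ∀ p, ∀ c ∈ R, W.map (fst _ Z) (W.map (prj ops n (fun _ => P) p) c) ∈ C.im π
  imZ : ∀ z ∈ M, W.map (snd _ Z) z ∈ C.im π

section dec

variable {P : Polarized 𝒱} {n : ℕ} {Z : 𝒱.Obj} {R T : Submodule W.K (W.H P.X)}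
  {B : 𝒱.Obj} {π : (nest ops n fun _ => P).X.prod Z ⟶ B} {M : Submodule W.K (W.H Z)}

theorem Sys.pow : IsPowAct W P n Z (S.act P.X) (S.act Z)
    (S.act ((nest ops n fun _ => P).X.prod Z)) := fun g =>
  ⟨fun p a => by
      have h1 := S.nat (fst (nest ops n fun _ => P).X Z ≫ prj ops n (fun _ => P) p) g a
      rw [W.map_comp, W.map_comp] at h1
      exact h1, fun b => S.nat (snd (nest ops n fun _ => P).X Z) g b⟩

namespace Amb

variable (h : Amb C P R T n Z M B π)

include h

/-- the classes `Dl` are semi-invariant -/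
theorem dl_act {s : AB W P.X R T} (g : Γ) {i : ℕ} {m : W.H (nest ops n fun _ => P).X}
    (hm : Dl s (prj ops n fun _ => P) i m) :
    S.act _ g (W.map (fst _ Z) m) = (S.χ g : W.K) ^ i • W.map (fst _ Z) m := by
  induction hm with
  | one => rw [map_one, map_one, pow_zero, one_smul]
  | @pair i c p q _ ih =>
    rw [map_mul, map_mul, ih, pow_add, ← smul_mul_smul_comm]
    congr 1
    have h1 : W.map (fst _ Z) (W.map (Obj.lift (prj ops n (fun _ => P) p)
        (prj ops n (fun _ => P) q)) s.dQ) = (-1 : W.K) ^ P.X.dim • ∑ i,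
        (W.map (fst _ Z)).toLinearMap.comp (W.map (prj ops n (fun _ => P) p)).toLinearMap
          (s.bT i) *
        (W.map (fst _ Z)).toLinearMap.comp (W.map (prj ops n (fun _ => P) q)).toLinearMap
          (s.uT i) := by
      rw [s.dQ_eq h.dcmp, map_smul, map_smul, AB.dT, map_sum, map_sum]
      congr 1
      refine Finset.sum_congr rfl fun i _ => ?_
      rw [map_mul, ← W.map_comp, ← W.map_comp, Obj.lift_fst, Obj.lift_snd, map_mul]
      rfl
    rw [h1, map_smul, smul_comm, ← dual_act (S.gal P.X) h.stT s.duT g]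
    congr 1
    rw [map_sum]
    refine Finset.sum_congr rfl fun i _ => ?_
    rw [map_mul]
    exact congrArg₂ (· * ·) ((Sys.pow g).1 p _) ((Sys.pow g).1 q _)

/-- **The diagonal classes.** -/
theorem dl_alg (h1 : C.Pulls π) {s : AB W P.X R T} {i : ℕ}
    {m : W.H (nest ops n fun _ => P).X}
    (hm : Dl s (prj ops n fun _ => P) i m) : W.map (fst _ Z) m ∈ C.sp _ := by
  induction hm with
  | one => rw [map_one]; exact Cl.sp_one
  | @pair i c p q _ ih =>
    rw [map_mul]
    refine Cl.sp_mul ?_ ih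
    have hdT : s.dT = W.push (diag P.X) 1 - s.dC := by
      rw [diag_dec h.dcmp s, add_sub_cancel_left]
    have hpush : W.push (diag P.X) 1 ∈ algClasses W (P.X.prod P.X) P.X.dim :=
      alg_push (diag P.X) (i := P.X.dim) alg_one (by
        rw [dim_prod]
        omega)
    rw [s.dQ_eq h.dcmp, hdT, map_smul, map_smul, map_sub, map_sub]
    refine Submodule.smul_mem _ _ (Submodule.sub_mem _ (Cl.sp_alg (algSpan_map _ (algSpan_map _
      (alg_mem hpush)))) ?_)
    -- the first part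
    set x := W.map (fst _ Z) (W.map (Obj.lift (prj ops n (fun _ => P) p)
      (prj ops n (fun _ => P) q)) s.dC) with hx
    have hx1 : x = ∑ i, (W.map (fst _ Z)).toLinearMap.comp
          (W.map (prj ops n (fun _ => P) q)).toLinearMap (s.vC i) *
        (W.map (fst _ Z)).toLinearMap.comp (W.map (prj ops n (fun _ => P) p)).toLinearMap
          (s.bC i) := by
      rw [hx, AB.dC, map_sum, map_sum]
      refine Finset.sum_congr rfl fun i _ => ?_
      rw [map_mul, ← W.map_comp, ← W.map_comp, Obj.lift_fst, Obj.lift_snd, map_mul]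
      rfl
    have hx2 : x ∈ C.im π := by
      rw [hx1]
      exact Subalgebra.sum_mem _ fun i _ => Subalgebra.mul_mem _ (h.imR q _ (s.vC i).2)
        (h.imR p _ (s.bC i).2)
    have hx3 : x ∈ S.T ((nest ops n fun _ => P).X.prod Z) P.X.dim := by
      refine ⟨W.map_mem _ (W.map_mem _ ?_), ⊤, inferInstance, fun g _ => ?_⟩
      · have h2 : s.dC = W.push (diag P.X) 1 - s.dT := by
          rw [diag_dec h.dcmp s, add_sub_cancel_right]
        rw [h2]
        exact Submodule.sub_mem _ (alg_gr hpush) (s.dT_gr h.dcmp)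
      · rw [hx1, ← dual_act (S.gal P.X) h.stR s.bC_vC g, map_sum]
        refine Finset.sum_congr rfl fun i _ => ?_
        rw [map_mul]
        exact congrArg₂ (· * ·) ((Sys.pow g).1 q _) ((Sys.pow g).1 p _)
    exact h1.im hx3 hx2

/-- **The Tate conjecture relative to `B`.** -/
theorem tate (h1 : C.Pulls π) {j : ℕ} {c : W.H ((nest ops n fun _ => P).X.prod Z)}
    (hc : c ∈ S.T ((nest ops n fun _ => P).X.prod Z) j)
    (hcM : c ∈ Submodule.span W.K {x | ∃ a, ∃ z ∈ M, x = W.map (fst _ Z) a * W.map (snd _ Z) z}) :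
    c ∈ C.sp ((nest ops n fun _ => P).X.prod Z) := by
  obtain ⟨-, Δ, hΔ, hg⟩ := id hc
  obtain ⟨s⟩ := exists_AB h.dcmp
  obtain ⟨b, hb⟩ := exists_monoBasis (ops := ops) P s.e n
  have h2 := mem_Dl hb h.dcmp (S.gal P.X) Sys.pow h.all h.num (S := C.im π) h.imR
    h.imZ (c := c) ⟨Δ, hΔ, fun g hgΔ => ⟨_, hg g hgΔ⟩⟩ hcM
  let F : Set (W.H ((nest ops n fun _ => P).X.prod Z) × ℕ) :=
    {x | ∃ i j m a, Dl s (prj ops n fun _ => P) i m ∧ a ∈ C.C _ j ∧
      x = (W.map (fst _ Z) m * a, i + j)}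
  have hF : ∀ x ∈ F, x.1 ∈ W.gr _ (2 * x.2) ∧
      ∀ g, S.act _ g x.1 = (S.χ g : W.K) ^ x.2 • x.1 := by
    rintro _ ⟨i, j, m, a, hm, ha, rfl⟩
    refine ⟨?_, fun g => ?_⟩
    · rw [mul_add]
      exact W.mul_mem (W.map_mem _ (hm.gr h.dcmp)) (C.gr a ha)
    · rw [map_mul, h.dl_act g hm, C.tw a ha g, smul_mul_smul_comm, pow_add]
  have h3 : c ∈ Submodule.span W.K {y | ∃ x ∈ F, ∃ b, y = x.1 * W.map π b} := by
    refine (Submodule.span_le.2 ?_) h2
    rintro _ ⟨i, m, hm, w, hw, rfl⟩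
    rw [Cl.mem_im] at hw
    have h4 : Submodule.span W.K (C.prs π) ≤ (Submodule.span W.K {y | ∃ x ∈ F, ∃ b,
        y = x.1 * W.map π b}).comap (LinearMap.mulLeft W.K (W.map (fst _ Z) m)) := by
      refine Submodule.span_le.2 ?_
      rintro _ ⟨j, a, ha, b, rfl⟩
      exact Submodule.subset_span ⟨_, ⟨i, j, m, a, hm, ha, rfl⟩, b, (mul_assoc _ _ _).symm⟩
    exact h4 hw
  refine (Submodule.span_le.2 ?_) (tw_lift hF hc h3)
  rintro _ ⟨_, ⟨i, j, m, a, hm, ha, rfl⟩, j', b, hb, rfl⟩
  exact Cl.sp_mul (Cl.sp_mul (h.dl_alg h1 hm) (Cl.sub ha)) (h1 _ b hb)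

end Amb

end dec

end

end Pool.Agent.U233.AM
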