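import Pool.Agent.U233.PW.DefP0

/-!
# Sections: definitions
-/

open CategoryTheory TensorProduct

universe u

namespace Pool.Agent.U233.HG.St

open Pool.Agent.N179.DB.S (Cx)
open Pool.Agent.H914 Pool.Agent.H914.VarClass

noncomputable section

section K

variable {K : Type} [Field K] [Algebra K ℂ]

/-- The homomorphisms from the algebra `Y` to the algebra `X` (for example the pull-backs). -/
def HA.Mor (Y X : HA K) : Type := Y.A →ₐ[K] X.A

variable {Y X : HA K}

/-- The value of a homomorphism. -/
def HA.Mor.ev (f : HA.Mor Y X) (b : Y.A) : X.A := (show Y.A →ₐ[K] X.A from f) b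

/-- The linear combinations of the products `a f(b)`, where `a` is an algebraic class and `b` is
arbitrary: the subalgebra generated by the image of `f` and by the algebraic classes. -/
def HA.Mor.span (f : HA.Mor Y X) : Submodule K X.A :=
  Submodule.span K {c | ∃ j, ∃ a ∈ X.cl j, ∃ b, c = a * f.ev b}

/-- The algebra `X` is the sum of the subalgebra generated by the image of `f` and by the algebraic
classes, and of a copy of `V` in degree `n` (the image of an injective homomorphism of Hodge
structures). -/
def HA.Mor.Model (f : HA.Mor Y X) (n : ℕ) (V : HS K) : Prop :=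
  ∃ g : Map V X.str, IsHom g ∧ Function.Injective g.ev ∧ Inside (X.gr n) (X.image g) ∧
    ∀ x, ∃ c, IsIn f.span c ∧ ∃ s ∈ X.image g, x = c + s

/-- The element belongs to the subalgebra, with complex coefficients, generated by the set. -/
def InAlg {A : Type} [Ring A] [Algebra K A] (S : Set (Cx K A)) (x : Cx K A) : Prop :=
  (show ℂ ⊗[K] A from x) ∈ Algebra.adjoin ℂ (show Set (ℂ ⊗[K] A) from S)

/-- The image of `f` is contained in the subalgebra of `X` (with complex coefficients) which is
generated by the part with complex multiplication and by the images of the homomorphisms from the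
Hodge structures `U a`. -/
def HA.Mor.GenBy (f : HA.Mor Y X) {m : ℕ} (U : Fin m → HS K) : Prop :=
  ∀ b, InAlg (K := K) (A := X.A) (X.str.pures ∪ X.imgs U) (X.str.em 1 (f.ev b))

end K

variable {k : Type u} [Field k] {𝒱 : VarClass k} {ι : Type}

/-- A family of morphisms `f i : X i → W i` of varieties. -/
structure Secs (𝒱 : VarClass k) (ι : Type) where
  /-- the varieties -/
  X : ι → 𝒱.Obj
  /-- the ambient varieties -/
  W : ι → 𝒱.Obj
  /-- the morphisms -/
  f : ∀ i, X i ⟶ W i

/-- The product `X_(i_1) × (X_(i_2) × (⋯ × Z))`, where `L` is the list of the indices `i_a`, which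
may be repeated. -/
def prods (X : ι → 𝒱.Obj) (L : List ι) (Z : 𝒱.Obj) : 𝒱.Obj := L.foldr (fun i Y => (X i).prod Y) Z

/-- The number of the occurrences of `i` in the list. -/
def mult (i : ι) (L : List ι) : ℕ := @List.count ι (@instBEqOfDecidableEq ι (Classical.decEq ι)) i L

variable {ops : CycleOps 𝒱} (T : Theory ops)

/-- The pull-back in cohomology. -/
def pull {X Y : 𝒱.Obj} (f : X ⟶ Y) : HA.Mor (cohF T Y) (cohF T X) := T.W.map f

/-- For all `i`, the cohomology of `X i` is the sum of the subalgebra generated by the image of the
cohomology of `W i` and by the algebraic classes, and of a copy of `V i` in the middle degree. -/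
def Relative (V : ι → HS T.F) (S : Secs 𝒱 ι) : Prop :=
  ∀ i, (pull T (S.f i)).Model (S.X i).dim (V i)

/-- The indices in the list are not in `E`, and the index `i` occurs less than `dim V i` times if the
dimension of `X i` is even. -/
def Allowed (V : ι → HS T.F) (S : Secs 𝒱 ι) (E : Set ι) (L : List ι) : Prop :=
  ∀ i ∈ L, i ∉ E ∧ (Even (S.X i).dim → mult i L < (V i).dim)

end

end Pool.Agent.U233.HG.St
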