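import Pool.Agent.U233.PW.DefP
import Pool.Agent.U233.AM.DefS

/-!
# Sections of ambient varieties: definitions
-/

set_option autoImplicit false

open CategoryTheory AlgebraicGeometry TensorProduct

universe u

namespace Pool.Agent.U233.HG.St

open Pool.Agent.H914 Pool.Agent.H914.VarClass Pool.Agent.H914.VarClass.Obj

noncomputable section

/-- The Hodge classes of `Y` become algebraic in `X`. -/
def HA.Mor.HC {K : Type} [Field K] [Algebra K ℂ] {Y X : HA K} (f : HA.Mor Y X) : Prop := ∀ j, ∀ c ∈ Y.hodgeDeg j, f.ev c ∈ X.cl j

variable {k : Type u} [Field k] {𝒱 : VarClass k} {ι : Type}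

/-- The morphism `g` is the product `f i_1 × (f i_2 × (⋯ × 𝟙))` from the product of the `X i` and of
`Z` to the product of the `W i` and of `Z`: it commutes with the projections. -/
inductive Secs.IsRes (S : Secs 𝒱 ι) (Z : 𝒱.Obj) :
    (L : List ι) → (prods S.X L Z ⟶ prods S.W L Z) → Prop
  | nil : S.IsRes Z [] (𝟙 Z)
  | cons {i L h g} : S.IsRes Z L h →
      CommSq g (fst (S.X i) (prods S.X L Z)) (fst (S.W i) (prods S.W L Z)) (S.f i) →
      CommSq g (snd (S.X i) (prods S.X L Z)) (snd (S.W i) (prods S.W L Z)) h →
      S.IsRes Z (i :: L) g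

variable {ops : CycleOps 𝒱} (T : Theory ops)

/-- The Hodge conjecture for the product of the `X i` and of `Z` holds if and only if the Hodge
classes on the product of the `W i` and of `Z` become algebraic; in particular if the Hodge
conjecture holds for the product of the `W i` and of `Z`. -/
structure Descends (S : Secs 𝒱 ι) (L : List ι) (Z : 𝒱.Obj) : Prop where
  conjecture : (cohF T (prods S.W L Z)).HC → (cohF T (prods S.X L Z)).HC
  iff : ∃ g, S.IsRes Z L g ∧ ((cohF T (prods S.X L Z)).HC ↔ (pull T g).HC)

/-- The theorem `Descends` holds for the lists without exceptional indices, where `E U` is the set of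
the exceptional indices with respect to the Hodge structure `U`, and the cohomology of `Z` and the
classes which come from the `W i` are generated by the `U a`. -/
def Descent (V : ι → HS T.F) (E : HS T.F → Set ι) (S : Secs 𝒱 ι) : Prop :=
  ∀ (m : ℕ) (U : Fin m → HS T.F) (Z : 𝒱.Obj) (L : List ι), (cohF T Z).GenBy U →
    (∀ i ∈ L, (pull T (S.f i)).GenBy U) → Allowed T V S (⋃ a, E (U a)) L → Descends T S L Z

/-- The Hodge conjecture for the product of the `X i` and of `Z`, if the product of the `W i` and of
`Z` has dimension at most `3` and if the indices are not exceptional with respect to the cohomology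
of `Z` and of the `W j`. -/
def Low (V : ι → HS T.F) (E : HS T.F → Set ι) (S : Secs 𝒱 ι) : Prop :=
  ∀ (Z : 𝒱.Obj) (L : List ι), (prods S.W L Z).dim ≤ 3 → Allowed T V S (E (cohF T Z).str) L →
    (∀ i ∈ L, ∀ j ∈ L, i ∉ E (cohF T (S.W j)).str) → (cohF T (prods S.X L Z)).HC

/-- An index `i` is not exceptional with respect to the cohomology of a variety of dimension smaller
than `d i` if `V i` is big in comparison with the sum of the Betti numbers (for example, if `d i` is
odd). -/
def Avoid (V : ι → HS T.F) (d : ι → ℕ) (E : HS T.F → Set ι) : Prop :=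
  ∀ Z : 𝒱.Obj, (cohF T Z).Avoids Z.dim V d E

end

end Pool.Agent.U233.HG.St
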