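import Pool.Agent.U233.AM.DefS

/-!
# Sections and absolutely Hodge classes: definitions
-/

open CategoryTheory

universe u

namespace Pool.Agent.U233.HG.St

open Pool.Agent.H914

noncomputable section

/-- A ring. -/
structure Rg where
  /-- the elements -/
  A : Type
  [ring : Ring A]

attribute [instance] Rg.ring

/-- The homomorphisms of rings. -/
def Rg.Hom (E F : Rg) : Type := E.A →+* F.A

/-- The value of a homomorphism. -/
def Rg.Hom.ev {E F : Rg} (f : E.Hom F) (x : E.A) : F.A := (show E.A →+* F.A from f) x

/-- The element commutes with all elements. -/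
def Rg.Central (E : Rg) (v : E.A) : Prop := ∀ x, v * x = x * v

section K

variable {K : Type} [Field K] [Algebra K ℂ]

/-- The ring homomorphisms from the cohomology algebra `M` to the ring `E`. -/
def ToRg (M : HA K) (E : Rg) : Type := M.A →+* E.A

/-- The value of a homomorphism. -/
def ToRg.ev {M : HA K} {E : Rg} (f : ToRg M E) (x : M.A) : E.A := (show M.A →+* E.A from f) x

/-- The element `v ^ j f(x)`. -/
def ToRg.tw {M : HA K} {E : Rg} (f : ToRg M E) (v : E.A) (j : ℕ) (x : M.A) : E.A := v ^ j * f.ev x

/-- The structure is polarisable and only of the types `(1, 0)` and `(0, 1)`: for example the first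
cohomology of an abelian variety. -/
structure HS.Abelian (U : HS K) : Prop where
  polarisable : U.Polarisable
  types : ∀ p q : ℤ, U.hodgeNum p q ≠ 0 → (p = 1 ∧ q = 0) ∨ (p = 0 ∧ q = 1)

/-- The sets `E U` of the exceptional indices are finite (`Few`), and `E U` does not contain an index
`i` which satisfies one of the conditions `ByLevel` and `BySize` for `U`; or if `U` is of abelian type,
`d i ≥ 2` and `V i` is big in comparison with `U` (for example, if `d i ≥ 3` is odd). -/
structure AbsExceptions {ι : Type} (V : ι → HS K) (d : ι → ℕ) (E : HS K → Set ι) : Prop where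
  few : Few V E
  level : ∀ U i, ByLevel (d i) (V i) U → i ∉ E U
  size : ∀ U i, BySize (V i) U → i ∉ E U
  abelian : ∀ U i, U.Abelian → 2 ≤ d i → Big (d i) (V i) U.dim → i ∉ E U

end K

variable {k : Type u} [Field k] {𝒱 : VarClass k} {ι : Type} {ops : CycleOps 𝒱}

/-- The class of the cycle. -/
def Theory.ccl (T : Theory ops) {X : 𝒱.Obj} (z : X.Cycles) : (cohF T X).A := clsW T.W z

/-- Let `T τ`, for `τ ∈ J`, be the Hodge theories of the varieties over the algebraically closed field
`k` which are given by embeddings `τ : k → ℂ`. This structure contains a ring `B X` in which the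
classes of the varieties `τX` are compared: the product of `H_dR(X / k) ⊗ Ω` and of `H_et(X, 𝔸_f)`,
where `Ω` is the tensor product over `k` of copies of `ℂ`, for all `τ`. It contains the pull-backs
and the comparison homomorphisms `i τ` from `H(τX, ℚ)`. The element `u τ` is the generator `2 π i` of
`ℚ(1)`, for the embedding `τ`. So the image of a class in `H^(2j)(τX, ℚ(j))` is `(u τ) ^ j (i τ)(c)`;
for the class of an algebraic cycle it does not depend on `τ`. -/
structure Comparison {J : Type} (T : J → Theory ops) where
  /-- the ring for the comparison -/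
  B : 𝒱.Obj → Rg
  /-- the pull-backs -/
  map : ∀ {X Y : 𝒱.Obj}, (X ⟶ Y) → (B Y).Hom (B X)
  /-- the comparison homomorphisms -/
  i : ∀ τ X, ToRg (cohF (T τ) X) (B X)
  nat : ∀ τ (X Y : 𝒱.Obj) (f : X ⟶ Y) a, (i τ X).ev ((pull (T τ) f).ev a) = (map f).ev ((i τ Y).ev a)
  /-- the generators of `ℚ(1)` -/
  u : J → ∀ X, (B X).A
  central : ∀ τ X, (B X).Central (u τ X)
  natu : ∀ τ (X Y : 𝒱.Obj) (f : X ⟶ Y), (map f).ev (u τ Y) = u τ X
  cyc : ∀ σ τ (X : 𝒱.Obj) j z, X.IsCyc j z →
    (i σ X).tw (u σ X) j ((T σ).ccl z) = (i τ X).tw (u τ X) j ((T τ).ccl z)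

variable {J : Type} {T : J → Theory ops} (κ : Comparison T) (σ : J)

/-- All Hodge classes on `σX` are absolutely Hodge: for all `τ` their images under the comparison are
images of Hodge classes on `τX`. -/
def HodgeIsAbs (X : 𝒱.Obj) : Prop := ∀ j, ∀ c ∈ (cohF (T σ) X).hodgeDeg j, ∀ τ,
  ∃ c' ∈ (cohF (T τ) X).hodgeDeg j, (κ.i σ X).tw (κ.u σ X) j c = (κ.i τ X).tw (κ.u τ X) j c'

/-- If all Hodge classes on the product of the `W i` and of `Z` are absolutely Hodge, then all Hodge
classes on the product of the `X i` and of `Z` are absolutely Hodge. This holds for the lists without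
exceptional indices, where `E U` is the set of the exceptional indices with respect to the Hodge
structure `U`, and the cohomology of `Z` and the classes which come from the `W i` are generated by
the `U a`. -/
def AbsDescent (V : ι → HS (T σ).F) (E : HS (T σ).F → Set ι) (S : Secs 𝒱 ι) : Prop :=
  ∀ (m : ℕ) (U : Fin m → HS (T σ).F) (Z : 𝒱.Obj) (L : List ι), (cohF (T σ) Z).GenBy U →
    (∀ i ∈ L, (pull (T σ) (S.f i)).GenBy U) → Allowed (T σ) V S (⋃ a, E (U a)) L →
    HodgeIsAbs κ σ (prods S.W L Z) → HodgeIsAbs κ σ (prods S.X L Z)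

end

end Pool.Agent.U233.HG.St
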