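import Pool.Agent.U233.AM.Base

/-!
# Invariant classes on products with powers, relative version
-/

set_option autoImplicit false
set_option linter.unusedSectionVars false

open CategoryTheory AlgebraicGeometry Finset

universe u

namespace Pool.Agent.U233.AM

open Module Pool.Agent.N179.GR Pool.Agent.U233.FG Pool.Agent.TH125.Gal Pool.Agent.U233.TF
open Pool.Agent.H914 Pool.Agent.H914.VarClass Pool.Agent.H914.VarClass.Obj
  Pool.Agent.H914.WeilCohomology Pool.Agent.H281R3.HT Pool.Agent.W552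

noncomputable section

variable {k : Type u} [Field k] {𝒱 : VarClass k} {ops : CycleOps 𝒱}
  {W : WeilCohomology.{u, 0} ops} {Γ : Type} [Group Γ]

section dl

variable {X Y : 𝒱.Obj} {R T : Submodule W.K (W.H X)}

/-- products of diagonal classes on pairs of factors -/
inductive Dl (s : AB W X R T) {N : ℕ} (π : Fin N → (Y ⟶ X)) : ℕ → W.H Y → Prop
  | one : Dl s π 0 1
  | pair {i c p q} : Dl s π i c → Dl s π (X.dim + i) (W.map (Obj.lift (π p) (π q)) s.dQ * c)

variable {s : AB W X R T} {N : ℕ} {π : Fin N → (Y ⟶ X)}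

theorem Dl.gr (h : Dcmp W X R T) {i : ℕ} {c : W.H Y} (hc : Dl s π i c) :
    c ∈ W.gr Y (2 * i) := by
  induction hc with
  | one => exact W.one_mem Y
  | pair _ ih =>
    rw [mul_add]
    exact W.mul_mem (W.map_mem _ (s.dQ_gr h)) ih

theorem dl_list {m : ℕ} (p q : Fin m → Fin N) (L : List (Fin m)) : ∃ i, Dl s π i
    (L.map fun l => W.map (Obj.lift (π (p l)) (π (q l))) s.dQ).prod := by
  induction L with
  | nil => exact ⟨0, Dl.one⟩
  | cons l L ih =>
    obtain ⟨i, hi⟩ := ih
    rw [List.map_cons, List.prod_cons]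
    exact ⟨_, Dl.pair hi⟩

/-- the degrees of the basis -/
def AB.dg (s : AB W X R T) (i : Fin s.NC ⊕ Fin s.NT) : ℕ := i.elim (fun i => s.jC i) fun _ => X.dim

theorem AB.e_gr (h : Dcmp W X R T) (s : AB W X R T) (i : Fin s.NC ⊕ Fin s.NT) :
    s.e i ∈ W.gr X (s.dg i) := by
  rcases i with i | i
  · rw [s.e_inl]
    exact s.hom i
  · rw [s.e_inr]
    exact h.mid (s.bT i).2

/-- **The sums over the free positions.** -/
theorem dl_sum (h : Dcmp W X R T) {c : Fin N → Option (Fin s.NC)} {m : ℕ}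
    (e : Fin m × Fin 2 ≃ Free c) : ∃ (ε : ℤ) (i : ℕ) (x : W.H Y),
      Dl s π i x ∧ ∑ r : Free c → Fin s.NT,
        (∏ l, bil W X (s.uT (r (e (l, 0)))) (s.uT (r (e (l, 1))))) •
        mono π (fun p => s.e (comb c r p)) = (ε : W.K) • (x *
          ((fixList c).map fun p => (c p).elim 1 fun i => W.map (π p) (s.bC i : W.H X)).prod) := by
  obtain ⟨ε, hε⟩ := sum_pattern (K := W.K) (E := fun p i => W.map (π p) (s.e i)) (dg := s.dg)
    (d := X.dim) (fun _ => rfl) (fun p q _ i j => W.comm (W.map_mem _ (s.e_gr h i))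
      (W.map_mem _ (s.e_gr h j))) e (fun i j => bil W X (s.uT i) (s.uT j))
  obtain ⟨i, hi⟩ := dl_list (s := s) (π := π) (fun l => (e (l, 0)).1) (fun l => (e (l, 1)).1)
    (List.finRange m)
  refine ⟨ε, i, _, hi, hε.trans ?_⟩
  congr 2
  · rw [List.ofFn_eq_map]
    congr 2
    funext l
    rw [AB.dQ, map_sum]
    refine Finset.sum_congr rfl fun a _ => ?_
    rw [map_smul, map_mul, ← W.map_comp, ← W.map_comp, Obj.lift_fst, Obj.lift_snd, s.e_inr,
      s.e_inr]
  · congr 2
    funext p
    cases c p with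
    | none => rfl
    | some l =>
      change W.map (π p) (s.e (Sum.inl l)) = W.map (π p) (s.bC l : W.H X)
      rw [s.e_inl]

end dl

section

variable {P : Polarized 𝒱} {n : ℕ} {Z : 𝒱.Obj} {R T : Submodule W.K (W.H P.X)} {s : AB W P.X R T}
  {b : Module.Basis (Fin (n + 1) → Fin s.NC ⊕ Fin s.NT) W.K (W.H (nest ops n fun _ => P).X)}
  (hb : ∀ r, b r = mono (prj ops n fun _ => P) fun p => s.e (r p))
  (hD : Dcmp W P.X R T)

include hb hD in
/-- the coordinates -/
theorem coord_eq (c : W.H ((nest ops n fun _ => P).X.prod Z))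
    (r : Fin (n + 1) → Fin s.NC ⊕ Fin s.NT) :
    ctr (b.coord r) c = hml s.e b c fun p => s.es (r p) := by
  rw [hml_eq hb]
  congr 2
  refine b.ext fun r' => ?_
  rw [Module.Basis.coord_apply, Module.Basis.repr_self]
  conv_rhs => rw [hb r', phi_mono hb]
  by_cases h : r' = r
  · subst h
    rw [Finsupp.single_eq_same]
    symm
    refine Finset.prod_eq_one fun p _ => ?_
    rw [s.es_e hD, if_pos rfl]
  · rw [Finsupp.single_eq_of_ne (Ne.symm h)]
    obtain ⟨p, hp⟩ := Function.ne_iff.1 h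
    symm
    refine Finset.prod_eq_zero (Finset.mem_univ p) ?_
    rw [s.es_e hD, if_neg hp]

/-- the vectors at the fixed positions -/
def fixv (s : AB W P.X R T) (c₀ : Fin (n + 1) → Option (Fin s.NC))
    (a : {a // ¬ c₀ a = none}) : W.H P.X := (c₀ a.1).elim 0 fun i => (s.uC i : W.H P.X)

theorem fixv_some {s : AB W P.X R T} {c₀ : Fin (n + 1) → Option (Fin s.NC)} {p : Fin (n + 1)}
    {i : Fin s.NC} (h : c₀ p = some i) (h' : ¬ c₀ p = none) : fixv s c₀ ⟨p, h'⟩ = s.uC i := by
  rw [fixv, h]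
  rfl

/-- the multilinear map on `T` at the free positions -/
def hS (s : AB W P.X R T)
    (b : Module.Basis (Fin (n + 1) → Fin s.NC ⊕ Fin s.NT) W.K (W.H (nest ops n fun _ => P).X))
    (c : W.H ((nest ops n fun _ => P).X.prod Z)) (c₀ : Fin (n + 1) → Option (Fin s.NC)) :
    MultilinearMap W.K (fun _ : Free c₀ => T) (W.H Z) :=
  ((hml s.e b c).domDomRestrict (fun p => c₀ p = none) (fixv s c₀)).compLinearMap
    fun _ => T.subtype

theorem hS_apply (c : W.H ((nest ops n fun _ => P).X.prod Z))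
    (c₀ : Fin (n + 1) → Option (Fin s.NC)) (v : Free c₀ → T) :
    hS s b c c₀ v = hml s.e b c
      fun p => if h : c₀ p = none then (v ⟨p, h⟩ : W.H P.X) else fixv s c₀ ⟨p, h⟩ := rfl

theorem hS_comb (c : W.H ((nest ops n fun _ => P).X.prod Z))
    (c₀ : Fin (n + 1) → Option (Fin s.NC)) (r : Free c₀ → Fin s.NT) :
    hS s b c c₀ (fun j => s.uT (r j)) = hml s.e b c fun p => s.es (comb c₀ r p) := by
  rw [hS_apply]
  congr 1
  funext p
  by_cases h : c₀ p = none
  · rw [dif_pos h, comb_none r ⟨p, h⟩]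
    rfl
  · obtain ⟨i, hi⟩ := Option.ne_none_iff_exists'.1 h
    rw [dif_neg h, comb_some r hi, fixv_some hi]
    rfl

variable {χ : Γ →* W.Kˣ}
  {ρ : Γ →* (W.H P.X ≃ₐ[W.K] W.H P.X)} {τ : Γ →* (W.H Z ≃ₐ[W.K] W.H Z)}
  {υ : Γ →* (W.H ((nest ops n fun _ => P).X.prod Z) ≃ₐ[W.K]
    W.H ((nest ops n fun _ => P).X.prod Z))}

/-- all skew operators on `T` lift to derivations which kill `R` and `Z` -/
def AllSk (R T : Submodule W.K (W.H P.X)) (ρ : Γ →* (W.H P.X ≃ₐ[W.K] W.H P.X))
    (τ : Γ →* (W.H Z ≃ₐ[W.K] W.H Z)) : Prop :=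
  ∀ X ∈ TF.skew (rform W P.X T), ∃ D : Der W.K Γ, InDer 1 D ∧
    D.Θ (full _ (algR τ)) = 0 ∧ (∀ c ∈ R, D.Θ (full _ (algR ρ)) c = 0) ∧
    ∀ t : T, D.Θ (full _ (algR ρ)) (t : W.H P.X) = (X t : W.H P.X)

include hb in
/-- the invariance of the coordinates at the free positions -/
theorem free_inv (hG : IsGalois W χ P.X ρ) (hP : IsPowAct W P n Z ρ τ υ)
    (hall : AllSk R T ρ τ) {c : W.H ((nest ops n fun _ => P).X.prod Z)}
    (hc : (full _ (algR υ)).Eig c) (c₀ : Fin (n + 1) → Option (Fin s.NC))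
    {X : Module.End W.K T}
    (hX : X ∈ TF.skew (rform W P.X T)) (r : Free c₀ → Fin s.NT) :
    ∑ j : Free c₀, hS s b c c₀ (Function.update (fun j => s.uT (r j)) j (X (s.uT (r j)))) = 0 := by
  classical
  obtain ⟨D, hD, hDZ, hDR, hDX⟩ := hall X hX
  have h1 := hml_der hb hP (bil_skew hG hD) c fun p => s.es (comb c₀ r p)
  have h2 : D.Θ (full _ (algR υ)) c = 0 := hD.kill hc
  have h3 : hml s.e b (D.Θ (full _ (algR υ)) c) (fun p => s.es (comb c₀ r p)) = 0 := by
    rw [h2]
    refine (hml_eq hb _ _).trans ?_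
    exact map_zero _
  have h4 : D.Θ (full _ (algR τ)) (hml s.e b c fun p => s.es (comb c₀ r p)) = 0 := by
    rw [hDZ]
    rfl
  rw [h3, h4, add_zero] at h1
  rw [← h1]
  -- the fixed positions
  have h5 : ∀ p, c₀ p ≠ none → hml s.e b c (Function.update (fun p => s.es (comb c₀ r p)) p
      (D.Θ (full _ (algR ρ)) (s.es (comb c₀ r p)))) = 0 := by
    intro p hp
    obtain ⟨i, hi⟩ := Option.ne_none_iff_exists'.1 hp
    have h6 : D.Θ (full _ (algR ρ)) (s.es (comb c₀ r p)) = 0 := by
      rw [comb_some r hi]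
      exact hDR _ (s.uC i).2
    rw [h6]
    exact (hml s.e b c).map_update_zero _ p
  have h6 : ∀ j : Free c₀, hS s b c c₀ (Function.update (fun j => s.uT (r j)) j
      (X (s.uT (r j)))) = hml s.e b c (Function.update (fun p => s.es (comb c₀ r p)) j.1
        (D.Θ (full _ (algR ρ)) (s.es (comb c₀ r j.1)))) := by
    intro j
    rw [hS_apply]
    congr 1
    funext p
    by_cases hp : p = j.1
    · subst hp
      rw [Function.update_self, dif_pos j.2, Function.update_self, comb_none r j]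
      exact (hDX (s.uT (r j))).symm
    · rw [Function.update_of_ne hp]
      by_cases h : c₀ p = none
      · rw [dif_pos h, comb_none r ⟨p, h⟩, Function.update_of_ne fun h' => hp (congrArg (·.1) h')]
        rfl
      · obtain ⟨i, hi⟩ := Option.ne_none_iff_exists'.1 h
        rw [dif_neg h, comb_some r hi, fixv_some hi]
        rfl
  rw [Finset.sum_congr rfl fun j _ => h6 j]
  symm
  rw [← Finset.sum_filter_add_sum_filter_not univ (fun p => c₀ p = none)]
  rw [Finset.sum_eq_zero (s := univ.filter fun p => ¬ c₀ p = none) fun p hp =>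
    h5 p (Finset.mem_filter.1 hp).2, add_zero]
  exact Finset.sum_subtype (univ.filter fun p => c₀ p = none) (fun p => by simp) fun p =>
    hml s.e b c (Function.update (fun p => s.es (comb c₀ r p)) p
      (D.Θ (full _ (algR ρ)) (s.es (comb c₀ r p))))

include hb hD in
/-- **The coordinates at the free positions.** -/
theorem gen_free (hG : IsGalois W χ P.X ρ) (hP : IsPowAct W P n Z ρ τ υ) (hall : AllSk R T ρ τ)
    (hK : Even P.X.dim → n + 1 < Module.finrank W.K T)
    {c : W.H ((nest ops n fun _ => P).X.prod Z)} (hc : (full _ (algR υ)).Eig c)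
    (c₀ : Fin (n + 1) → Option (Fin s.NC)) :
    (fun r : Free c₀ → Fin s.NT => hml s.e b c fun p => s.es (comb c₀ r p)) ∈
      TH125.Nod.Gen (fun _ : Fin s.NT => ()) (Matrix.of fun i j => bil W P.X (s.uT i) (s.uT j))
        (fun _ : Free c₀ => ()) := by
  classical
  set B := rform W P.X T with hB
  have hs : ((-1 : ℤ) ^ P.X.dim = 1 ∨ (-1 : ℤ) ^ P.X.dim = -1) := neg_one_pow_eq_or ℤ _
  have hsy : ∀ x y, B x y = (((-1 : ℤ) ^ P.X.dim : ℤ) : W.K) * B y x := fun a b => by
    rw [hB, rform_apply, rform_apply, hD.symm a.2 b.2]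
    push_cast
    rfl
  have hsq : (((-1 : ℤ) ^ P.X.dim : ℤ) : W.K) * (((-1 : ℤ) ^ P.X.dim : ℤ) : W.K) = 1 := by
    rcases hs with h | h <;> rw [h] <;> norm_num
  have hnd : ∀ x, (∀ y, B x y = 0) → x = 0 := hD.ndT
  -- the inverse of the Gram matrix
  let t := s.uT
  obtain ⟨v, hv⟩ := exists_right (B := B) hnd t
  obtain ⟨Q, hQ⟩ : ∃ Q : Matrix (Fin s.NT) (Fin s.NT) W.K,
      (Matrix.of fun i j => B (t i) (t j)) * Q = 1 := by
    refine ⟨Matrix.of fun j k => t.repr (v k) j, ?_⟩
    ext i k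
    rw [Matrix.mul_apply, Matrix.one_apply]
    simp only [Matrix.of_apply]
    have h1 := hv i k
    rw [← h1]
    conv_rhs => rw [← t.sum_repr (v k)]
    rw [map_sum]
    refine Finset.sum_congr rfl fun j _ => ?_
    rw [map_smul, smul_eq_mul, mul_comm]
  have h2 : (fun r : Free c₀ → Fin s.NT => hS s b c c₀ fun j => s.uT (r j)) =
      fun r : Free c₀ → Fin s.NT => hml s.e b c fun p => s.es (comb c₀ r p) := by
    funext r
    exact hS_comb c c₀ r
  rw [← h2]
  refine TH125.Nod.fft (s := fun _ => (-1 : ℤ) ^ P.X.dim) (fun _ => hs)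
    (fun a b hab => absurd rfl hab)
    (fun a b => hsy _ _) hQ (Fintype.card (Free c₀)) (Free c₀) (fun _ => ()) _ rfl
    (fun r hr => absurd (fun _ => rfl) hr) ?_ ?_
  · intro u v _ r
    have hX : SZ B (((-1 : ℤ) ^ P.X.dim : ℤ) : W.K) (t v) (t u) ∈ TF.skew B :=
      SZ_mem hsq hsy _ _
    have h1 := free_inv hb hG hP hall hc c₀ hX r
    rw [← h1]
    refine Finset.sum_congr rfl fun j _ => ?_
    rw [SZ_apply, MultilinearMap.map_update_sub, MultilinearMap.map_update_smul,
      MultilinearMap.map_update_smul, MultilinearMap.map_update_smul, smul_smul]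
    have e2 : ∀ a, (fun i => t (Function.update r j a i)) =
        Function.update (fun i => t (r i)) j (t a) := by
      intro a
      funext i
      by_cases hi : i = j
      · subst hi
        rw [Function.update_self, Function.update_self]
      · rw [Function.update_of_ne hi, Function.update_of_ne hi]
    change B (t v) (t (r j)) • hS s b c c₀ (fun i => t (Function.update r j u i)) -
      ((((-1 : ℤ) ^ P.X.dim : ℤ) : W.K) * B (t u) (t (r j))) •
        hS s b c c₀ (fun i => t (Function.update r j v i)) = _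
    rw [e2, e2]
  · intro _ hs1
    have heven : Even P.X.dim := by
      by_contra h'
      have hs1' : (-1 : ℤ) ^ P.X.dim = 1 := hs1
      rw [(Nat.not_even_iff_odd.1 h').neg_one_pow] at hs1'
      exact absurd hs1' (by decide)
    have h3 := hK heven
    rw [Module.finrank_eq_card_basis s.uT, Fintype.card_fin] at h3
    refine lt_of_le_of_lt (Finset.card_le_univ _) ?_
    rw [TH125.Nod.blk, Finset.filter_true_of_mem (fun _ _ => rfl), Finset.card_univ, Fintype.card_fin]
    refine lt_of_le_of_lt (Fintype.card_subtype_le _) ?_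
    rwa [Fintype.card_fin]

/-- coordinates of combinations of external products with classes in `M` -/
theorem ctr_mem {A : 𝒱.Obj} {M : Submodule W.K (W.H Z)} {c : W.H (A.prod Z)}
    (hc : c ∈ Submodule.span W.K {x | ∃ a, ∃ z ∈ M, x = W.map (fst A Z) a * W.map (snd A Z) z})
    (φ : W.H A →ₗ[W.K] W.K) : ctr φ c ∈ M := by
  have h1 : Submodule.span W.K {x | ∃ a, ∃ z ∈ M, x = W.map (fst A Z) a * W.map (snd A Z) z} ≤
      M.comap (ctr φ) := by
    refine Submodule.span_le.2 ?_
    rintro _ ⟨a, z, hz, rfl⟩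
    rw [SetLike.mem_coe, Submodule.mem_comap, ctr_apply]
    exact M.smul_mem _ hz
  exact h1 hc

/-- products of lists -/
theorem list_mem {B : Type*} [Ring B] [Algebra W.K B] {S : Subalgebra W.K B} {α : Type*}
    (L : List α) (f : α → B) (h : ∀ p, f p ∈ S) : (L.map f).prod ∈ S := by
  induction L with
  | nil => exact S.one_mem
  | cons p L ih =>
    rw [List.map_cons, List.prod_cons]
    exact S.mul_mem (h p) ih

include hb hD in
/-- **The structure of the semi-invariant classes on products with powers.** -/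
theorem mem_Dl (hG : IsGalois W χ P.X ρ) (hP : IsPowAct W P n Z ρ τ υ) (hall : AllSk R T ρ τ)
    (hK : Even P.X.dim → n + 1 < Module.finrank W.K T)
    {S : Subalgebra W.K (W.H ((nest ops n fun _ => P).X.prod Z))}
    (hR : ∀ p, ∀ c ∈ R, W.map (fst _ Z) (W.map (prj ops n (fun _ => P) p) c) ∈ S)
    {M : Submodule W.K (W.H Z)} (hM : ∀ z ∈ M, W.map (snd _ Z) z ∈ S)
    {c : W.H ((nest ops n fun _ => P).X.prod Z)} (hc : (full _ (algR υ)).Eig c)
    (hcM : c ∈ Submodule.span W.K {x | ∃ a, ∃ z ∈ M, x = W.map (fst _ Z) a * W.map (snd _ Z) z}) :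
    c ∈ Submodule.span W.K {x | ∃ i m, Dl s (prj ops n fun _ => P) i m ∧ ∃ w ∈ S,
      x = W.map (fst _ Z) m * w} := by
  obtain ⟨q, hq⟩ := LinearMap.exists_leftInverse_of_injective M.subtype M.ker_subtype
  have hq' : ∀ z ∈ M, (q z : W.H Z) = z := fun z hz =>
    congrArg Subtype.val (LinearMap.congr_fun hq ⟨z, hz⟩)
  rw [expand b c, sum_patterns]
  refine Submodule.sum_mem _ fun c₀ _ => ?_
  have h1 := gen_free hb hD hG hP hall hK hc c₀
  have h2 : ∀ F ∈ TH125.Nod.Gen (fun _ : Fin s.NT => ())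
      (Matrix.of fun i j => bil W P.X (s.uT i) (s.uT j)) (fun _ : Free c₀ => ()),
      ∑ r : Free c₀ → Fin s.NT, W.map (fst _ Z) (b (comb c₀ r)) *
        W.map (snd _ Z) (q (F r : W.H Z) : W.H Z) ∈
        Submodule.span W.K {x | ∃ i m, Dl s (prj ops n fun _ => P) i m ∧ ∃ w ∈ S,
          x = W.map (fst _ Z) m * w} := by
    intro F hF
    induction hF using Submodule.span_induction with
    | mem F hF =>
      obtain ⟨m, e, w, rfl⟩ := hF
      obtain ⟨ε, i, x, hx, h3⟩ := dl_sum (s := s) (π := prj ops n fun _ => P) hD e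
      have h4 : ∑ r : Free c₀ → Fin s.NT, W.map (fst _ Z) (b (comb c₀ r)) *
          W.map (snd _ Z) (q (TH125.Nod.gen (fun _ : Fin s.NT => ())
            (Matrix.of fun i j => bil W P.X (s.uT i) (s.uT j)) (fun _ : Free c₀ => ()) e w r) :
              W.H Z) =
          (ε : W.K) • (W.map (fst _ Z) x * (W.map (fst _ Z) ((fixList c₀).map fun p =>
            (c₀ p).elim 1 fun i => W.map (prj ops n (fun _ => P) p) (s.bC i : W.H P.X)).prod *
              W.map (snd _ Z) (q w : W.H Z))) := by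
        rw [← mul_assoc, ← map_mul, ← smul_mul_assoc, ← map_smul, ← h3, map_sum, Finset.sum_mul]
        refine Finset.sum_congr rfl fun r _ => ?_
        rw [TH125.Nod.gen, if_pos (fun _ => rfl), map_smul, Submodule.coe_smul, map_smul,
          map_smul, mul_smul_comm, smul_mul_assoc, hb]
        rfl
      rw [h4]
      refine Submodule.smul_mem _ _ (Submodule.subset_span ⟨i, x, hx, _, ?_, rfl⟩)
      refine S.mul_mem ?_ (hM _ (q w).2)
      rw [map_list_prod, List.map_map]
      refine list_mem _ _ fun p => ?_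
      rw [Function.comp_apply]
      cases c₀ p with
      | none =>
        change W.map (fst _ Z) 1 ∈ S
        rw [map_one]
        exact S.one_mem
      | some l => exact hR p _ (s.bC l).2
    | zero =>
      simp only [Pi.zero_apply, map_zero, ZeroMemClass.coe_zero, mul_zero,
        Finset.sum_const_zero]
      exact Submodule.zero_mem _
    | add F F' _ _ hF hF' =>
      simp only [Pi.add_apply, map_add, Submodule.coe_add, mul_add, Finset.sum_add_distrib]
      exact Submodule.add_mem _ hF hF'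
    | smul x F _ hF =>
      simp only [Pi.smul_apply, map_smul, Submodule.coe_smul, mul_smul_comm]
      rw [← Finset.smul_sum]
      exact Submodule.smul_mem _ _ hF
  have h3 := h2 _ h1
  have h4 : ∀ r : Free c₀ → Fin s.NT, (q (hml s.e b c fun p => s.es (comb c₀ r p)) : W.H Z) =
      ctr (b.coord (comb c₀ r)) c := by
    intro r
    rw [coord_eq hb hD]
    refine hq' _ ?_
    rw [← coord_eq hb hD]
    exact ctr_mem hcM _
  simp only [h4] at h3
  exact h3

end

end

end Pool.Agent.U233.AM
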