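import Pool.Agent.U233.AM.Tow

/-!
# Lists with repetitions
-/

set_option autoImplicit false
set_option linter.unusedSectionVars false

open CategoryTheory AlgebraicGeometry

universe u

namespace Pool.Agent.U233.AM

open Pool.Agent.H914 Pool.Agent.H914.VarClass Pool.Agent.H914.VarClass.Obj
  Pool.Agent.H914.WeilCohomology Pool.Agent.H281R3.HT Pool.Agent.W552
open Pool.Agent.U233.HG.St (pow Secs prods mult)

noncomputable section

variable {k : Type u} [Field k] {𝒱 : VarClass k} {ι : Type}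

/-- isomorphic morphisms -/
def Eqv {Y Y' Y₁ Y₁' : 𝒱.Obj} (h : Y ⟶ Y') (h₁ : Y₁ ⟶ Y₁') : Prop :=
  ∃ (v : Y ⟶ Y₁) (v' : Y₁ ⟶ Y) (w : Y' ⟶ Y₁') (w' : Y₁' ⟶ Y'), v ≫ v' = 𝟙 Y ∧ v' ≫ v = 𝟙 Y₁ ∧
    w ≫ w' = 𝟙 Y' ∧ w' ≫ w = 𝟙 Y₁' ∧ h ≫ w = v ≫ h₁

namespace Eqv

variable {Y Y' Y₁ Y₁' Y₂ Y₂' : 𝒱.Obj} {h : Y ⟶ Y'} {h₁ : Y₁ ⟶ Y₁'} {h₂ : Y₂ ⟶ Y₂'}

theorem refl (h : Y ⟶ Y') : Eqv h h :=
  ⟨𝟙 _, 𝟙 _, 𝟙 _, 𝟙 _, Category.comp_id _, Category.comp_id _, Category.comp_id _,
    Category.comp_id _, by rw [Category.comp_id, Category.id_comp]⟩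

theorem symm (e : Eqv h h₁) : Eqv h₁ h := by
  obtain ⟨v, v', w, w', e1, e2, e3, e4, e5⟩ := e
  refine ⟨v', v, w', w, e2, e1, e4, e3, ?_⟩
  have h1 : v' ≫ h ≫ w ≫ w' = v' ≫ v ≫ h₁ ≫ w' := by
    rw [← Category.assoc h, e5, Category.assoc]
  rw [e3, Category.comp_id, ← Category.assoc v', e2, Category.id_comp] at h1
  exact h1.symm

theorem trans (e : Eqv h h₁) (e' : Eqv h₁ h₂) : Eqv h h₂ := by
  obtain ⟨v, v', w, w', e1, e2, e3, e4, e5⟩ := e
  obtain ⟨a, a', b, b', f1, f2, f3, f4, f5⟩ := e'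
  refine ⟨v ≫ a, a' ≫ v', w ≫ b, b' ≫ w', ?_, ?_, ?_, ?_, ?_⟩
  · rw [Category.assoc, ← Category.assoc a, f1, Category.id_comp, e1]
  · rw [Category.assoc, ← Category.assoc v', e2, Category.id_comp, f2]
  · rw [Category.assoc, ← Category.assoc b, f3, Category.id_comp, e3]
  · rw [Category.assoc, ← Category.assoc w', e4, Category.id_comp, f4]
  · rw [← Category.assoc, e5, Category.assoc, f5, Category.assoc]

end Eqv

theorem times_comp {X X' X'' Y Y' Y'' : 𝒱.Obj} (f : X ⟶ X') (f' : X' ⟶ X'') (g : Y ⟶ Y')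
    (g' : Y' ⟶ Y'') : times f g ≫ times f' g' = times (f ≫ f') (g ≫ g') := by
  refine prod_ext ?_ ?_
  · rw [Category.assoc, times_fst, times_fst, ← Category.assoc, times_fst, Category.assoc]
  · rw [Category.assoc, times_snd, times_snd, ← Category.assoc, times_snd, Category.assoc]

/-- products with a morphism -/
theorem Eqv.times {X X' Y Y' Y₁ Y₁' : 𝒱.Obj} (f : X ⟶ X') {h : Y ⟶ Y'} {h₁ : Y₁ ⟶ Y₁'}
    (e : Eqv h h₁) : Eqv (times f h) (times f h₁) := by
  obtain ⟨v, v', w, w', e1, e2, e3, e4, e5⟩ := e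
  refine ⟨AM.times (𝟙 X) v, AM.times (𝟙 X) v', AM.times (𝟙 X') w, AM.times (𝟙 X') w',
    ?_, ?_, ?_, ?_, ?_⟩
  · rw [times_comp, e1, Category.comp_id, times_id]
  · rw [times_comp, e2, Category.comp_id, times_id]
  · rw [times_comp, e3, Category.comp_id, times_id]
  · rw [times_comp, e4, Category.comp_id, times_id]
  · rw [times_comp, times_comp, e5, Category.comp_id, Category.id_comp]

theorem sw_nat' {X X' Y Y' Z Z' : 𝒱.Obj} (q : X ⟶ X') (a : Y ⟶ Y') (h : Z ⟶ Z') :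
    times q (times a h) ≫ sw X' Y' Z' = sw X Y Z ≫ times a (times q h) := by
  refine prod_ext ?_ (prod_ext ?_ ?_) <;>
    simp only [sw, times, Category.assoc, Obj.lift_fst, Obj.lift_snd, Obj.lift_fst_assoc,
      Obj.lift_snd_assoc]

theorem la_nat' {X X' Y Y' Z Z' : 𝒱.Obj} (q : X ⟶ X') (a : Y ⟶ Y') (h : Z ⟶ Z') :
    times q (times a h) ≫ la X' Y' Z' = la X Y Z ≫ times (times q a) h := by
  refine prod_ext (prod_ext ?_ ?_) ?_ <;>
    simp only [la, times, Category.assoc, Obj.lift_fst, Obj.lift_snd, Obj.lift_fst_assoc,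
      Obj.lift_snd_assoc]

theorem al_la {X Y Z : 𝒱.Obj} : al X Y Z ≫ la X Y Z = 𝟙 _ := by
  refine prod_ext (prod_ext ?_ ?_) ?_ <;>
    simp only [la, al, Category.assoc, Obj.lift_fst, Obj.lift_snd, Obj.lift_fst_assoc,
      Obj.lift_snd_assoc, Category.id_comp]

/-- the exchange -/
theorem Eqv.swap {X X' Y Y' Z Z' : 𝒱.Obj} (q : X ⟶ X') (a : Y ⟶ Y') (h : Z ⟶ Z') :
    Eqv (AM.times q (AM.times a h)) (AM.times a (AM.times q h)) :=
  ⟨sw _ _ _, sw _ _ _, sw _ _ _, sw _ _ _, sw_sw, sw_sw, sw_sw, sw_sw, sw_nat' q a h⟩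

/-- the associativity -/
theorem Eqv.assoc {X X' Y Y' Z Z' : 𝒱.Obj} (q : X ⟶ X') (a : Y ⟶ Y') (h : Z ⟶ Z') :
    Eqv (AM.times q (AM.times a h)) (AM.times (AM.times q a) h) :=
  ⟨la _ _ _, al _ _ _, la _ _ _, al _ _ _, la_al, al_la, la_al, al_la, la_nat' q a h⟩

variable (F : Secs 𝒱 ι)

/-- permutations -/
theorem eqv_perm (Z : 𝒱.Obj) {l l' : List ι} (h : l.Perm l') : Eqv (resL F l Z) (resL F l' Z) := by
  induction h with
  | nil => exact Eqv.refl _
  | cons i _ ih => exact ih.times (F.f i)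
  | swap i j l => exact Eqv.swap (F.f j) (F.f i) (resL F l Z)
  | trans _ _ ih ih' => exact ih.trans ih'

/-- repetitions -/
theorem eqv_rep (Z : 𝒱.Obj) (i : ι) (l : List ι) : ∀ n : ℕ,
    Eqv (resL F (List.replicate (n + 1) i ++ l) Z) (times (powMap (F.f i) n) (resL F l Z))
  | 0 => Eqv.refl _
  | n + 1 => ((eqv_rep Z i l n).times (F.f i)).trans (Eqv.assoc _ _ _)

/-- the list with repetitions -/
def unfold' (L : List (ι × ℕ)) : List ι := L.flatMap fun x => List.replicate (x.2 + 1) x.1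

theorem eqv_unfold (Z : 𝒱.Obj) : ∀ L : List (ι × ℕ), Eqv (resL F (unfold' L) Z) (res F L Z)
  | [] => Eqv.refl _
  | x :: L => (eqv_rep F Z x.1 (unfold' L) x.2).trans ((eqv_unfold Z L).times _)

/-- grouping -/
theorem exists_group [DecidableEq ι] : ∀ (n : ℕ) (l : List ι), l.length = n →
    ∃ L : List (ι × ℕ), (L.map Prod.fst).Nodup ∧
      (∀ x ∈ L, x.1 ∈ l ∧ x.2 + 1 = l.count x.1) ∧ l.Perm (unfold' L) := by
  intro n
  induction n using Nat.strong_induction_on with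
  | _ n ih =>
    intro l hl
    cases l with
    | nil => exact ⟨[], by simp, by simp, List.Perm.refl _⟩
    | cons i t =>
      obtain ⟨L, h1, h2, h3⟩ := ih ((i :: t).filter (fun a => !decide (a = i))).length (by
        rw [← hl]
        refine List.length_filter_lt_length_iff_exists.2 ⟨i, List.mem_cons_self, by simp⟩) _ rfl
      have hne : ∀ x ∈ L, x.1 ≠ i := fun x hx => by
        have h4 := (List.mem_filter.1 (h2 x hx).1).2
        simpa using h4
      have hc : 0 < (i :: t).count i := List.count_pos_iff.2 List.mem_cons_self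
      refine ⟨(i, (i :: t).count i - 1) :: L, ?_, ?_, ?_⟩
      · rw [List.map_cons, List.nodup_cons]
        refine ⟨fun h => ?_, h1⟩
        obtain ⟨x, hx, hxi⟩ := List.mem_map.1 h
        exact hne x hx hxi
      · intro x hx
        rcases List.mem_cons.1 hx with rfl | hx
        · exact ⟨List.mem_cons_self, Nat.succ_pred_eq_of_pos hc⟩
        · obtain ⟨h4, h5⟩ := h2 x hx
          refine ⟨(List.mem_filter.1 h4).1, ?_⟩
          rw [h5, List.count_filter]
          simpa using hne x hx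
      · have h4 := List.filter_append_perm (fun a => decide (a = i)) (i :: t)
        refine h4.symm.trans ?_
        rw [List.filter_eq]
        have h5 : unfold' ((i, (i :: t).count i - 1) :: L) =
            List.replicate ((i :: t).count i) i ++ unfold' L := by
          unfold unfold'
          rw [List.flatMap_cons]
          change List.replicate ((i :: t).count i - 1 + 1) i ++ _ = _
          rw [Nat.sub_add_cancel hc]
        rw [h5]
        exact List.Perm.append_left _ h3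

variable {F} {ops : CycleOps 𝒱} {W : WeilCohomology.{u, 0} ops} {Γ : Type} [Group Γ] {S : Sys W Γ}
  {C : Cl S} {V : ι → N179.GR.S.GRep W.K Γ} {m : ℕ} {U : Fin m → N179.GR.S.GRep W.K Γ}
  [IsAlgClosed W.K]

/-- **Products with repetitions.** -/
theorem allL (hV : ∀ i, FullR (V i)) (hF : FG.Fam V) {Z : 𝒱.Obj} (hZ : Kill S V U [] Z)
    (l : List ι) (hl : ∀ i ∈ l, ∀ n, n + 1 = mult i l → Ok C V U F (i, n))
    (H : C.Pulls (resL F l Z)) : C.Pulls (𝟙 (prods F.X l Z)) := by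
  classical
  obtain ⟨L, h1, h2, h3⟩ := exists_group l.length l rfl
  have h4 : Eqv (resL F l Z) (res F L Z) := (eqv_perm F Z h3).trans (eqv_unfold F Z L)
  obtain ⟨v, v', w, w', e1, e2, e3, e4, e5⟩ := h4
  have h5 : res F L Z = v' ≫ resL F l Z ≫ w := by
    rw [e5, ← Category.assoc, e2, Category.id_comp]
  have h6 : C.Pulls (res F L Z) := by
    rw [h5]
    exact H.comp v' w
  have h7 : C.Pulls (𝟙 (pows F.X L Z)) := AM.all hV hF hZ L h1 (fun x hx => by
    obtain ⟨h8, h9⟩ := h2 x hx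
    refine hl x.1 h8 x.2 (h9.trans ?_)
    unfold mult
    congr) h6
  have h8 := h7.comp v v'
  rw [Category.id_comp, e1] at h8
  exact h8

end

end Pool.Agent.U233.AM
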