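import Pool.Agent.U233.AM.Hdg
import Pool.Agent.U233.AM.Perm
import Pool.Agent.U233.PW.ConvP

/-!
# The proof of the statement on sections
-/

set_option autoImplicit false
set_option linter.unusedSectionVars false

open CategoryTheory AlgebraicGeometry TensorProduct

universe u

namespace Pool.Agent.U233.HG.St

open Module Pool.Agent.N179 Pool.Agent.N179.DB
open Pool.Agent.N179.DB.S (Cx tens gal bc cx_ind)
open Pool.Agent.H914 Pool.Agent.H914.VarClass Pool.Agent.H914.VarClass.Obj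
  Pool.Agent.H914.WeilCohomology Pool.Agent.U233.PW
open Pool.Agent.N179.GR.S Pool.Agent.W552 Pool.Agent.H281R3.HT Pool.Agent.TH125.Gal
open Pool.Agent.U233.AM (RelH GenH Ok Kill FullR sys HCl resL)

variable {k : Type u} [Field k] {𝒱 : VarClass k} {ops : CycleOps 𝒱} (T : Theory ops)

/-- the algebraic classes -/
theorem hcl_cy : HCl T (fun X j => {c | ∃ z, X.IsCyc j z ∧ T.W.cl X z = c}) where
  hd X j := by
    rintro _ ⟨z, hz, rfl⟩
    exact ⟨T.W.cl_mem hz, T.cyc X j _ ⟨z, hz, rfl⟩⟩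
  cy X j z hz := ⟨z, hz, rfl⟩
  mul X i j := by
    rintro _ ⟨z, hz, rfl⟩ _ ⟨w, hw, rfl⟩
    exact ⟨ops.mul z w, ops.mul_mem hz hw, T.W.cl_mul z w⟩
  map X Y f j := by
    rintro _ ⟨z, hz, rfl⟩
    exact ⟨ops.pull f z, ops.pull_mem f hz, T.W.cl_pull f z⟩
  span X j c hc := by
    refine alg_of_span T ((Submodule.span_mono ?_) hc)
    rintro _ ⟨z, hz, rfl⟩
    exact ⟨j, rfl, z, hz, rfl⟩

theorem relH_of {V : HS T.W.K} {X W : 𝒱.Obj} {f : X ⟶ W} (h : (pull T f).Model X.dim V) :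
    RelH (T := T) (fun X j => {c | ∃ z, X.IsCyc j z ∧ T.W.cl X z = c}) (toHG V) f := by
  obtain ⟨g, h1, h2, h3, h4⟩ := h
  refine ⟨g, h1, fun v hv => h2 (hv.trans (map_zero
    (show V.V →ₗ[T.W.K] T.W.H X from g)).symm), fun v => h3 _ ⟨v, rfl⟩, fun y => ?_⟩
  obtain ⟨c, hc, _, ⟨v, rfl⟩, hv⟩ := h4 y
  exact ⟨c, hc, v, hv⟩

theorem genH_of {m : ℕ} {U : Fin m → HS T.W.K} {X W : 𝒱.Obj} {f : X ⟶ W}
    (h : (pull T f).GenBy U) : GenH (T := T) (fun a => toHG (U a)) f := h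

section fam

variable {ι : Type} {V : ι → HS T.W.K} {d : ι → ℕ} (hV : FullFam V d)

include hV

/-- the exceptional indices -/
theorem excS : Exceptions V d
    (fun U => Exc (fun i => rep (toHG (V i))) (rep (toHG U))) := by
  have hK := charK T.W.K
  have hE := splitFam T (famS T hV)
  refine ⟨⟨fun U => hE.finite _, fun U => hE.card (toHG U), fun i => hE.self i⟩,
      fun U i hU hi => ?_, fun U i hU hi => ?_, fun U i hU hi => ?_⟩
  · obtain ⟨ψ, hψ⟩ := hV.full i
    exact hi (spl_of_level hψ hU)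
  · obtain ⟨ψ, hψ⟩ := hV.full i
    exact hi (spl_of_size hψ hU)
  · obtain ⟨ψ, hψ⟩ := hV.full i
    exact hi (spl_of_num hψ hU)

/-- the theorem for a class of Hodge classes -/
theorem relG {G : ∀ X : 𝒱.Obj, ℕ → Set (T.W.H X)} (hG : HCl T G)
    (hp : ∀ X : 𝒱.Obj, (coho T X).str.Polarisable) {m : ℕ} {U : Fin m → HS T.W.K}
    {Z : 𝒱.Obj} (hZ : (coho T Z).GenBy U) {F : Secs 𝒱 ι} {L : List ι}
    (hF : ∀ i, RelH G (toHG (V i)) (F.f i))
    (hL : Allowed T V F (⋃ a, Exc (fun i => rep (toHG (V i))) (rep (toHG (U a)))) L)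
    (hgen : ∀ i ∈ L, (pull T (F.f i)).GenBy U)
    (H : ∀ j c, IsHodge T (prods F.W L Z) j c → T.W.map (resL F L Z) c ∈ G (prods F.X L Z) j)
    {j : ℕ} {c : T.W.H (prods F.X L Z)} (hc : IsHodge T (prods F.X L Z) j c) :
    c ∈ G (prods F.X L Z) j := by
  have hcl : IsAlgClosed (baseW T.W ℂ).K := inferInstanceAs (IsAlgClosed ℂ)
  have hp' : ∀ X : 𝒱.Obj, HG.Polarisable (coh T X) := fun X => (pol_iff _).1 (hp X)
  have hkill : Kill (sys T hp') (fun i => repW T (toHG (V i)))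
      (fun a => repW T (toHG (U a))) [] Z := fun D hD h0 _ =>
    (N179.GR.S.gen_of (gen_var T (gen_of T hZ))).kill hD h0
  have hfull : ∀ i, FullR (repW T (toHG (V i))) := fun i => by
    obtain ⟨ψ, μ, h⟩ := fullsS T hV i
    exact ⟨formW T _ ψ, μ, h⟩
  refine AM.hd_of (hp := hp') (hG := hG) ?_ hc
  refine AM.allL hfull (famS T hV) hkill L (fun i hi n hn => ?_) (AM.pulls_of H)
  obtain ⟨h1, h3⟩ := hL i hi
  refine ⟨AM.rel_of (hF i), fun he => ?_,
    fun D hD h0 b => AM.gen_kill (genH_of T (hgen i hi)) hD h0 b, fun a => ?_⟩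
  · have h5 : finrank (baseW T.W ℂ).K (repW T (toHG (V i))).V = (V i).dim :=
      dim_coh T (toHG (V i))
    rw [h5, hn]
    exact h3 he
  · by_contra h
    exact h1 (Set.mem_iUnion.2 ⟨a, h⟩)

/-- **The theorem on sections.** -/
theorem descS (hp : ∀ X : 𝒱.Obj, (coho T X).str.Polarisable) {F : Secs 𝒱 ι}
    (hF : Relative T V F) :
    Descent T V (fun U => Exc (fun i => rep (toHG (V i))) (rep (toHG U))) F := by
  intro m U Z L hZ hgen hL
  have key : (pull T (resL F L Z)).HC → HodgeConjecture T (prods F.X L Z) := by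
    intro H j c hc
    exact relG T hV (hcl_cy T) hp hZ (fun i => relH_of T (hF i)) hL hgen
      (fun j c hc => H j c hc) hc
  refine ⟨fun H => key fun j c hc => ?_, resL F L Z, AM.isRes F Z L, fun H j c hc => ?_, key⟩
  · obtain ⟨z, hz, rfl⟩ := H j hc
    exact ⟨ops.pull (resL F L Z) z, ops.pull_mem (resL F L Z) hz, T.W.cl_pull (resL F L Z) z⟩
  · have h1 : IsHodge T (prods F.X L Z) j (T.W.map (resL F L Z) c) := by
      refine ⟨T.W.map_mem _ hc.1, ?_⟩
      have h2 : bc (T.W.map (resL F L Z)).toLinearMap (tens 1 c) ∈ pqC T (prods F.X L Z) j j :=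
        T.map _ _ (resL F L Z) j j _ hc.2
      rw [N179.DB.S.bc_tens] at h2
      exact h2
    exact H j h1

/-- the structures which generate the cohomology -/
noncomputable def gens (F : Secs 𝒱 ι) (L : List ι) (Z : 𝒱.Obj) (a : Fin (L.length + 1)) :
    HS T.W.K :=
  Fin.cases (coho T Z).str (fun l => (coho T (F.W (L.get l))).str) a

omit hV in
theorem gens_Z (F : Secs 𝒱 ι) (L : List ι) (Z : 𝒱.Obj) :
    (coho T Z).GenBy (gens T F L Z) := by
  have h1 := gen_self T Z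
  have h2 : GeneratedBy T (fun a => toHG (gens T F L Z a)) Z := by
    unfold GeneratedBy at h1 ⊢
    rw [eq_top_iff, ← h1]
    refine Algebra.adjoin_mono (Set.union_subset_union_right _ ?_)
    rintro x ⟨a, f, v, hf, rfl⟩
    exact ⟨0, f, v, hf, rfl⟩
  exact h2

omit hV in
theorem gens_sec {F : Secs 𝒱 ι} {L : List ι} (Z : 𝒱.Obj) {i : ι} (hi : i ∈ L) :
    (pull T (F.f i)).GenBy (gens T F L Z) := by
  obtain ⟨l, rfl⟩ := List.mem_iff_get.1 hi
  intro b
  refine Algebra.subset_adjoin (Or.inr ?_)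
  exact ⟨l.succ, (T.W.map (F.f (L.get l))).toLinearMap, b, isHom_map T (F.f (L.get l)), rfl⟩

omit hV in
theorem gens_avoid {F : Secs 𝒱 ι} {L : List ι} {Z : 𝒱.Obj} {E : HS T.W.K → Set ι}
    (h : Allowed T V F (E (coho T Z).str) L)
    (h' : ∀ i ∈ L, ∀ j ∈ L, i ∉ E (coho T (F.W j)).str) :
    Allowed T V F (⋃ a, E (gens T F L Z a)) L := by
  refine fun i hi => ⟨fun h1 => ?_, (h i hi).2⟩
  obtain ⟨a, ha⟩ := Set.mem_iUnion.1 h1
  revert ha
  refine Fin.cases ?_ (fun l => ?_) a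
  · exact (h i hi).1
  · exact h' i hi _ (List.get_mem L l)

/-- the levels -/
theorem avoidS (hC : Classical T) :
    Avoid T V d (fun U => Exc (fun i => rep (toHG (V i))) (rep (toHG U))) := by
  intro Z i hd hb hi
  have hK := charK T.W.K
  obtain ⟨ψ, hψ⟩ := hV.full i
  have hl := lvl_coh T (cls_of T hC) Z
  have hd' : (Z.dim : ℤ) < (d i : ℤ) := by exact_mod_cast hd
  refine hi (spl_of_big hψ ((cls_of T hC).pol Z) (wt_coh T Z) (fun k => ?_) ?_ hb)
  · exact ⟨(hl k).1.trans hd'.le, (neg_le_neg hd'.le).trans (hl k).2⟩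
  · exact apart_lvl (fullX_of hψ) hl (by exact_mod_cast hd)

/-- **Small dimensions.** -/
theorem lowS (hC : Classical T) {F : Secs 𝒱 ι} (hF : Relative T V F) :
    Low T V (fun U => Exc (fun i => rep (toHG (V i))) (rep (toHG U))) F := by
  intro Z L hdim hL h
  exact (descS T hV hC.polarisable hF _ _ Z L (gens_Z T F L Z) (fun x hx => gens_sec T Z hx)
    (gens_avoid T (E := fun U => Exc (fun i => rep (toHG (V i))) (rep (toHG U))) hL h)).conjecture
    (low T (cls_of T hC) hdim)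

end fam

/-- **The theorem.** -/
theorem rel_dec {ι : Type} {V : ι → HS T.W.K} {d : ι → ℕ} (hV : FullFam V d)
    (hp : ∀ X : 𝒱.Obj, (coho T X).str.Polarisable) :
    ∃ E : HS T.W.K → Set ι, Exceptions V d E ∧
      (∀ S : Secs 𝒱 ι, Relative T V S → Descent T V E S) ∧
      (Classical T → Avoid T V d E ∧ ∀ S : Secs 𝒱 ι, Relative T V S → Low T V E S) :=
  ⟨_, excS T hV, fun _ hF => descS T hV hp hF, fun hC => ⟨avoidS T hV hC,
    fun _ hF => lowS T hV hC hF⟩⟩

end Pool.Agent.U233.HG.St
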