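import Pool.Agent.U233.AM.DefA
import Pool.Agent.U233.AM.Fin
import Pool.Agent.U233.AH.Fin

/-!
# The proof of the statement on absolutely Hodge classes
-/

set_option autoImplicit false
set_option linter.unusedSectionVars false

open CategoryTheory AlgebraicGeometry TensorProduct

universe u

namespace Pool.Agent.U233.HG.St

open Module Pool.Agent.N179 Pool.Agent.N179.DB
open Pool.Agent.N179.DB.S (Cx tens gal bc cx_ind)
open Pool.Agent.H914 Pool.Agent.H914.VarClass Pool.Agent.H914.VarClass.Obj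
  Pool.Agent.H914.WeilCohomology Pool.Agent.U233.PW
open Pool.Agent.N179.GR.S Pool.Agent.W552 Pool.Agent.H281R3.HT Pool.Agent.TH125.Gal
open Pool.Agent.U233.AM (RelH GenH Ok Kill FullR sys HCl resL)
open Pool.Agent.U233.AH (hd hdS hd_mul hd_map cy_hd charW)

variable {k : Type u} [Field k] {𝒱 : VarClass k} {ops : CycleOps 𝒱}

/-- rational scalars -/
theorem rat_eq {K A K' A' E : Type} [Field K] [CharZero K] [Ring A] [Algebra K A] [Field K']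
    [CharZero K'] [Ring A'] [Algebra K' A'] [Ring E] (f : A →+* E) (f' : A' →+* E) (q : ℚ) :
    f (algebraMap K A (q : K)) = f' (algebraMap K' A' (q : K')) := by
  have h1 : (f.comp ((algebraMap K A).comp (algebraMap ℚ K))) =
      (f'.comp ((algebraMap K' A').comp (algebraMap ℚ K'))) := Subsingleton.elim _ _
  have h3 := congrArg (fun g : ℚ →+* E => g q) h1
  simpa using h3

theorem tw_mul {E : Type} [Ring E] {v : E} (hv : ∀ x, v * x = x * v) (i j : ℕ) (a b : E) :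
    (v ^ i * a) * (v ^ j * b) = v ^ (i + j) * (a * b) := by
  have h1 : a * v ^ j = v ^ j * a := by
    induction j with
    | zero => rw [pow_zero, mul_one, one_mul]
    | succ j ih => rw [pow_succ, ← mul_assoc, ih, mul_assoc, ← hv a, ← mul_assoc]
  rw [pow_add, mul_assoc, ← mul_assoc a, h1]
  simp only [mul_assoc]

section one

variable {J : Type} {T : J → Theory ops} (κ : Comparison T)

/-- the comparison homomorphisms -/
def ri (τ : J) (X : 𝒱.Obj) : (T τ).W.H X →+* (κ.B X).A := κ.i τ X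

/-- the pull-backs -/
def rm {X Y : 𝒱.Obj} (f : X ⟶ Y) : (κ.B Y).A →+* (κ.B X).A := κ.map f

theorem r_nat (τ : J) {X Y : 𝒱.Obj} (f : X ⟶ Y) (a : (T τ).W.H Y) :
    ri κ τ X ((T τ).W.map f a) = rm κ f (ri κ τ Y a) := κ.nat τ X Y f a

theorem r_u (τ : J) {X Y : 𝒱.Obj} (f : X ⟶ Y) : rm κ f (κ.u τ Y) = κ.u τ X := κ.natu τ X Y f

theorem r_com (τ : J) (X : 𝒱.Obj) (x : (κ.B X).A) : κ.u τ X * x = x * κ.u τ X := κ.central τ X x

/-- the value with the twist -/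
def rv (τ : J) (X : 𝒱.Obj) (j : ℕ) (c : (T τ).W.H X) : (κ.B X).A := κ.u τ X ^ j * ri κ τ X c

theorem r_cyc (σ τ : J) (X : 𝒱.Obj) (j : ℕ) (z : X.Cycles) (hz : X.IsCyc j z) :
    rv κ σ X j ((T σ).W.cl X z) = rv κ τ X j ((T τ).W.cl X z) := κ.cyc σ τ X j z hz

theorem rv_zero (τ : J) (X : 𝒱.Obj) (j : ℕ) : rv κ τ X j 0 = 0 := by
  have h1 : ri κ τ X (0 : (T τ).W.H X) = 0 := map_zero (ri κ τ X)
  unfold rv
  rw [h1, mul_zero]

theorem rv_add (τ : J) (X : 𝒱.Obj) (j : ℕ) (a b : (T τ).W.H X) :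
    rv κ τ X j (a + b) = rv κ τ X j a + rv κ τ X j b := by
  have h1 : ri κ τ X (a + b) = ri κ τ X a + ri κ τ X b := map_add (ri κ τ X) a b
  unfold rv
  rw [h1, mul_add]

theorem rv_mul (τ : J) (X : 𝒱.Obj) (i j : ℕ) (a b : (T τ).W.H X) :
    rv κ τ X (i + j) (a * b) = rv κ τ X i a * rv κ τ X j b := by
  have h1 : ri κ τ X (a * b) = ri κ τ X a * ri κ τ X b := map_mul (ri κ τ X) a b
  unfold rv
  rw [h1, tw_mul (r_com κ τ X)]

theorem rv_map (τ : J) {X Y : 𝒱.Obj} (f : X ⟶ Y) (j : ℕ) (c : (T τ).W.H Y) :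
    rv κ τ X j ((T τ).W.map f c) = rm κ f (rv κ τ Y j c) := by
  unfold rv
  rw [map_mul, map_pow, r_u, r_nat]

theorem rv_smul (σ τ : J) (X : 𝒱.Obj) (q : ℚ) :
    rv κ σ X 0 (algebraMap (T σ).W.K ((T σ).W.H X) (q : (T σ).W.K)) =
      rv κ τ X 0 (algebraMap (T τ).W.K ((T τ).W.H X) (q : (T τ).W.K)) := by
  have hc := charW (T σ)
  have hc' := charW (T τ)
  have h5 := rat_eq (K := (T σ).W.K) (K' := (T τ).W.K) (ri κ σ X) (ri κ τ X) q
  unfold rv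
  rw [pow_zero, pow_zero, h5]

/-- the classes which become Hodge -/
def Gr (σ τ : J) (X : 𝒱.Obj) (j : ℕ) : Set ((T σ).W.H X) :=
  {c | ∃ c' ∈ hd (T τ) X j, rv κ σ X j c = rv κ τ X j c'}

variable {σ τ : J}

theorem gr_zero (X : 𝒱.Obj) (j : ℕ) : (0 : (T σ).W.H X) ∈ Gr κ σ τ X j :=
  ⟨0, (hdS (T τ) X j).zero_mem, by rw [rv_zero, rv_zero]⟩

theorem gr_add {X : 𝒱.Obj} {j : ℕ} {a b : (T σ).W.H X} (ha : a ∈ Gr κ σ τ X j)
    (hb : b ∈ Gr κ σ τ X j) : a + b ∈ Gr κ σ τ X j := by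
  obtain ⟨a', ha', h1⟩ := ha
  obtain ⟨b', hb', h2⟩ := hb
  exact ⟨a' + b', (hdS (T τ) X j).add_mem ha' hb', by rw [rv_add, rv_add, h1, h2]⟩

theorem gr_smul {X : 𝒱.Obj} {j : ℕ} {a : (T σ).W.H X} (r : (T σ).W.K)
    (ha : a ∈ Gr κ σ τ X j) : r • a ∈ Gr κ σ τ X j := by
  obtain ⟨q, rfl⟩ := (T σ).rat r
  obtain ⟨a', ha', h1⟩ := ha
  refine ⟨(q : (T τ).W.K) • a', (hdS (T τ) X j).smul_mem _ ha', ?_⟩
  have h3 := rv_mul κ σ X 0 j (algebraMap (T σ).W.K ((T σ).W.H X) (q : (T σ).W.K)) a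
  have h4 := rv_mul κ τ X 0 j (algebraMap (T τ).W.K ((T τ).W.H X) (q : (T τ).W.K)) a'
  rw [zero_add] at h3 h4
  rw [Algebra.smul_def, Algebra.smul_def, h3, h4, h1, rv_smul κ σ τ X q]

theorem gr_mul {X : 𝒱.Obj} {i j : ℕ} {a b : (T σ).W.H X} (ha : a ∈ Gr κ σ τ X i)
    (hb : b ∈ Gr κ σ τ X j) : a * b ∈ Gr κ σ τ X (i + j) := by
  obtain ⟨a', ha', h1⟩ := ha
  obtain ⟨b', hb', h2⟩ := hb
  exact ⟨a' * b', hd_mul (T τ) ha' hb', by rw [rv_mul, rv_mul, h1, h2]⟩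

theorem gr_map {X Y : 𝒱.Obj} (f : X ⟶ Y) {j : ℕ} {c : (T σ).W.H Y} (hc : c ∈ Gr κ σ τ Y j) :
    (T σ).W.map f c ∈ Gr κ σ τ X j := by
  obtain ⟨c', hc', h1⟩ := hc
  exact ⟨(T τ).W.map f c', hd_map f hc', by rw [rv_map, rv_map, h1]⟩

variable (σ)

/-- the absolutely Hodge classes -/
def Ga (X : 𝒱.Obj) (j : ℕ) : Set ((T σ).W.H X) :=
  {c | IsHodge (T σ) X j c ∧ ∀ τ, c ∈ Gr κ σ τ X j}

theorem hcl_abs : HCl (T σ) (Ga κ σ) where
  hd X j c hc := hc.1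
  cy X j z hz := ⟨cy_hd (T σ) ⟨z, hz, rfl⟩, fun τ =>
    ⟨(T τ).W.cl X z, cy_hd (T τ) ⟨z, hz, rfl⟩, r_cyc κ σ τ X j z hz⟩⟩
  mul X i j a ha b hb := ⟨hd_mul (T σ) ha.1 hb.1, fun τ => gr_mul κ (ha.2 τ) (hb.2 τ)⟩
  map X Y f j c hc := ⟨hd_map f hc.1, fun τ => gr_map κ f (hc.2 τ)⟩
  span X j c hc := by
    induction hc using Submodule.span_induction with
    | mem c hc => exact hc
    | zero => exact ⟨(hdS (T σ) X j).zero_mem, fun τ => gr_zero κ X j⟩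
    | add a b _ _ ha hb =>
      exact ⟨(hdS (T σ) X j).add_mem ha.1 hb.1, fun τ => gr_add κ (ha.2 τ) (hb.2 τ)⟩
    | smul r a _ ha => exact ⟨(hdS (T σ) X j).smul_mem r ha.1, fun τ => gr_smul κ r (ha.2 τ)⟩

theorem relH_abs {V : HS (T σ).W.K} {X W : 𝒱.Obj} {f : X ⟶ W}
    (h : (pull (T σ) f).Model X.dim V) : RelH (T := T σ) (Ga κ σ) (toHG V) f := by
  obtain ⟨g, h1, h2, h3, h4⟩ := h
  refine ⟨g, h1, fun v hv => h2 (hv.trans (map_zero
    (show V.V →ₗ[(T σ).W.K] (T σ).W.H X from g)).symm), fun v => h3 _ ⟨v, rfl⟩, fun y => ?_⟩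
  obtain ⟨c, hc, _, ⟨v, rfl⟩, hv⟩ := h4 y
  refine ⟨c, (Submodule.span_mono ?_) hc, v, hv⟩
  rintro _ ⟨j, a, ⟨z, hz, rfl⟩, b, rfl⟩
  exact ⟨j, (T σ).W.cl X z, (hcl_abs κ σ).cy X j z hz, b, rfl⟩

end one

section fam

variable {J : Type} {T : J → Theory ops} {σ : J} {ι : Type} {V : ι → HS (T σ).W.K} {d : ι → ℕ}
  (hV : FullFam V d)

include hV

/-- **The theorem on sections.** -/
theorem descA (hp : ∀ X : 𝒱.Obj, (coho (T σ) X).str.Polarisable) (κ : Comparison T)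
    {F : Secs 𝒱 ι} (hF : Relative (T σ) V F) :
    AbsDescent κ σ V (fun U => Exc (fun i => rep (toHG (V i))) (rep (toHG U))) F := by
  intro m U Z L hZ hgen hL H j c hc
  have h1 := relG (T σ) hV (hcl_abs κ σ) hp hZ (fun i => relH_abs κ σ (hF i)) hL hgen
    (fun j c hc => (hcl_abs κ σ).map _ _ (resL F L Z) j c ⟨hc, fun τ => H j c hc τ⟩) hc
  exact h1.2

end fam

section abel

variable {T : Theory ops} {ι : Type} {V : ι → HS T.W.K} {d : ι → ℕ}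

theorem lvlA {U : HS T.W.K} (h : U.Abelian) : Lvl (toHG U) 1 := by
  intro k
  have h1 := h.types _ _ (num_ne (M := U) (e_mem (toHG U) k) (e_ne (toHG U) k))
  omega

theorem wtA {U : HS T.W.K} (h : U.Abelian) : Wt (toHG U) := by
  refine wt_of_pure (w := 1) fun k => ?_
  have h1 := h.types _ _ (num_ne (M := U) (e_mem (toHG U) k) (e_ne (toHG U) k))
  omega

theorem excA (hV : FullFam V d) : AbsExceptions V d
    (fun U => Exc (fun i => rep (toHG (V i))) (rep (toHG U))) := by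
  have h0 := excS T hV
  refine ⟨h0.few, h0.level, h0.size, ?_⟩
  have hK := charK T.W.K
  intro U i hU hd hb hi'
  obtain ⟨ψ, hψ⟩ := hV.full i
  have hl := lvlA hU
  have hd' : (1 : ℤ) < (d i : ℤ) := by exact_mod_cast hd
  refine hi' (spl_of_big hψ ((pol_iff _).1 hU.polarisable) (wtA hU) (fun k => ?_) ?_ hb)
  · exact ⟨(hl k).1.trans hd'.le, (neg_le_neg hd'.le).trans (hl k).2⟩
  · exact apart_lvl (fullX_of hψ) hl hd'

end abel

/-- **The theorem.** -/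
theorem abs_dec {J : Type} {T : J → Theory ops} (κ : Comparison T) (σ : J) {ι : Type}
    {V : ι → HS (T σ).W.K} {d : ι → ℕ} (hV : FullFam V d)
    (hp : ∀ X : 𝒱.Obj, (coho (T σ) X).str.Polarisable) :
    ∃ E : HS (T σ).W.K → Set ι, AbsExceptions V d E ∧
      ∀ S : Secs 𝒱 ι, Relative (T σ) V S → AbsDescent κ σ V E S :=
  ⟨_, excA (T := T σ) hV, fun _ hF => descA hV hp κ hF⟩

end Pool.Agent.U233.HG.St
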