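import Pool.Agent.U233.AM.Tow
import Pool.Agent.U233.PW.HTow

/-!
# Sections and Hodge classes
-/

set_option autoImplicit false
set_option linter.unusedSectionVars false

open CategoryTheory AlgebraicGeometry TensorProduct

universe u

namespace Pool.Agent.U233.AM

open Module Pool.Agent.N179 Pool.Agent.N179.DB Pool.Agent.N179.GR.S
open Pool.Agent.N179.GR (Der InDer SemiS algR full Spl Θ_mul Θ_one)
open Pool.Agent.N179.DB.S (Cx tens gal bc cx_ind tens_add tens_smul smul_tens exists_tens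
  inF_tens bx_apply bc_tens bc_gal gal_add gal_tens galB gal_mul gr' gr'_eq gal_gr' mem_of_base
  span_alg algS algT base_mul)
open Pool.Agent.H914 Pool.Agent.H914.VarClass Pool.Agent.H914.VarClass.Obj
  Pool.Agent.H914.WeilCohomology Pool.Agent.TH125.Gal Pool.Agent.W552 Pool.Agent.H281R3.HT
open Pool.Agent.U233.HG.St (Theory coho prd)
open Pool.Agent.Y133.Per (Base baseMap baseTr tm base_ind baseTr_tm baseMap_tm tm_mul)
open Pool.Agent.U233.PW Pool.Agent.U233.HG

noncomputable section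

variable {k : Type u} [Field k] {𝒱 : VarClass k} {ops : CycleOps 𝒱} (T : Theory ops)

/-- the system of the actions on the cohomology -/
def sys (h : ∀ X : 𝒱.Obj, Polarisable (coh T X)) : Sys (baseW T.W ℂ) (HGp T.W.K) where
  χ := ch T
  act X := (var T X).act
  gal := isGal T
  nat f := intertwines T f
  semi X := semiS_coh (ss_var T (h X))

/-- a class of Hodge classes which contains the algebraic classes -/
structure HCl (G : ∀ X : 𝒱.Obj, ℕ → Set (T.W.H X)) : Prop where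
  hd : ∀ (X : 𝒱.Obj) j, ∀ c ∈ G X j, IsHodge T X j c
  cy : ∀ (X : 𝒱.Obj) j z, X.IsCyc j z → T.W.cl X z ∈ G X j
  mul : ∀ (X : 𝒱.Obj) i j, ∀ a ∈ G X i, ∀ b ∈ G X j, a * b ∈ G X (i + j)
  map : ∀ (X Y : 𝒱.Obj) (f : X ⟶ Y) j, ∀ c ∈ G Y j, T.W.map f c ∈ G X j
  span : ∀ (X : 𝒱.Obj) j, ∀ c ∈ Submodule.span T.W.K (G X j), c ∈ G X j

variable {T} {hp : ∀ X : 𝒱.Obj, Polarisable (coh T X)} {G : ∀ X : 𝒱.Obj, ℕ → Set (T.W.H X)}

/-- the classes with complex coefficients -/
def cl (hp : ∀ X : 𝒱.Obj, Polarisable (coh T X)) (hG : HCl T G) : Cl (sys T hp) where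
  C X j := {x : Base T.W.K (T.W.H X) | ∃ c ∈ G X j, x = tm 1 c}
  gr := by
    rintro X j _ ⟨c, hc, rfl⟩
    have h1 : (tm 1 c : Base T.W.K (T.W.H X)) ∈ gr' T.W X (2 * j) := by
      rw [gr'_eq]
      exact Submodule.subset_span ⟨c, (hG.hd X j c hc).1, rfl⟩
    exact h1
  tw := by
    rintro X j _ ⟨c, hc, rfl⟩ g
    exact hodge_tw T (hG.hd X j c hc) g
  alg := by
    rintro X j _ ⟨z, hz, rfl⟩
    exact ⟨T.W.cl X z, hG.cy X j z hz, rfl⟩
  mul := by
    rintro X i j _ ⟨a, ha, rfl⟩ _ ⟨b, hb, rfl⟩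
    refine ⟨a * b, hG.mul X i j a ha b hb, ?_⟩
    have h1 := tm_mul (K := T.W.K) 1 1 a b
    rw [one_mul] at h1
    exact h1
  map := by
    rintro X Y f j _ ⟨c, hc, rfl⟩
    exact ⟨T.W.map f c, hG.map X Y f j c hc, baseMap_tm _ _ _⟩

variable {hG : HCl T G}

theorem cl_sp {X : 𝒱.Obj} {x : Base T.W.K (T.W.H X)} : x ∈ (cl hp hG).sp X ↔
    x ∈ Submodule.span ℂ {x : Base T.W.K (T.W.H X) | ∃ j, ∃ c ∈ G X j, x = tm 1 c} := Iff.rfl

/-- the Hodge classes become classes in `G` -/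
theorem pulls_of {X Y : 𝒱.Obj} {f : X ⟶ Y} (h : ∀ j c, IsHodge T Y j c → T.W.map f c ∈ G X j) :
    (cl hp hG).Pulls f := by
  rintro j b ⟨hb, Δ, hΔ, hfix⟩
  have h1 := tw_hodge T hb hΔ hfix
  have h2 : Submodule.span ℂ {x : Base T.W.K (T.W.H Y) | ∃ c, IsHodge T Y j c ∧ x = tm 1 c} ≤
      ((cl hp hG).sp X).comap (show Base T.W.K (T.W.H Y) →ₗ[ℂ] Base T.W.K (T.W.H X) from
        ((baseW T.W ℂ).map f).toLinearMap) := by
    refine Submodule.span_le.2 ?_
    rintro _ ⟨c, hc, rfl⟩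
    have h4 : (baseMap (T.W.map f) (tm 1 c) : Base T.W.K (T.W.H X)) = tm 1 (T.W.map f c) :=
      baseMap_tm _ _ _
    have h6 : (baseMap (T.W.map f) (tm 1 c) : Base T.W.K (T.W.H X)) ∈ (cl hp hG).sp X := by
      rw [h4]
      exact Submodule.subset_span ⟨j, _, h j c hc, rfl⟩
    exact h6
  exact h2 h1

/-- all Hodge classes belong to `G` -/
theorem hd_of {X : 𝒱.Obj} (h : (cl hp hG).Pulls (𝟙 X)) {j : ℕ} {c : T.W.H X}
    (hc : IsHodge T X j c) : c ∈ G X j := by
  have h0 : (tm 1 c : Base T.W.K (T.W.H X)) ∈ gr' T.W X (2 * j) := by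
    rw [gr'_eq]
    exact Submodule.subset_span ⟨c, hc.1, rfl⟩
  have h1 := h j (tm 1 c : Base T.W.K (T.W.H X)) ⟨h0, ⊤, inferInstance, fun g _ =>
    hodge_tw T hc g⟩
  rw [WeilCohomology.map_id] at h1
  have h2 : c ∈ Submodule.span T.W.K {c | ∃ j, c ∈ G X j} := by
    refine mem_of_base _ ?_
    refine (Submodule.span_mono ?_) (cl_sp.1 h1)
    rintro _ ⟨j, c, hc, rfl⟩
    exact ⟨c, Submodule.subset_span ⟨j, hc⟩, rfl⟩
  have h3 : Submodule.span T.W.K {c | ∃ j, c ∈ G X j} ≤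
      (Submodule.span T.W.K (G X j)).comap (proj (T.W.isInternal X) (2 * j)) := by
    refine Submodule.span_le.2 ?_
    rintro a ⟨i, ha⟩
    rw [SetLike.mem_coe, Submodule.mem_comap]
    by_cases hij : i = j
    · subst hij
      rw [proj_same _ (hG.hd X i a ha).1]
      exact Submodule.subset_span ha
    · rw [proj_ne _ (hG.hd X i a ha).1 (by omega)]
      exact Submodule.zero_mem _
  have h4 := h3 h2
  rw [Submodule.mem_comap, proj_same _ hc.1] at h4
  exact hG.span X j c h4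

/-- the cohomology of `X` is the sum of `V` and of the products of classes in `G` and of classes which
come from `B` -/
def RelH (G : ∀ X : 𝒱.Obj, ℕ → Set (T.W.H X)) (V : HS T.W.K) {X B : 𝒱.Obj} (i : X ⟶ B) : Prop :=
  ∃ f : V.V →ₗ[T.W.K] T.W.H X, IsHom (M := V) (N := coh T X) f ∧ (∀ v, f v = 0 → v = 0) ∧
    (∀ v, f v ∈ T.W.gr X X.dim) ∧ ∀ x, ∃ c ∈ Submodule.span T.W.K {c | ∃ j, ∃ a ∈ G X j, ∃ b,
      c = a * T.W.map i b}, ∃ v, x = c + f v

theorem prs_of {X B : 𝒱.Obj} {i : X ⟶ B} {c : T.W.H X}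
    (hc : c ∈ Submodule.span T.W.K {c | ∃ j, ∃ a ∈ G X j, ∃ b, c = a * T.W.map i b}) :
    (tm 1 c : Base T.W.K (T.W.H X)) ∈ Submodule.span (baseW T.W ℂ).K ((cl hp hG).prs i) := by
  induction hc using Submodule.span_induction with
  | mem c hc =>
    obtain ⟨j, a, ha, b, rfl⟩ := hc
    refine Submodule.subset_span ⟨j, (tm 1 a : Base T.W.K (T.W.H X)), ⟨a, ha, rfl⟩,
      (tm 1 b : Base T.W.K (T.W.H B)), ?_⟩
    have h1 := tm_mul (K := T.W.K) 1 1 a (T.W.map i b)
    rw [one_mul] at h1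
    refine h1.symm.trans ?_
    exact congrArg (fun z : Base T.W.K (T.W.H X) => tm 1 a * z)
      (baseMap_tm (T.W.map i) 1 b).symm
  | zero =>
    have h1 : (tm 1 (0 : T.W.H X) : Base T.W.K (T.W.H X)) = 0 := TensorProduct.tmul_zero _ _
    rw [h1]
    exact Submodule.zero_mem _
  | add x y _ _ hx hy =>
    have h1 : (tm 1 (x + y) : Base T.W.K (T.W.H X)) = tm 1 x + tm 1 y := tens_add 1 x y
    rw [h1]
    exact Submodule.add_mem _ hx hy
  | smul q x _ hx =>
    have h1 : (tm 1 (q • x) : Base T.W.K (T.W.H X)) = algebraMap T.W.K ℂ q • tm 1 x := by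
      have h2 := tens_smul (K := T.W.K) q x 1
      have h3 := smul_tens (K := T.W.K) (algebraMap T.W.K ℂ q) 1 x
      exact h2.trans h3.symm
    rw [h1]
    exact Submodule.smul_mem _ (algebraMap T.W.K ℂ q : (baseW T.W ℂ).K) hx

theorem rel_of {V : HS T.W.K} {X B : 𝒱.Obj} {i : X ⟶ B} (h : RelH G V i) :
    ∃ f : (repW T V).V →ₗ[(baseW T.W ℂ).K] (baseW T.W ℂ).H X,
      RelF (cl hp hG) i (repW T V).hom f := by
  obtain ⟨f₀, h1, h2, h3, h4⟩ := h
  refine ⟨(show Cx T.W.K V.V →ₗ[ℂ] Cx T.W.K (T.W.H X) from bc f₀), fun g v => ?_, ?_,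
    fun v => ?_, fun x => ?_⟩
  · exact rho_lin (M := V) (N := coh T X) f₀ h1 g v
  · have h5 : Function.Injective f₀ := (injective_iff_map_eq_zero _).2 h2
    exact Module.Flat.lTensor_preserves_injective_linearMap (M := ℂ) f₀ h5
  · have key : ∀ v : Cx T.W.K V.V, (bc f₀ v : Cx T.W.K (T.W.H X)) ∈ gr' T.W X X.dim := by
      intro v
      refine cx_ind (p := fun v => (bc f₀ v : Cx T.W.K (T.W.H X)) ∈ gr' T.W X X.dim) ?_ ?_ ?_ v
      · rw [map_zero]
        exact Submodule.zero_mem _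
      · intro r c
        rw [bc_tens]
        exact Submodule.tmul_mem_baseChange_of_mem r (h3 c)
      · intro a b ha hb
        rw [map_add]
        exact Submodule.add_mem _ ha hb
    exact key v
  · have key : ∀ x : Cx T.W.K (T.W.H X), ∃ c : Base T.W.K (T.W.H X),
        c ∈ Submodule.span (baseW T.W ℂ).K ((cl hp hG).prs i) ∧ ∃ v : Cx T.W.K V.V,
          (show Base T.W.K (T.W.H X) from x) = c + (show Base T.W.K (T.W.H X) from bc f₀ v) := by
      intro x
      refine cx_ind (p := fun x => ∃ c : Base T.W.K (T.W.H X),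
        c ∈ Submodule.span (baseW T.W ℂ).K ((cl hp hG).prs i) ∧ ∃ v : Cx T.W.K V.V,
          (show Base T.W.K (T.W.H X) from x) = c + (show Base T.W.K (T.W.H X) from bc f₀ v))
          ?_ ?_ ?_ x
      · refine ⟨0, Submodule.zero_mem _, 0, ?_⟩
        have h6 : (bc f₀ (0 : Cx T.W.K V.V) : Cx T.W.K (T.W.H X)) = 0 := map_zero _
        rw [h6, zero_add]
      · intro r y
        obtain ⟨c, hc, v, rfl⟩ := h4 y
        refine ⟨r • (tm 1 c : Base T.W.K (T.W.H X)),
          Submodule.smul_mem _ (r : (baseW T.W ℂ).K) (prs_of hc), tens r v, ?_⟩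
        have h6 : (bc f₀ (tens r v) : Cx T.W.K (T.W.H X)) = tens r (f₀ v) := bc_tens _ _ _
        have h7 : (tens r (c + f₀ v) : Cx T.W.K (T.W.H X)) = tens r c + tens r (f₀ v) :=
          tens_add r c (f₀ v)
        have h8 : (tens r c : Cx T.W.K (T.W.H X)) = r • tens 1 c := by rw [smul_tens, mul_one]
        have h9 : (show Base T.W.K (T.W.H X) from tens r (c + f₀ v)) =
            (show Base T.W.K (T.W.H X) from tens r c) +
              (show Base T.W.K (T.W.H X) from tens r (f₀ v)) := h7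
        refine h9.trans ?_
        rw [h6]
        exact congrArg (· + (show Base T.W.K (T.W.H X) from tens r (f₀ v))) h8
      · rintro a b ⟨c, hc, v, ha⟩ ⟨c', hc', v', hb⟩
        refine ⟨c + c', Submodule.add_mem _ hc hc', v + v', ?_⟩
        have h6 : (bc f₀ (v + v') : Cx T.W.K (T.W.H X)) = bc f₀ v + bc f₀ v' := map_add _ _ _
        have h7 : (show Base T.W.K (T.W.H X) from bc f₀ (v + v')) =
          (show Base T.W.K (T.W.H X) from bc f₀ v) +
            (show Base T.W.K (T.W.H X) from bc f₀ v') := h6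
        rw [h7]
        have h8 : (show Base T.W.K (T.W.H X) from a + b) =
          (show Base T.W.K (T.W.H X) from a) + (show Base T.W.K (T.W.H X) from b) := rfl
        rw [h8, ha, hb]
        abel
    exact key x

/-- the classes in the algebra generated by the `U a` are killed -/
theorem kill_adj {m : ℕ} {U : Fin m → HS T.W.K} {X : 𝒱.Obj}
    {D : Der (baseW T.W ℂ).K (HGp T.W.K)} (hD : InDer 1 D)
    (h0 : ∀ a, D.Θ (fl (repW T (U a))) = 0) {x : Base T.W.K (T.W.H X)}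
    (hx : x ∈ Algebra.adjoin ℂ (pureCl T X ∪ imgCl T U X)) :
    D.Θ (AR (var T X)) x = 0 := by
  refine kill_set (P := var T X) (U := fun a => repW T (U a)) hD h0
    (A := (pureCl T X ∪ imgCl T U X : Set (Base T.W.K (T.W.H X)))) (fun s hs => ?_) hx
  rcases hs with hs | hs
  · exact Or.inl ((mem_pureCl T).1 hs)
  · exact Or.inr (images_of_img T U hs)

/-- the classes which come from `B` are generated by the `U a` -/
def GenH {m : ℕ} (U : Fin m → HS T.W.K) {X B : 𝒱.Obj} (i : X ⟶ B) : Prop :=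
  ∀ b : T.W.H B, (tm 1 (T.W.map i b) : Base T.W.K (T.W.H X)) ∈
    Algebra.adjoin ℂ (pureCl T X ∪ imgCl T U X)

theorem gen_kill {m : ℕ} {U : Fin m → HS T.W.K} {X B : 𝒱.Obj} {i : X ⟶ B} (h : GenH U i)
    {D : Der (baseW T.W ℂ).K (HGp T.W.K)} (hD : InDer 1 D)
    (h0 : ∀ a, D.Θ (fl (repW T (U a))) = 0) (b : (baseW T.W ℂ).H B) :
    D.Θ (AR (var T X)) ((baseW T.W ℂ).map i b) = 0 := by
  refine kill_adj hD h0 (x := baseMap (T.W.map i) b) ?_
  have key : ∀ b : Cx T.W.K (T.W.H B), baseMap (T.W.map i) (show Base T.W.K (T.W.H B) from b) ∈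
      Algebra.adjoin ℂ (pureCl T X ∪ imgCl T U X) := by
    intro b
    refine cx_ind (p := fun b => baseMap (T.W.map i) (show Base T.W.K (T.W.H B) from b) ∈
      Algebra.adjoin ℂ (pureCl T X ∪ imgCl T U X)) ?_ ?_ ?_ b
    · have h1 : baseMap (T.W.map i) (show Base T.W.K (T.W.H B) from (0 : Cx T.W.K (T.W.H B))) =
        0 := map_zero (baseMap (T.W.map i))
      rw [h1]
      exact zero_mem _
    · intro r b
      have h1 : baseMap (T.W.map i) (show Base T.W.K (T.W.H B) from tens r b) =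
          r • (tm 1 (T.W.map i b) : Base T.W.K (T.W.H X)) := by
        have h2 := smul_tens (K := T.W.K) r 1 (T.W.map i b)
        rw [mul_one] at h2
        exact (baseMap_tm (T.W.map i) r b).trans h2.symm
      rw [h1]
      exact Subalgebra.smul_mem _ (h b) r
    · intro a b ha hb
      have h1 : baseMap (T.W.map i) (show Base T.W.K (T.W.H B) from a + b) =
          baseMap (T.W.map i) (show Base T.W.K (T.W.H B) from a) +
            baseMap (T.W.map i) (show Base T.W.K (T.W.H B) from b) :=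
        map_add (baseMap (T.W.map i)) _ _
      rw [h1]
      exact add_mem ha hb
  exact key b

end

end Pool.Agent.U233.AM
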