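import Pool.Agent.U233.AM.Fft

/-!
# Lifting semi-invariant vectors, and the semi-invariant classes relative to another variety
-/

set_option autoImplicit false
set_option linter.unusedSectionVars false

open CategoryTheory AlgebraicGeometry Finset

universe u

namespace Pool.Agent.U233.AM

open Module Pool.Agent.N179.GR Pool.Agent.U233.FG Pool.Agent.TH125.Gal Pool.Agent.U233.TF

noncomputable section

section lift

variable {K : Type} [Field K] {Γ : Type} [Group Γ] {A E : Type} [AddCommGroup A] [Module K A]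
  [FiniteDimensional K A] [AddCommGroup E] [Module K E] [FiniteDimensional K E]
  {rA : Γ →* Module.End K A} {rE : Γ →* Module.End K E}

/-- equivariant up to a character -/
def Tw (rA : Γ →* Module.End K A) (rE : Γ →* Module.End K E) (x : (A →ₗ[K] E) × (Γ → Kˣ)) :
    Prop := ∀ g a, rE g (x.1 a) = (x.2 g : K) • x.1 (rA g a)

theorem lift_one (hA : SemiS rA) {f : A →ₗ[K] E} {μ : Γ → Kˣ} (hf : Tw rA rE (f, μ)) {a₀ : A}
    {Δ : Subgroup Γ} {lam : Γ → K} (hl : ∀ g ∈ Δ, rE g (f a₀) = lam g • f a₀) :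
    ∃ a, f a₀ = f a ∧ ∀ g ∈ Δ, (μ g : K) • rA g a = lam g • a := by
  have hst : Stab rA (LinearMap.ker f) := by
    intro g x hx
    rw [LinearMap.mem_ker] at hx ⊢
    have h1 := hf g x
    have h2 : (f, μ).1 x = 0 := hx
    rw [h2, map_zero] at h1
    exact (smul_eq_zero.1 h1.symm).resolve_left (Units.ne_zero (μ g))
  obtain ⟨B, hB, hc⟩ := hA _ hst
  obtain ⟨c, hc1, b, hb, rfl⟩ := Submodule.mem_sup.1 (hc.sup_eq_top ▸ Submodule.mem_top : a₀ ∈ _)
  have hcb : f (c + b) = f b := by rw [map_add, LinearMap.mem_ker.1 hc1, zero_add]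
  refine ⟨b, hcb, fun g hg => ?_⟩
  rw [hcb] at hl
  have h1 : (μ g : K) • rA g b - lam g • b ∈ LinearMap.ker f := by
    rw [LinearMap.mem_ker, map_sub, map_smul, map_smul, ← hl g hg]
    have h2 : rE g (f b) = (μ g : K) • f (rA g b) := hf g b
    rw [h2, sub_self]
  have h2 : (μ g : K) • rA g b - lam g • b ∈ B :=
    B.sub_mem (B.smul_mem _ (hB g b hb)) (B.smul_mem _ hb)
  exact sub_eq_zero.1 (Submodule.disjoint_def.1 hc.disjoint _ h1 h2)

/-- **Lifting semi-invariant vectors.** -/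
theorem lift_sum (hA : SemiS rA) (hE : SemiS rE) {Δ : Subgroup Γ} {lam : Γ → K} : ∀ (n : ℕ)
    (L : List ((A →ₗ[K] E) × (Γ → Kˣ))), L.length = n → (∀ x ∈ L, Tw rA rE x) → ∀ c : E,
    c ∈ Submodule.span K {y | ∃ x ∈ L, ∃ a, y = x.1 a} → (∀ g ∈ Δ, rE g c = lam g • c) →
    c ∈ Submodule.span K {y | ∃ x ∈ L, ∃ a, (∀ g ∈ Δ, (x.2 g : K) • rA g a = lam g • a) ∧
      y = x.1 a}
  | 0, [], _, _, c, hc, _ => by
    have h1 : {y : E | ∃ x ∈ ([] : List ((A →ₗ[K] E) × (Γ → Kˣ))), ∃ a, y = x.1 a} = ∅ := by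
      ext y
      simp
    rw [h1, Submodule.span_empty, Submodule.mem_bot] at hc
    rw [hc]
    exact Submodule.zero_mem _
  | n + 1, (f, μ) :: L, hn, hL, c, hc, hl => by
    have hf : Tw rA rE (f, μ) := hL _ List.mem_cons_self
    have hst : Stab rE (LinearMap.range f) := by
      rintro g _ ⟨a, rfl⟩
      have h1 : rE g (f a) = (μ g : K) • f (rA g a) := hf g a
      rw [h1]
      exact Submodule.smul_mem _ _ ⟨_, rfl⟩
    obtain ⟨π, h1, h2, h3⟩ := SemiS.exists_proj hE hst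
    let q : E →ₗ[K] E := LinearMap.id - π
    have hq : ∀ x, q x = x - π x := fun x => rfl
    have hqf : ∀ a, q (f a) = 0 := fun a => by rw [hq, h1 _ ⟨a, rfl⟩, sub_self]
    have hqe : ∀ g x, q (rE g x) = rE g (q x) := fun g x => by
      rw [hq, hq, h3, map_sub]
    let L' : List ((A →ₗ[K] E) × (Γ → Kˣ)) := L.map fun x => (q ∘ₗ x.1, x.2)
    have hL' : ∀ x ∈ L', Tw rA rE x := by
      intro x hx
      obtain ⟨y, hy, rfl⟩ := List.mem_map.1 hx
      intro g a
      have h4 := hL y (List.mem_cons_of_mem _ hy) g a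
      change rE g (q (y.1 a)) = (y.2 g : K) • q (y.1 (rA g a))
      rw [← hqe, h4, map_smul]
    have hqc : q c ∈ Submodule.span K {y | ∃ x ∈ L', ∃ a, y = x.1 a} := by
      have h4 : Submodule.span K {y | ∃ x ∈ (f, μ) :: L, ∃ a, y = x.1 a} ≤
          (Submodule.span K {y | ∃ x ∈ L', ∃ a, y = x.1 a}).comap q := by
        refine Submodule.span_le.2 ?_
        rintro _ ⟨x, hx, a, rfl⟩
        rw [SetLike.mem_coe, Submodule.mem_comap]
        rcases List.mem_cons.1 hx with rfl | hx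
        · have h5 : q ((f, μ).1 a) = 0 := hqf a
          rw [h5]
          exact Submodule.zero_mem _
        · exact Submodule.subset_span ⟨_, List.mem_map.2 ⟨x, hx, rfl⟩, a, rfl⟩
      exact h4 hc
    have ih := lift_sum hA hE n L' (by
      rw [List.length_map]
      exact Nat.succ.inj hn) hL' (q c) hqc fun g hg => by
        rw [← hqe, hl g hg, map_smul]
    obtain ⟨c2, hc2, hc2q⟩ : ∃ c2 ∈ Submodule.span K {y | ∃ x ∈ L, ∃ a,
        (∀ g ∈ Δ, (x.2 g : K) • rA g a = lam g • a) ∧ y = x.1 a}, q c2 = q c := by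
      have h4 : Submodule.span K {y | ∃ x ∈ L', ∃ a,
          (∀ g ∈ Δ, (x.2 g : K) • rA g a = lam g • a) ∧ y = x.1 a} ≤
          (Submodule.span K {y | ∃ x ∈ L, ∃ a,
            (∀ g ∈ Δ, (x.2 g : K) • rA g a = lam g • a) ∧ y = x.1 a}).map q := by
        refine Submodule.span_le.2 ?_
        rintro _ ⟨x, hx, a, ha, rfl⟩
        obtain ⟨y, hy, rfl⟩ := List.mem_map.1 hx
        exact ⟨y.1 a, Submodule.subset_span ⟨y, hy, a, ha, rfl⟩, rfl⟩
      exact h4 ih
    have hsi : ∀ g ∈ Δ, rE g c2 = lam g • c2 := by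
      intro g hg
      have h4 : Submodule.span K {y | ∃ x ∈ L, ∃ a,
          (∀ g ∈ Δ, (x.2 g : K) • rA g a = lam g • a) ∧ y = x.1 a} ≤
          LinearMap.eqLocus (rE g) (lam g • LinearMap.id) := by
        refine Submodule.span_le.2 ?_
        rintro _ ⟨x, hx, a, ha, rfl⟩
        have h5 := hL x (List.mem_cons_of_mem _ hx) g a
        change rE g (x.1 a) = lam g • x.1 a
        rw [h5, ← map_smul, ha g hg, map_smul]
      exact h4 hc2
    have hker : π (c - c2) = c - c2 := by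
      have h4 : q (c - c2) = 0 := by rw [map_sub, hc2q, sub_self]
      rw [hq] at h4
      exact (sub_eq_zero.1 h4).symm
    obtain ⟨a₀, ha₀⟩ := h2 (c - c2)
    rw [hker] at ha₀
    obtain ⟨a, ha, ha'⟩ := lift_one hA hf (a₀ := a₀) (Δ := Δ) (lam := lam) fun g hg => by
      rw [ha₀, map_sub, hl g hg, hsi g hg, smul_sub]
    have h5 : c = f a + c2 := by rw [← ha, ha₀, sub_add_cancel]
    rw [h5]
    refine Submodule.add_mem _ (Submodule.subset_span ⟨_, List.mem_cons_self, a, ha', rfl⟩) ?_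
    refine (Submodule.span_mono ?_) hc2
    rintro _ ⟨x, hx, a, ha, rfl⟩
    exact ⟨x, List.mem_cons_of_mem _ hx, a, ha, rfl⟩

/-- the version for sets -/
theorem lift_set (hA : SemiS rA) (hE : SemiS rE) {Δ : Subgroup Γ} {lam : Γ → K}
    {S : Set ((A →ₗ[K] E) × (Γ → Kˣ))} (hS : ∀ x ∈ S, Tw rA rE x) {c : E}
    (hc : c ∈ Submodule.span K {y | ∃ x ∈ S, ∃ a, y = x.1 a})
    (hl : ∀ g ∈ Δ, rE g c = lam g • c) :
    c ∈ Submodule.span K {y | ∃ x ∈ S, ∃ a, (∀ g ∈ Δ, (x.2 g : K) • rA g a = lam g • a) ∧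
      y = x.1 a} := by
  obtain ⟨L, hL, hc'⟩ : ∃ L : List ((A →ₗ[K] E) × (Γ → Kˣ)), (∀ x ∈ L, x ∈ S) ∧
      c ∈ Submodule.span K {y | ∃ x ∈ L, ∃ a, y = x.1 a} := by
    clear hl
    induction hc using Submodule.span_induction with
    | mem c hc =>
      obtain ⟨x, hx, a, rfl⟩ := hc
      exact ⟨[x], by simpa using hx, Submodule.subset_span ⟨x, List.mem_cons_self, a, rfl⟩⟩
    | zero => exact ⟨[], by simp, Submodule.zero_mem _⟩
    | add x y _ _ hx hy =>
      obtain ⟨L, hL, h1⟩ := hx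
      obtain ⟨L', hL', h2⟩ := hy
      refine ⟨L ++ L', fun x hx => (List.mem_append.1 hx).elim (hL x) (hL' x),
        Submodule.add_mem _ ((Submodule.span_mono ?_) h1) ((Submodule.span_mono ?_) h2)⟩
      · rintro _ ⟨x, hx, a, rfl⟩
        exact ⟨x, List.mem_append_left _ hx, a, rfl⟩
      · rintro _ ⟨x, hx, a, rfl⟩
        exact ⟨x, List.mem_append_right _ hx, a, rfl⟩
    | smul q x _ hx =>
      obtain ⟨L, hL, h1⟩ := hx
      exact ⟨L, hL, Submodule.smul_mem _ _ h1⟩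
  have h1 := lift_sum hA hE L.length L rfl (fun x hx => hS x (hL x hx)) c hc' hl
  refine (Submodule.span_mono ?_) h1
  rintro _ ⟨x, hx, a, ha, rfl⟩
  exact ⟨x, hL x hx, a, ha, rfl⟩

end lift

end

end Pool.Agent.U233.AM
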