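import Pool.Agent.U233.AM.Sys

/-!
# One power
-/

set_option autoImplicit false
set_option linter.unusedSectionVars false

open CategoryTheory AlgebraicGeometry Finset

universe u

namespace Pool.Agent.U233.AM

open Module Pool.Agent.N179.GR Pool.Agent.U233.FG Pool.Agent.TH125.Gal Pool.Agent.U233.TF
open Pool.Agent.H914 Pool.Agent.H914.VarClass Pool.Agent.H914.VarClass.Obj
  Pool.Agent.H914.WeilCohomology Pool.Agent.H281R3.HT Pool.Agent.W552
open Pool.Agent.U233.AH (Tt)
open Pool.Agent.U233.PW (FullN)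
open Pool.Agent.U233.HG.St (pow)

noncomputable section

variable {k : Type u} [Field k] {𝒱 : VarClass k} {ops : CycleOps 𝒱}
  {W : WeilCohomology.{u, 0} ops} {Γ : Type} [Group Γ]
  {V : Type} [AddCommGroup V] [Module W.K V] [FiniteDimensional W.K V]
  {r : Γ →* Module.End W.K V} {ψ : V →ₗ[W.K] V →ₗ[W.K] W.K} {μ : Γ →* W.Kˣ}
  {X B Y Y' : 𝒱.Obj} {i : X ⟶ B} {f : V →ₗ[W.K] W.H X}

/-- the cohomology of `X` is the sum of `V` and of the algebra generated by the image of the
cohomology of `B` and by the classes in `C` -/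
structure RelF {S : Sys W Γ} (C : Cl S) (i : X ⟶ B) (r : Γ →* Module.End W.K V)
    (f : V →ₗ[W.K] W.H X) : Prop where
  equi : ∀ g v, f (r g v) = S.act X g (f v)
  inj : Function.Injective f
  mid : ∀ v, f v ∈ W.gr X X.dim
  sum : ∀ x, ∃ c ∈ Submodule.span W.K (C.prs i), ∃ v, x = c + f v

/-- the image of the cohomology of `B` -/
def im (W : WeilCohomology.{u, 0} ops) (i : X ⟶ B) : Submodule W.K (W.H X) :=
  LinearMap.range (W.map i).toLinearMap

/-- the skew operators lift to derivations which kill the image of the cohomology of `B` and the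
cohomology of `Y` -/
def LiftSk (S : Sys W Γ) (r : Γ →* Module.End W.K V) (ψ : V →ₗ[W.K] V →ₗ[W.K] W.K) (i : X ⟶ B)
    (Y : 𝒱.Obj) : Prop :=
  ∀ A ∈ TF.skew ψ, ∃ D : Der W.K Γ, InDer 1 D ∧ D.Θ (full V r) = A ∧
    (∀ b, D.Θ (full _ (algR (S.act X))) (W.map i b) = 0) ∧ D.Θ (full _ (algR (S.act Y))) = 0

variable {S : Sys W Γ} {C : Cl S}

/-- such derivations kill the algebra -/
theorem kill_prs {D : Der W.K Γ} (hD : InDer 1 D)
    (hDi : ∀ b, D.Θ (full _ (algR (S.act X))) (W.map i b) = 0) {c : W.H X}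
    (hc : c ∈ Submodule.span W.K (C.prs i)) : D.Θ (full _ (algR (S.act X))) c = 0 := by
  have h1 : Submodule.span W.K (C.prs i) ≤
      LinearMap.ker (show W.H X →ₗ[W.K] W.H X from D.Θ (full _ (algR (S.act X)))) := by
    refine Submodule.span_le.2 ?_
    rintro _ ⟨j, a, ha, b, rfl⟩
    have h2 : D.Θ (full _ (algR (S.act X))) a = 0 :=
      hD.kill ⟨⊤, inferInstance, fun g _ => ⟨_, C.tw a ha g⟩⟩
    have h3 := Θ_mul (τ := S.act X) D a (W.map i b)
    refine LinearMap.mem_ker.2 (h3.trans ?_)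
    have h4 : (0 : W.H X) * W.map i b + a * (0 : W.H X) = 0 := by
      rw [zero_mul, mul_zero, add_zero]
    exact (congrArg₂ (fun p q : W.H X => p * W.map i b + a * q) h2 (hDi b)).trans h4
  exact LinearMap.mem_ker.1 (h1 hc)

namespace RelF

variable (hf : RelF C i r f) (hV : FullN r ψ μ) (hl : LiftSk S r ψ i Y)

include hf

theorem lin (D : Der W.K Γ) (v : V) :
    f (D.Θ (full V r) v) = D.Θ (full _ (algR (S.act X))) (f v) :=
  D.lin (full V r) (full _ (algR (S.act X))) f ⟨⊤, inferInstance, fun g _ v => hf.equi g v⟩ v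

include hV hl

/-- the orthogonality -/
theorem orth (v : V) {c : W.H X} (hc : c ∈ Submodule.span W.K (C.prs i)) :
    bil W X (f v) c = 0 := by
  let l : V →ₗ[W.K] W.K := ((bil W X).flip c) ∘ₗ f
  have hl' : ∀ v, l v = bil W X (f v) c := fun v => rfl
  have h1 : ∀ A ∈ TF.skew ψ, ∀ v, l (A v) = 0 := by
    intro A hA v
    obtain ⟨D, hD, rfl, hDi, -⟩ := hl A hA
    have h4 := bil_skew (P := ⟨X, 0⟩) (S.gal X) hD (f v) c
    have h6 : bil W X (f v) (0 : W.H X) = 0 := map_zero _
    rw [hl', hf.lin]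
    have h7 : bil W X (D.Θ (full _ (algR (S.act X))) (f v)) c + bil W X (f v)
      (D.Θ (full _ (algR (S.act X))) c) = 0 := h4
    have h8 : bil W X (f v) (D.Θ (full _ (algR (S.act X))) c) = 0 := by
      rw [kill_prs hD hDi hc]
      exact h6
    rw [h8, add_zero] at h7
    exact h7
  have h2 := hV.irrV (A := LinearMap.ker l) fun Y hY a _ => LinearMap.mem_ker.2 (h1 Y hY a)
  rcases h2 with h2 | h2
  · exfalso
    obtain ⟨Y, hY, Z, hZ, hYZ⟩ := hV.exists_two
    have h3 : Y = 0 := by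
      refine LinearMap.ext fun v => ?_
      have h4 : Y v ∈ LinearMap.ker l := LinearMap.mem_ker.2 (h1 Y hY v)
      rw [h2] at h4
      exact (Submodule.mem_bot _).1 h4
    exact one_ne_zero (hYZ 1 0 (by rw [h3]; module)).1
  · have h3 : v ∈ LinearMap.ker l := h2 ▸ Submodule.mem_top
    exact LinearMap.mem_ker.1 h3

/-- **The decomposition.** -/
theorem dcmp : Dcmp W X (Submodule.span W.K (C.prs i)) (LinearMap.range f) where
  sum x := by
    obtain ⟨c, hc, v, rfl⟩ := hf.sum x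
    exact ⟨_, hc, _, ⟨v, rfl⟩, rfl⟩
  orth := by
    rintro _ ⟨v, rfl⟩ c hc
    exact hf.orth hV hl v hc
  mid := by
    rintro _ ⟨v, rfl⟩
    exact hf.mid v
  homog := by
    refine Submodule.span_le.2 ?_
    rintro _ ⟨j, a, ha, b, rfl⟩
    rw [SetLike.mem_coe]
    refine gr_induction (W.isInternal B) (p := fun b => a * W.map i b ∈
      Submodule.span W.K {x | x ∈ Submodule.span W.K (C.prs i) ∧ ∃ j, x ∈ W.gr X j}) ?_ ?_ b
    · intro l b hb
      exact Submodule.subset_span ⟨Submodule.subset_span ⟨j, a, ha, b, rfl⟩, _,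
        W.mul_mem (C.gr a ha) (W.map_mem i hb)⟩
    · intro x y hx hy
      rw [map_add, mul_add]
      exact Submodule.add_mem _ hx hy

/-- **The skew operators on the new part.** -/
theorem allSk [IsAlgClosed W.K] : AllSk (P := ⟨X, 0⟩) (Submodule.span W.K (C.prs i))
    (LinearMap.range f) (S.act X) (S.act Y) := by
  have hd := hf.dcmp hV hl
  let ψ' : V →ₗ[W.K] V →ₗ[W.K] W.K := (bil W X).compl₁₂ f f
  have hψ'a : ∀ x y, ψ' x y = bil W X (f x) (f y) := fun x y => rfl
  have hψ' : ∀ A ∈ TF.skew ψ, ∀ x y, ψ' (A x) y + ψ' x (A y) = 0 := by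
    intro A hA x y
    obtain ⟨D, hD, rfl, -, -⟩ := hl A hA
    rw [hψ'a, hψ'a, hf.lin, hf.lin]
    exact bil_skew (P := ⟨X, 0⟩) (S.gal X) hD _ _
  obtain ⟨c, hc⟩ := hV.schur hψ'
  have hc0 : c ≠ 0 := by
    rintro rfl
    rw [zero_smul] at hc
    obtain ⟨x, hx⟩ := hV.exists_ne
    have h2 : (⟨f x, ⟨x, rfl⟩⟩ : LinearMap.range f) = 0 := by
      refine hd.ndT _ fun b => ?_
      obtain ⟨y, hy⟩ := b.2
      rw [rform_apply, ← hy, ← hψ'a, hc]
      rfl
    exact hx (hf.inj ((congrArg Subtype.val h2).trans (map_zero f).symm))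
  intro A hA
  let e : V ≃ₗ[W.K] LinearMap.range f := LinearEquiv.ofInjective f hf.inj
  have he : ∀ v, (e v : W.H X) = f v := fun v => rfl
  let A' : Module.End W.K V := e.symm.toLinearMap ∘ₗ A ∘ₗ e.toLinearMap
  have hY : ∀ v, f (A' v) = (A (e v) : W.H X) := fun v => by
    rw [← he]
    exact congrArg Subtype.val (e.apply_symm_apply (A (e v)))
  have hYs : A' ∈ TF.skew ψ := by
    intro x y
    have h1 := hA (e x) (e y)
    rw [rform_apply, rform_apply, ← hY, ← hY, he, he, ← hψ'a, ← hψ'a, hc] at h1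
    have h2 : c * (ψ (A' x) y + ψ x (A' y)) = 0 := by
      rw [mul_add]
      exact h1
    exact (mul_eq_zero.1 h2).resolve_left hc0
  obtain ⟨D, hD, hDV, hDi, hDY⟩ := hl A' hYs
  refine ⟨D, hD, hDY, ?_, fun t => ?_⟩
  · exact fun c hc => kill_prs hD hDi hc
  obtain ⟨v, rfl⟩ := e.surjective t
  have h3 := hf.lin D v
  rw [hDV, hY] at h3
  exact h3.symm

/-- the data for `Amb` -/
theorem amb [IsAlgClosed W.K] {n : ℕ} (hn : Even X.dim → n + 1 < finrank W.K V) (h : Y ⟶ Y') :
    Amb C ⟨X, 0⟩ (Submodule.span W.K (C.prs i)) (LinearMap.range f) n Y (im W h)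
      ((nX ops B n).prod Y') (times (nm ops i n) h) where
  dcmp := hf.dcmp hV hl
  stR g := by
    have h1 : Submodule.span W.K (C.prs i) ≤
        (Submodule.span W.K (C.prs i)).comap (S.act X g).toLinearMap := by
      refine Submodule.span_le.2 ?_
      rintro _ ⟨j, a, ha, b, rfl⟩
      have h2 : S.act X g (a * W.map i b) = (S.χ g : W.K) ^ j • (a * W.map i (S.act B g b)) := by
        rw [map_mul, C.tw a ha g, S.nat i g b, smul_mul_assoc]
      change S.act X g (a * W.map i b) ∈ Submodule.span W.K (C.prs i)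
      rw [h2]
      exact Submodule.smul_mem _ _ (Submodule.subset_span ⟨j, a, ha, _, rfl⟩)
    exact fun c hc => h1 hc
  stT := by
    rintro g _ ⟨v, rfl⟩
    exact ⟨r g v, hf.equi g v⟩
  all := hf.allSk hV hl
  num he := by
    have h1 : finrank W.K (LinearMap.range f) = finrank W.K V :=
      (LinearEquiv.finrank_eq (LinearEquiv.ofInjective f hf.inj)).symm
    rw [h1]
    exact hn he
  imR p c hc := by
    rw [← W.map_comp]
    refine Cl.im_map (fst (nX ops X n) Y ≫ prj ops n (fun _ => (⟨X, 0⟩ : Polarized 𝒱)) p)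
      (fst (nX ops B n) Y' ≫ prj ops n (fun _ => (⟨B, 0⟩ : Polarized 𝒱)) p) ?_ (π := i)
      (Cl.mem_im.2 hc)
    rw [← Category.assoc (times (nm ops i n) h), times_fst, Category.assoc, Category.assoc,
      nm_prj]
  imZ := by
    rintro _ ⟨b, rfl⟩
    have h1 : W.map (snd (nX ops X n) Y) (W.map h b) =
        W.map (times (nm ops i n) h) (W.map (snd (nX ops B n) Y') b) := by
      rw [← W.map_comp, ← W.map_comp, times_snd]
    change W.map (snd (nX ops X n) Y) (W.map h b) ∈ _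
    rw [h1]
    exact Cl.mem_im.2 (Submodule.subset_span (Cl.prs_base _))

end RelF

theorem mem_im {P : 𝒱.Obj} (h : Y ⟶ Y') (b : W.H (P.prod Y')) : W.map (times (𝟙 P) h) b ∈
    Submodule.span W.K {x | ∃ a, ∃ z ∈ im W h, x = W.map (fst P Y) a * W.map (snd P Y) z} := by
  refine W.kunneth_induction (p := fun b => W.map (times (𝟙 P) h) b ∈
    Submodule.span W.K {x | ∃ a, ∃ z ∈ im W h, x = W.map (fst P Y) a * W.map (snd P Y) z})
    ?_ ?_ b
  · intro a b ha hb
    rw [map_add]
    exact Submodule.add_mem _ ha hb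
  · intro i j a _ b _
    refine Submodule.subset_span ⟨a, W.map h b, ⟨b, rfl⟩, ?_⟩
    rw [map_mul, ← W.map_comp, ← W.map_comp, times_fst, times_snd, Category.comp_id, W.map_comp]

/-- **One power.** -/
theorem step0 [IsAlgClosed W.K] (hf : RelF C i r f) (hV : FullN r ψ μ) (hl : LiftSk S r ψ i Y)
    {n : ℕ} (hn : Even X.dim → n + 1 < finrank W.K V) {h : Y ⟶ Y'}
    (H : C.Pulls (times (nm ops i n) h)) : C.Pulls (times (𝟙 (nX ops X n)) h) := by
  intro j b hb
  exact (hf.amb hV hl hn h).tate H (S.T_map _ hb) (mem_im h b)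

/-- **One power.** -/
theorem step [IsAlgClosed W.K] (hf : RelF C i r f) (hV : FullN r ψ μ) (hl : LiftSk S r ψ i Y)
    {n : ℕ} (hn : Even X.dim → n + 1 < finrank W.K V) {h : Y ⟶ Y'}
    (H : C.Pulls (times (powMap i n) h)) : C.Pulls (times (𝟙 (pow X n)) h) := by
  refine transport (ops := ops) i n
    (fun P P' g => C.Pulls (times g h) → C.Pulls (times (𝟙 P) h)) ?_ H
  exact fun H => step0 hf hV hl hn H

end

end Pool.Agent.U233.AM
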