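import Pool.Agent.U233.AM.Dec
import Pool.Agent.U233.AM.Def

/-!
# Morphisms of products and powers
-/

set_option autoImplicit false
set_option linter.unusedSectionVars false

open CategoryTheory AlgebraicGeometry Finset

universe u

namespace Pool.Agent.U233.AM

open Module Pool.Agent.N179.GR Pool.Agent.U233.FG Pool.Agent.TH125.Gal Pool.Agent.U233.TF
open Pool.Agent.H914 Pool.Agent.H914.VarClass Pool.Agent.H914.VarClass.Obj
  Pool.Agent.H914.WeilCohomology Pool.Agent.H281R3.HT Pool.Agent.W552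
open Pool.Agent.U233.AH (Tt)
open Pool.Agent.U233.PW (FullN)
open Pool.Agent.U233.HG.St (pow Secs prods)

noncomputable section

variable {k : Type u} [Field k] {𝒱 : VarClass k} {ops : CycleOps 𝒱}
  {W : WeilCohomology.{u, 0} ops} {Γ : Type} [Group Γ]

/-! ### morphisms of products -/

section mor

variable {X X' X'' Y Y' Y'' Z : 𝒱.Obj}

theorem prod_ext {f g : Z ⟶ X.prod Y} (h1 : f ≫ fst X Y = g ≫ fst X Y)
    (h2 : f ≫ snd X Y = g ≫ snd X Y) : f = g := by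
  have h3 : (show Z.V ⟶ (X.prod Y).V from f) = (show Z.V ⟶ (X.prod Y).V from g) :=
    SmVar.hom_ext (Limits.pullback.hom_ext (congrArg SmVar.Hom.hom h1)
      (congrArg SmVar.Hom.hom h2))
  exact h3

/-- the product of two morphisms -/
def times (f : X ⟶ X') (g : Y ⟶ Y') : X.prod Y ⟶ X'.prod Y' :=
  Obj.lift (fst X Y ≫ f) (snd X Y ≫ g)

theorem times_fst (f : X ⟶ X') (g : Y ⟶ Y') : times f g ≫ fst X' Y' = fst X Y ≫ f := Obj.lift_fst _ _

theorem times_snd (f : X ⟶ X') (g : Y ⟶ Y') : times f g ≫ snd X' Y' = snd X Y ≫ g := Obj.lift_snd _ _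

theorem lift_comp (h : Z ⟶ Y) (f : Y ⟶ X) (g : Y ⟶ X') :
    h ≫ Obj.lift f g = Obj.lift (h ≫ f) (h ≫ g) :=
  prod_ext (by rw [Category.assoc, Obj.lift_fst, Obj.lift_fst])
    (by rw [Category.assoc, Obj.lift_snd, Obj.lift_snd])

theorem times_id : times (𝟙 X) (𝟙 Y) = 𝟙 (X.prod Y) :=
  prod_ext (by rw [times_fst, Category.comp_id, Category.id_comp])
    (by rw [times_snd, Category.comp_id, Category.id_comp])

/-- the exchange `X × (Y × Z) → Y × (X × Z)` -/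
def sw (X Y Z : 𝒱.Obj) : X.prod (Y.prod Z) ⟶ Y.prod (X.prod Z) :=
  Obj.lift (snd X (Y.prod Z) ≫ fst Y Z)
    (Obj.lift (fst X (Y.prod Z)) (snd X (Y.prod Z) ≫ snd Y Z))

/-- the associativity `(X × Y) × Z → X × (Y × Z)` -/
def al (X Y Z : 𝒱.Obj) : (X.prod Y).prod Z ⟶ X.prod (Y.prod Z) :=
  Obj.lift (fst (X.prod Y) Z ≫ fst X Y)
    (Obj.lift (fst (X.prod Y) Z ≫ snd X Y) (snd (X.prod Y) Z))

/-- the associativity `X × (Y × Z) → (X × Y) × Z` -/
def la (X Y Z : 𝒱.Obj) : X.prod (Y.prod Z) ⟶ (X.prod Y).prod Z :=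
  Obj.lift (Obj.lift (fst X (Y.prod Z)) (snd X (Y.prod Z) ≫ fst Y Z))
    (snd X (Y.prod Z) ≫ snd Y Z)

theorem la_al : la X Y Z ≫ al X Y Z = 𝟙 _ := by
  refine prod_ext ?_ (prod_ext ?_ ?_) <;>
    simp only [la, al, Category.assoc, Obj.lift_fst, Obj.lift_snd, Obj.lift_fst_assoc,
      Obj.lift_snd_assoc, Category.id_comp]

theorem sw_sw : sw X Y Z ≫ sw Y X Z = 𝟙 _ := by
  refine prod_ext ?_ (prod_ext ?_ ?_) <;>
    simp only [sw, Category.assoc, Obj.lift_fst, Obj.lift_snd, Obj.lift_fst_assoc,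
      Obj.lift_snd_assoc, Category.id_comp]

/-- the exchange is natural -/
theorem sw_nat (q : X ⟶ X') (a : Y ⟶ Y') (h : Z ⟶ Y'') :
    sw X Y Z ≫ times a (times q h) ≫ sw Y' X' Y'' = times q (times a h) := by
  refine prod_ext ?_ (prod_ext ?_ ?_) <;>
    simp only [sw, times, Category.assoc, Obj.lift_fst, Obj.lift_snd, Obj.lift_fst_assoc,
      Obj.lift_snd_assoc]

end mor

/-! ### powers -/

/-- the power of the morphism -/
def powMap {X B : 𝒱.Obj} (i : X ⟶ B) : ∀ n, pow X n ⟶ pow B n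
  | 0 => i
  | n + 1 => times i (powMap i n)

/-- the product `X_(i_1) ^ (n_1 + 1) × (X_(i_2) ^ (n_2 + 1) × (⋯ × Z))` -/
def pows {ι : Type} (X : ι → 𝒱.Obj) (L : List (ι × ℕ)) (Z : 𝒱.Obj) : 𝒱.Obj :=
  L.foldr (fun x Y => (pow (X x.1) x.2).prod Y) Z

/-- the product of the powers of the morphisms -/
def res {ι : Type} (F : Secs 𝒱 ι) : ∀ (L : List (ι × ℕ)) (Z : 𝒱.Obj), pows F.X L Z ⟶ pows F.W L Z
  | [], Z => 𝟙 Z
  | x :: L, Z => times (powMap (F.f x.1) x.2) (res F L Z)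

/-- the product of the morphisms -/
def resL {ι : Type} (F : Secs 𝒱 ι) : ∀ (L : List ι) (Z : 𝒱.Obj), prods F.X L Z ⟶ prods F.W L Z
  | [], Z => 𝟙 Z
  | i :: L, Z => times (F.f i) (resL F L Z)

theorem isRes {ι : Type} (F : Secs 𝒱 ι) (Z : 𝒱.Obj) : ∀ L, F.IsRes Z L (resL F L Z)
  | [] => HG.St.Secs.IsRes.nil
  | i :: L => HG.St.Secs.IsRes.cons (isRes F Z L) ⟨times_fst _ _⟩ ⟨times_snd _ _⟩

/-- the power `X ^ (n + 1)` -/
abbrev nX (ops : CycleOps 𝒱) (X : 𝒱.Obj) (n : ℕ) : 𝒱.Obj :=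
  (nest ops n fun _ => (⟨X, 0⟩ : Polarized 𝒱)).X

/-- the power of the morphism -/
def nm (ops : CycleOps 𝒱) {X B : 𝒱.Obj} (i : X ⟶ B) : ∀ n, nX ops X n ⟶ nX ops B n
  | 0 => i
  | n + 1 => times i (nm ops i n)

theorem nm_prj {X B : 𝒱.Obj} (i : X ⟶ B) : ∀ (n : ℕ) (a : Fin (n + 1)),
    nm ops i n ≫ prj ops n (fun _ => (⟨B, 0⟩ : Polarized 𝒱)) a =
      prj ops n (fun _ => (⟨X, 0⟩ : Polarized 𝒱)) a ≫ i
  | 0, a => by
    obtain rfl : a = 0 := Fin.eq_zero a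
    change i ≫ 𝟙 B = 𝟙 X ≫ i
    rw [Category.comp_id, Category.id_comp]
  | n + 1, a => by
    refine Fin.cases ?_ (fun c => ?_) a
    · exact Obj.lift_fst _ _
    · have h1 := nm_prj i n c
      have key : ∀ {N N' : 𝒱.Obj} (φ : N ⟶ N') (g : N' ⟶ B) (g' : N ⟶ X),
          φ ≫ g = g' ≫ i → times i φ ≫ (snd B N' ≫ g) = (snd X N ≫ g') ≫ i := by
        intro N N' φ g g' h
        rw [← Category.assoc, times_snd, Category.assoc, Category.assoc, h]
      exact key _ _ _ h1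

/-- the two constructions of the powers agree -/
theorem transport {X B : 𝒱.Obj} (i : X ⟶ B) : ∀ (n : ℕ)
    (M : ∀ P P' : 𝒱.Obj, (P ⟶ P') → Prop), M _ _ (nm ops i n) → M _ _ (powMap i n)
  | 0, _, h => h
  | n + 1, M, h => transport i n (fun P P' g => M (X.prod P) (B.prod P') (times i g)) h

end

end Pool.Agent.U233.AM
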