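import Pool.Agent.U233.AM.Step
import Pool.Agent.U233.FG.Fam

/-!
# Products of powers
-/

set_option autoImplicit false
set_option linter.unusedSectionVars false

open CategoryTheory AlgebraicGeometry Finset

universe u

namespace Pool.Agent.U233.AM

open Module Pool.Agent.N179.GR Pool.Agent.U233.FG Pool.Agent.TH125.Gal Pool.Agent.U233.TF
open Pool.Agent.N179.GR.S
open Pool.Agent.H914 Pool.Agent.H914.VarClass Pool.Agent.H914.VarClass.Obj
  Pool.Agent.H914.WeilCohomology Pool.Agent.H281R3.HT Pool.Agent.W552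
open Pool.Agent.U233.AH (Tt)
open Pool.Agent.U233.PW (FullN)
open Pool.Agent.U233.HG.St (pow Secs)

noncomputable section

/-- derivations which kill the generating representations kill the elements which they generate -/
theorem kill_gen {K : Type} [Field K] {Γ : Type} [Group Γ] {A : Type} [Ring A] [Algebra K A]
    [FiniteDimensional K A] {τ : Γ →* (A ≃ₐ[K] A)} {κ : Type} {U : κ → GRep K Γ} {D : Der K Γ}
    (hD : InDer 1 D) (h0 : ∀ a, D.Θ (fl (U a)) = 0) {x : A}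
    (hx : x ∈ Algebra.adjoin K (semis τ ∪ images U τ)) : D.Θ (full A (algR τ)) x = 0 := by
  induction hx using Algebra.adjoin_induction with
  | mem x hx =>
    rcases hx with hx | ⟨a, f, v, hf, rfl⟩
    · exact hD.kill hx
    · have h1 := D.lin (fl (U a)) (full A (algR τ)) (show (U a).V →ₗ[K] A from f) hf v
      rw [h0 a] at h1
      exact h1.symm.trans (map_zero (show (U a).V →ₗ[K] A from f))
  | algebraMap r =>
    rw [Algebra.algebraMap_eq_smul_one]
    refine (map_smul (D.Θ (full A (algR τ))) r (1 : A)).trans ?_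
    have h2 : D.Θ (full A (algR τ)) (1 : A) = 0 := Θ_one D
    rw [h2]
    exact smul_zero r
  | add x y _ _ hx hy =>
    exact (map_add (D.Θ (full A (algR τ))) x y).trans
      ((congrArg₂ (· + ·) hx hy).trans (add_zero _))
  | mul x y _ _ hx hy =>
    rw [Θ_mul, hx, hy]
    exact (congrArg₂ (· + ·) (zero_mul y) (mul_zero x)).trans (add_zero _)

variable {k : Type u} [Field k] {𝒱 : VarClass k} {ops : CycleOps 𝒱}
  {W : WeilCohomology.{u, 0} ops} {Γ : Type} [Group Γ] {S : Sys W Γ} {C : Cl S}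
  {ι : Type} {V : ι → GRep W.K Γ} {m : ℕ} {U : Fin m → GRep W.K Γ} {F : Secs 𝒱 ι}

theorem kill_set {P : GVar W Γ} {κ : Type} {U : κ → GRep W.K Γ} {D : Der W.K Γ}
    (hD : InDer 1 D) (h0 : ∀ a, D.Θ (fl (U a)) = 0) {A : Set (W.H P.X)}
    (hA : ∀ s ∈ A, s ∈ semis P.act ∨ s ∈ images U P.act) {x : W.H P.X}
    (hx : x ∈ Algebra.adjoin W.K A) : D.Θ (full (W.H P.X) (algR P.act)) x = 0 :=
  kill_gen hD h0 (Algebra.adjoin_mono (fun s hs => hA s hs) hx)

/-- the conditions on the sections -/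
structure Ok {S : Sys W Γ} (C : Cl S) (V : ι → GRep W.K Γ) {m : ℕ} (U : Fin m → GRep W.K Γ)
    (F : Secs 𝒱 ι) (x : ι × ℕ) : Prop where
  rel : ∃ f : (V x.1).V →ₗ[W.K] W.H (F.X x.1), RelF C (F.f x.1) (V x.1).hom f
  num : Even (F.X x.1).dim → x.2 + 1 < finrank W.K (V x.1).V
  gen : ∀ D : Der W.K Γ, InDer 1 D → (∀ a, D.Θ (fl (U a)) = 0) →
    ∀ b, D.Θ (full _ (algR (S.act (F.X x.1)))) (W.map (F.f x.1) b) = 0
  spl : ∀ a, Spl (fl (V x.1)) {fl (U a)}

/-- the representations have many skew operators -/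
def FullR (V : GRep W.K Γ) : Prop :=
  ∃ (ψ : V.V →ₗ[W.K] V.V →ₗ[W.K] W.K) (μ : Γ →* W.Kˣ), FullN V.hom ψ μ

/-- the cohomology of `Q` is killed by the derivations which kill the `U a` and the `V j` -/
def Kill (S : Sys W Γ) (V : ι → GRep W.K Γ) {m : ℕ} (U : Fin m → GRep W.K Γ) (J : List ι)
    (Q : 𝒱.Obj) : Prop :=
  ∀ D : Der W.K Γ, InDer 1 D → (∀ a, D.Θ (fl (U a)) = 0) → (∀ j ∈ J, D.Θ (fl (V j)) = 0) →
    D.Θ (full _ (algR (S.act Q))) = 0

theorem Kill.prod {J J' : List ι} {Q Q' : 𝒱.Obj} (h : Kill S V U J Q) (h' : Kill S V U J' Q') :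
    Kill S V U (J ++ J') (Q.prod Q') := fun D hD h1 h2 =>
  Θ_prod (S.nat (fst Q Q')) (S.nat (snd Q Q'))
    (h D hD h1 fun j hj => h2 j (List.mem_append_left _ hj))
    (h' D hD h1 fun j hj => h2 j (List.mem_append_right _ hj))

theorem Ok.kill {x : ι × ℕ} (h : Ok C V U F x) : Kill S V U [x.1] (F.X x.1) := by
  intro D hD h1 h2
  obtain ⟨f, hf⟩ := h.rel
  refine LinearMap.ext fun y => ?_
  obtain ⟨c, hc, v, rfl⟩ := hf.sum y
  have h3 : D.Θ (full _ (algR (S.act (F.X x.1)))) (c + f v) =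
      D.Θ (full _ (algR (S.act (F.X x.1)))) c +
        D.Θ (full _ (algR (S.act (F.X x.1)))) (f v) := map_add (D.Θ (full _ (algR (S.act (F.X x.1))))) _ _
  refine h3.trans ?_
  rw [kill_prs hD (h.gen D hD h1) hc, ← hf.lin, h2 _ (List.mem_singleton_self _), zero_add]
  exact map_zero f

theorem Kill.pow {J : List ι} {X : 𝒱.Obj} (h : Kill S V U J X) : ∀ n, Kill S V U J (pow X n)
  | 0 => h
  | n + 1 => fun D hD h1 h2 => Θ_prod (S.nat (fst X (HG.St.pow X n)))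
      (S.nat (snd X (HG.St.pow X n))) (h D hD h1 h2) (Kill.pow h n D hD h1 h2)

theorem kill_secs {Z : 𝒱.Obj} (hZ : Kill S V U [] Z) : ∀ L : List (ι × ℕ),
    (∀ x ∈ L, Ok C V U F x) → Kill S V U (L.map Prod.fst) (pows F.X L Z)
  | [], _ => hZ
  | x :: L, hL => ((hL x List.mem_cons_self).kill.pow x.2).prod
      (kill_secs hZ L fun y hy => hL y (List.mem_cons_of_mem _ hy))

variable [IsAlgClosed W.K]

/-- the lifts -/
theorem Ok.lift {x : ι × ℕ} (hx : Ok C V U F x) (hF : Fam V) {J : List ι} (hJ : x.1 ∉ J)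
    {Y : 𝒱.Obj} (hY : Kill S V U J Y) {ψ : (V x.1).V →ₗ[W.K] (V x.1).V →ₗ[W.K] W.K}
    {μ : Γ →* W.Kˣ} (hV : FullN (V x.1).hom ψ μ) :
    LiftSk S (V x.1).hom ψ (F.f x.1) Y := by
  classical
  intro A hA
  have h1 : Spl (fl (V x.1)) (⋃ a ∈ (Finset.univ : Finset (Fin m)), {fl (U a)}) :=
    Spl.iUnion Finset.univ (fun a => {fl (U a)}) fun a _ => hx.spl a
  have h2 : Spl (fl (V x.1)) (⋃ j ∈ J.toFinset, {fl (V j)}) :=
    Spl.iUnion _ (fun j => {fl (V j)}) fun j hj =>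
      hF.pair x.1 j fun h => hJ (h ▸ List.mem_toFinset.1 hj)
  rw [← hV.core_eq] at hA
  obtain ⟨D, hD, h3, h4⟩ := mem_aI.1 ((h1.union h2) hA) 1
  have h5 : ∀ a, D.Θ (fl (U a)) = 0 := fun a =>
    h3 _ (Or.inl (Set.mem_iUnion₂.2 ⟨a, Finset.mem_univ a, rfl⟩))
  have h6 : ∀ j ∈ J, D.Θ (fl (V j)) = 0 := fun j hj =>
    h3 _ (Or.inr (Set.mem_iUnion₂.2 ⟨j, List.mem_toFinset.2 hj, rfl⟩))
  exact ⟨D, hD, h4, hx.gen D hD h5, hY D hD h5 h6⟩

/-- one power -/
theorem Ok.step {x : ι × ℕ} (hx : Ok C V U F x) (hF : Fam V) (hV : FullR (V x.1))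
    {J : List ι} (hJ : x.1 ∉ J) {Y Y' : 𝒱.Obj} (hY : Kill S V U J Y) {h : Y ⟶ Y'}
    (H : C.Pulls (times (powMap (F.f x.1) x.2) h)) : C.Pulls (times (𝟙 (HG.St.pow (F.X x.1) x.2)) h) := by
  obtain ⟨ψ, μ, hψ⟩ := hV
  obtain ⟨f, hf⟩ := hx.rel
  exact AM.step hf hψ (hx.lift hF hJ hY hψ) hx.num H

theorem assoc_nat {Q P Y Y' : 𝒱.Obj} (h : Y ⟶ Y') :
    (al Q P Y ≫ sw Q P Y) ≫ times (𝟙 P) (times (𝟙 Q) h) ≫ (sw P Q Y' ≫ la Q P Y') =
      times (𝟙 (Q.prod P)) h := by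
  refine prod_ext (prod_ext ?_ ?_) ?_ <;>
    simp only [sw, al, la, times, Category.assoc, Obj.lift_fst, Obj.lift_snd, Obj.lift_fst_assoc,
      Obj.lift_snd_assoc, Category.comp_id]

/-- the induction -/
theorem red (hV : ∀ i, FullR (V i)) (hF : Fam V) {Z : 𝒱.Obj} (hZ : Kill S V U [] Z) :
    ∀ L : List (ι × ℕ), (L.map Prod.fst).Nodup → (∀ x ∈ L, Ok C V U F x) →
    ∀ (Q : 𝒱.Obj) (J : List ι), Kill S V U J Q → (∀ x ∈ L, x.1 ∉ J) →
    C.Pulls (times (𝟙 Q) (res F L Z)) → C.Pulls (𝟙 (Q.prod (pows F.X L Z)))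
  | [], _, _, Q, J, _, _, H => by
    rw [← times_id]
    exact H
  | x :: L, hnd, hL, Q, J, hQ, hJ, H => by
    rw [List.map_cons, List.nodup_cons] at hnd
    have hx := hL x List.mem_cons_self
    have hL' : ∀ y ∈ L, Ok C V U F y := fun y hy => hL y (List.mem_cons_of_mem _ hy)
    have hY := kill_secs hZ L hL'
    have H' : C.Pulls (times (𝟙 Q) (times (powMap (F.f x.1) x.2) (res F L Z))) := H
    have H1 : C.Pulls (times (powMap (F.f x.1) x.2) (times (𝟙 Q) (res F L Z))) := by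
      rw [← sw_nat]
      exact H'.comp _ _
    have H2 : C.Pulls (times (𝟙 (HG.St.pow (F.X x.1) x.2)) (times (𝟙 Q) (res F L Z))) :=
      hx.step hF (hV _) (J := J ++ L.map Prod.fst) (fun h => by
        rcases List.mem_append.1 h with h | h
        · exact hJ x List.mem_cons_self h
        · exact hnd.1 h) (hQ.prod hY) H1
    have H3 : C.Pulls (times (𝟙 (Q.prod (HG.St.pow (F.X x.1) x.2))) (res F L Z)) := by
      rw [← assoc_nat]
      exact H2.comp _ _
    have H4 := red hV hF hZ L hnd.2 hL' (Q.prod (HG.St.pow (F.X x.1) x.2)) (J ++ [x.1])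
      (hQ.prod (hx.kill.pow x.2)) (fun y hy h => by
        rcases List.mem_append.1 h with h | h
        · exact hJ y (List.mem_cons_of_mem _ hy) h
        · exact hnd.1 (List.mem_map.2 ⟨y, hy, List.mem_singleton.1 h⟩)) H3
    have H5 := H4.comp (la Q (HG.St.pow (F.X x.1) x.2) (pows F.X L Z)) (al Q (HG.St.pow (F.X x.1) x.2) (pows F.X L Z))
    rw [Category.id_comp, la_al] at H5
    exact H5

/-- **Products of powers.** -/
theorem all (hV : ∀ i, FullR (V i)) (hF : Fam V) {Z : 𝒱.Obj} (hZ : Kill S V U [] Z)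
    (L : List (ι × ℕ)) (hnd : (L.map Prod.fst).Nodup) (hL : ∀ x ∈ L, Ok C V U F x)
    (H : C.Pulls (res F L Z)) : C.Pulls (𝟙 (pows F.X L Z)) := by
  cases L with
  | nil => exact H
  | cons x L =>
    rw [List.map_cons, List.nodup_cons] at hnd
    have hx := hL x List.mem_cons_self
    have hL' : ∀ y ∈ L, Ok C V U F y := fun y hy => hL y (List.mem_cons_of_mem _ hy)
    refine red hV hF hZ L hnd.2 hL' (HG.St.pow (F.X x.1) x.2) [x.1] (hx.kill.pow x.2)
      (fun y hy h => hnd.1 (List.mem_map.2 ⟨y, hy, List.mem_singleton.1 h⟩)) ?_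
    exact hx.step hF (hV _) (J := L.map Prod.fst) hnd.1 (kill_secs hZ L hL') H

end

end Pool.Agent.U233.AM
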